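import Pool.Agent.Work.MP_3d425c_gt.Nz.EZorn
import Pool.Agent.Work.MP_3d425c_gt.To.SfDefs
import Pool.Agent.Work.MP_3d425c_gt.Bq.Ibase
import Pool.Agent.Work.MP_3d425c_gt.Bg.Rank
import Pool.Agent.Work.MP_3d425c_gt.Nz.Surf4
import Pool.Agent.Work.MP_3d425c_gt.To.SfKp
import Pool.Agent.Work.MP_3d425c_gt.Nh.Rhm

-- merged part: Pool.Agent.Work.MP_3d425c_gt.To.Nat
section
/-! Trees of groups with edge groups of rank two, equivariant slopes on the edges. -/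

namespace Pool.Agent.Work.MP_3d425c_gt.To.Top
open Set MulAction Pool.Agent.Work.MP_3d425c_gt.Cy Pool.Agent.Work.MP_3d425c_gt.Gl

/-- the edge group -/
abbrev Eg (G : Type*) {V : Type*} [Group G] [MulAction G V] (v w : V) : Subgroup G :=
  stabilizer G v ⊓ stabilizer G w

/-- an action on a tree without inversion, with edge groups of rank two -/
structure Jsj (G : Type*) {V : Type*} [Group G] [MulAction G V] (T : SimpleGraph V) : Prop where
  tree : T.IsTree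
  act : ∀ (g : G) p q, T.Adj p q → T.Adj (g • p) (g • q)
  ninv : ∀ (g : G) p q, T.Adj p q → g • p = q → g • q ≠ p
  edge : ∀ v w, T.Adj v w → ∃ a b : G, a * b = b * a ∧ ¬ Dep a b ∧
    Eg G v w = Subgroup.closure {a, b}

variable {G V : Type*} [Group G] [MulAction G V] {T : SimpleGraph V} {σ : V → V → G → ℝ}

/-- an equivariant family of slopes -/
structure Slo (T : SimpleGraph V) (σ : V → V → G → ℝ) : Prop where
  symm : ∀ v w, T.Adj v w → σ v w = σ w v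
  eqv : ∀ (g : G) v w, T.Adj v w → ∀ p ∈ Eg G v w, σ (g • v) (g • w) (g * p * g⁻¹) = σ v w p
  add : ∀ v w, T.Adj v w → ∀ p ∈ Eg G v w, ∀ q ∈ Eg G v w, σ v w (p * q) = σ v w p + σ v w q
  pos : ∀ v w, T.Adj v w → ∃ p ∈ Eg G v w, 0 < σ v w p

/-- the edge groups at `v` with slopes `s` -/
def Fam (T : SimpleGraph V) (v : V) (s : V → G → ℝ) : Set (Subgroup G × (G → ℝ)) :=
  {f | ∃ w, T.Adj v w ∧ f = (Eg G v w, s w)}

theorem mem_Eg {v w : V} {p : G} : p ∈ Eg G v w ↔ p • v = v ∧ p • w = w := Iff.rfl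

theorem Eg_comm (G : Type*) [Group G] [MulAction G V] (v w : V) : Eg G v w = Eg G w v :=
  inf_comm _ _

theorem conj_Eg {v w : V} {p : G} (g : G) :
    g * p * g⁻¹ ∈ Eg G (g • v) (g • w) ↔ p ∈ Eg G v w := by
  simp [mul_smul]

theorem Jsj.comm (J : Jsj G T) {v w : V} (a : T.Adj v w) :
    ∀ p ∈ Eg G v w, ∀ q ∈ Eg G v w, p * q = q * p := by
  obtain ⟨x, y, c, -, e⟩ := J.edge v w a
  rw [e]
  exact Ax.pair_comm c

theorem Slo.ker (J : Jsj G T) (S : Slo T σ) {v w : V} (a : T.Adj v w) :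
    ∃ κ ∈ Eg G v w, σ v w κ = 0 ∧ ∀ p ∈ Eg G v w, σ v w p = 0 → p ∈ Subgroup.zpowers κ := by
  obtain ⟨x, y, c, -, e⟩ := J.edge v w a
  have h1 := S.add v w a
  have h2 := S.pos v w a
  rw [e] at h1 h2 ⊢
  exact Ax.ker_cyc c h1 h2

/-- Gluing the orders of the vertex groups. -/
theorem Jsj.lo (J : Jsj G T) (S : Slo T σ)
    (o : ∀ v, ∃ r, Ord (stabilizer G v) (Fam T v (σ v)) r) :
    ∃ r : G → G → Prop, IsStrictTotalOrder G r ∧ ∀ a b c, r a b ↔ r (c * a) (c * b) := by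
  refine Act.lo (T := T) (F := fun v => Fam T v (σ v)) ⟨J.tree, J.act, J.ninv, ?_, ?_, o⟩
  · rintro v _ ⟨w, a, rfl⟩
    exact ⟨inf_le_left, J.comm a, S.add v w a⟩
  · intro v w a
    obtain ⟨κ, k1, k2, k3⟩ := S.ker J a
    refine ⟨σ v w, κ, ⟨⟨w, a, rfl⟩, v, a.symm, ?_⟩, k1, k2, fun c hc e => ?_⟩
    · rw [← S.symm v w a, Eg_comm G w v]
    · obtain ⟨n, hn⟩ := k3 c hc e
      exact ⟨n, hn.symm⟩

/-- `g` carries the first edge to the second -/
def Car (g : G) (x y : V × V) : Prop :=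
  (g • x.1 = y.1 ∧ g • x.2 = y.2) ∨ (g • x.1 = y.2 ∧ g • x.2 = y.1)

theorem Car.inv {g : G} {x y : V × V} (k : Car g x y) : Car g⁻¹ y x := by
  rcases k with ⟨a, b⟩ | ⟨a, b⟩
  · exact .inl ⟨by rw [← a, inv_smul_smul], by rw [← b, inv_smul_smul]⟩
  · exact .inr ⟨by rw [← b, inv_smul_smul], by rw [← a, inv_smul_smul]⟩

theorem Car.mul {g g' : G} {x y z : V × V} (k : Car g x y) (l : Car g' y z) :
    Car (g' * g) x z := by
  rcases k with ⟨a, b⟩ | ⟨a, b⟩ <;> rcases l with ⟨c, d⟩ | ⟨c, d⟩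
  · exact .inl ⟨by rw [mul_smul, a, c], by rw [mul_smul, b, d]⟩
  · exact .inr ⟨by rw [mul_smul, a, c], by rw [mul_smul, b, d]⟩
  · exact .inr ⟨by rw [mul_smul, a, d], by rw [mul_smul, b, c]⟩
  · exact .inl ⟨by rw [mul_smul, a, d], by rw [mul_smul, b, c]⟩

theorem Car.adj (J : Jsj G T) {g : G} {x y : V × V} (k : Car g x y) (a : T.Adj x.1 x.2) :
    T.Adj y.1 y.2 := by
  have := J.act g _ _ a
  rcases k with ⟨c, d⟩ | ⟨c, d⟩ <;> rw [c, d] at this
  exacts [this, this.symm]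

theorem Car.mem {g p : G} {x y : V × V} (k : Car g x y) (hp : p ∈ Eg G x.1 x.2) :
    g * p * g⁻¹ ∈ Eg G y.1 y.2 := by
  have := (conj_Eg g).2 hp
  rcases k with ⟨c, d⟩ | ⟨c, d⟩ <;> rw [c, d] at this
  exacts [this, Eg_comm G y.2 y.1 ▸ this]

theorem Car.uniq (J : Jsj G T) {g g' p : G} {x y : V × V} (k : Car g x y) (l : Car g' x y)
    (a : T.Adj x.1 x.2) (hp : p ∈ Eg G x.1 x.2) : g * p * g⁻¹ = g' * p * g'⁻¹ := by
  have m : g'⁻¹ * g ∈ Eg G x.1 x.2 := by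
    rcases k.mul l.inv with c | ⟨c, d⟩
    · exact c
    · exact absurd d (J.ninv _ _ _ a c)
  have := J.comm a _ m p hp
  calc g * p * g⁻¹ = g' * (g'⁻¹ * g * p) * g⁻¹ := by group
    _ = g' * p * g'⁻¹ := by rw [this]; group

/-- Equivariant choice on the edges. -/
theorem Jsj.choose (J : Jsj G T) (R : V → V → (G → ℝ) → Prop)
    (ex : ∀ v w, T.Adj v w → ∃ s, R v w s) (sy : ∀ v w s, R v w s → R w v s)
    (tr : ∀ (g : G) v w s s', T.Adj v w → R (g • v) (g • w) s →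
      (∀ p ∈ Eg G v w, s' p = s (g * p * g⁻¹)) → R v w s') :
    ∃ σ : V → V → G → ℝ, (∀ v w, T.Adj v w → σ v w = σ w v) ∧
      (∀ (g : G) v w, T.Adj v w → ∀ p ∈ Eg G v w, σ (g • v) (g • w) (g * p * g⁻¹) = σ v w p) ∧
      ∀ v w, T.Adj v w → R v w (σ v w) := by
  classical
  let E : Setoid (V × V) := ⟨fun x y => ∃ g : G, Car g x y, fun x => ⟨1, .inl (by simp)⟩,
    fun ⟨g, k⟩ => ⟨_, k.inv⟩, fun ⟨_, k⟩ ⟨_, l⟩ => ⟨_, k.mul l⟩⟩
  obtain ⟨ρ, r1, r2⟩ : ∃ ρ : V × V → V × V, (∀ x, ∃ g : G, Car g x (ρ x)) ∧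
      ∀ x y (g : G), Car g x y → ρ x = ρ y :=
    ⟨fun x => (Quotient.mk E x).out, fun x => E.symm (Quotient.mk_out (s := E) x),
      fun x y g k => congrArg Quotient.out (Quotient.sound (s := E) ⟨g, k⟩)⟩
  choose γ hγ using r1
  choose! s hs using ex
  let τ : V → V → G → ℝ := fun v w p =>
    if p ∈ Eg G v w then s (ρ (v, w)).1 (ρ (v, w)).2 (γ (v, w) * p * (γ (v, w))⁻¹) else 0
  have key : ∀ (g : G) (x y : V × V), Car g x y → T.Adj x.1 x.2 → ∀ p ∈ Eg G x.1 x.2,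
      τ y.1 y.2 (g * p * g⁻¹) = τ x.1 x.2 p := fun g x y k a p hp => by
    have e := r2 x y g k
    have l : Car (γ y * g) x (ρ x) := e ▸ k.mul (hγ y)
    simp only [τ, if_pos hp, if_pos (k.mem hp), Prod.mk.eta]
    rw [← e, (hγ x).uniq J l a hp]
    congr 1
    group
  refine ⟨τ, fun v w a => funext fun p => ?_, fun g v w a p hp =>
    key g (v, w) (g • v, g • w) (.inl ⟨rfl, rfl⟩) a p hp, fun v w a => ?_⟩
  · by_cases hp : p ∈ Eg G v w
    · have := key 1 (v, w) (w, v) (.inr (by simp)) a p hp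
      simpa using this.symm
    · simp only [τ, if_neg hp, if_neg (Eg_comm G v w ▸ hp)]
  · have b := hs _ _ ((hγ (v, w)).adj J a)
    refine tr (γ (v, w)) v w (s (ρ (v, w)).1 (ρ (v, w)).2) _ a ?_ fun p hp => by
      simp only [τ, if_pos hp]
    rcases hγ (v, w) with ⟨c, d⟩ | ⟨c, d⟩ <;> rw [c, d]
    exacts [b, sy _ _ _ b]

variable {X : Type*} [MulAction G X] {C : Set (ℝ → X)} {up : X → X → Prop}

/-- a broken axis with integral slope -/
def Zg (C : Set (ℝ → X)) (up : X → X → Prop) (P : Subgroup G) (s : G → ℝ) : Prop :=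
  (∃ t ∈ P, s t = 1) ∧ (∀ q ∈ P, ∃ k : ℤ, s q = k) ∧ Ph.Zig C up P s

/-- a line or a broken axis -/
def Nt (C : Set (ℝ → X)) (up : X → X → Prop) (P : Subgroup G) (s : G → ℝ) : Prop :=
  (∃ y, Ph.Line C P s y) ∨ Zg C up P s

theorem skew_conj (h : Om G C up) (g : G) {p : G} {m n : X} (e : Ax.Skew C up p m n) :
    Ax.Skew C up (g * p * g⁻¹) (g • m) (g • n) :=
  ⟨h.lg_smul g e.lg, fun k => e.ne (smul_left_cancel g k),
    by simpa [mul_smul] using h.ups g _ _ e.un, by simpa [mul_smul] using h.ups g _ _ e.um⟩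

theorem line_tr (h : Om G C up) (g : G) {P Q : Subgroup G} {s s' : G → ℝ}
    (m : ∀ p ∈ P, g * p * g⁻¹ ∈ Q) (e : ∀ p ∈ P, s' p = s (g * p * g⁻¹)) {y : X}
    (L : Ph.Line C Q s y) : Ph.Line C P s' (g⁻¹ • y) :=
  ⟨fun p hp => by simpa [mul_smul] using Ax.cmp_smul h g⁻¹ (L.cmp _ (m p hp)),
    fun p hp k => by simpa [mul_smul] using Ax.asc_smul h g⁻¹ (L.asc _ (m p hp) (e p hp ▸ k))⟩

theorem zig_tr (h : Om G C up) (g : G) {P Q : Subgroup G} {s s' : G → ℝ}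
    (m : ∀ p ∈ P, g * p * g⁻¹ ∈ Q) (e : ∀ p ∈ P, s' p = s (g * p * g⁻¹))
    (Z : Ph.Zig C up Q s) : Ph.Zig C up P s' := by
  obtain ⟨a, b, k⟩ := Z
  refine ⟨g⁻¹ • a, g⁻¹ • b, fun q hq => ?_⟩
  rw [e q hq, (k _ (m q hq)).1, (k _ (m q hq)).2]
  refine ⟨⟨fun l => by simpa [mul_assoc] using skew_conj h g⁻¹ l,
    fun l => by simpa using skew_conj h g l⟩, ?_⟩
  simp only [mul_smul, smul_eq_iff_eq_inv_smul g]

theorem zg_tr (h : Om G C up) (g : G) {v w : V} {s s' : G → ℝ}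
    (e : ∀ p ∈ Eg G v w, s' p = s (g * p * g⁻¹)) (Z : Zg C up (Eg G (g • v) (g • w)) s) :
    Zg C up (Eg G v w) s' := by
  obtain ⟨⟨t, ht, t1⟩, z, Z⟩ := Z
  have m : g⁻¹ * t * g ∈ Eg G v w := (conj_Eg g).1 (by simpa [mul_assoc] using ht)
  refine ⟨⟨_, m, ?_⟩, fun q hq => e q hq ▸ z _ ((conj_Eg g).2 hq),
    zig_tr h g (fun p => (conj_Eg g).2) e Z⟩
  rw [e _ m, ← t1]
  congr 1
  group

/-- The natural slopes. -/
theorem Jsj.nat (J : Jsj G T) (h : Om G C up) (x₀ : X)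
    (dep : ∀ (x : X) (a b : G), a • x = x → b • x = x → Dep a b) :
    ∃ σ : V → V → G → ℝ, Slo T σ ∧ ∀ v w, T.Adj v w → Nt C up (Eg G v w) (σ v w) := by
  refine (J.choose (fun v w s =>
      (∀ p ∈ Eg G v w, ∀ q ∈ Eg G v w, s (p * q) = s p + s q) ∧ (∃ p ∈ Eg G v w, 0 < s p) ∧
        Nt C up (Eg G v w) s) (fun v w a => ?_) (fun v w s k => Eg_comm G v w ▸ k) ?_).imp
    fun σ ⟨s1, s2, s3⟩ => ⟨⟨s1, s2, fun v w a => (s3 v w a).1, fun v w a => (s3 v w a).2.1⟩,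
      fun v w a => (s3 v w a).2.2⟩
  · obtain ⟨x, y, c, n, e⟩ := J.edge v w a
    obtain ⟨s, a1, a2, a3⟩ := Ax.axis h c x₀ fun z k => n (dep z x y k.1 k.2)
    rw [e]
    refine ⟨s, a1, a2, a3.imp (fun ⟨z, k⟩ => ⟨z, fun p hp => (k p hp).1, fun p hp => (k p hp).2⟩)
      fun ⟨m, n, t, k⟩ => ⟨t, fun q hq => (k q hq).1, m, n, fun q hq => (k q hq).2⟩⟩
  · rintro g v w s s' - ⟨a1, ⟨p, hp, a2⟩, a3⟩ e
    have m : ∀ p ∈ Eg G v w, g * p * g⁻¹ ∈ Eg G (g • v) (g • w) := fun p => (conj_Eg g).2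
    refine ⟨fun p hp q hq => ?_, ⟨g⁻¹ * p * g, ?_, ?_⟩,
      a3.imp (fun ⟨y, L⟩ => ⟨_, line_tr h g m e L⟩) (zg_tr h g e)⟩
    · rw [e _ (mul_mem hp hq), e p hp, e q hq, ← a1 _ (m p hp) _ (m q hq)]
      congr 1
      group
    · exact (conj_Eg g).1 (by simpa [mul_assoc] using hp)
    · rw [e _ ((conj_Eg g).1 (by simpa [mul_assoc] using hp))]
      simpa [mul_assoc] using a2

/-- A natural slope has an anchor. -/
theorem Nt.anchor (h : Om G C up) {P : Subgroup G} {s : G → ℝ} (k : Nt C up P s) :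
    ∃ y : X, ∀ p ∈ P, 0 < s p → Lt up y (p • y) := by
  rcases k with ⟨y, L⟩ | ⟨-, -, m, n, Z⟩
  · exact ⟨y, fun p hp k => Ax.asc_nest h (L.asc p hp k)⟩
  · exact ⟨n, fun p hp k => Ax.Skew.nest h ((Z p hp).1.1 k)⟩

/-- the cyclic group of `τ` is normalised by the vertex group -/
def Nm (v : V) (τ : G) : Prop := ∀ g : G, g • v = v → g * τ * g⁻¹ ∈ Subgroup.zpowers τ

/-- new slopes `s` at the vertex `v`, detected by an order of the vertex group -/
structure Out (T : SimpleGraph V) (C : Set (ℝ → X)) (up : X → X → Prop) (σ : V → V → G → ℝ)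
    (v : V) (s : V → G → ℝ) : Prop where
  eqv : ∀ (g : G) w, g • v = v → T.Adj v w → ∀ p ∈ Eg G v w, s (g • w) (g * p * g⁻¹) = s w p
  add : ∀ w, T.Adj v w → ∀ p ∈ Eg G v w, ∀ q ∈ Eg G v w, s w (p * q) = s w p + s w q
  pos : ∀ w, T.Adj v w → ∃ p ∈ Eg G v w, 0 < s w p
  alt : ∀ w, T.Adj v w → (∀ p ∈ Eg G v w, s w p = σ v w p) ∨
    (Zg C up (Eg G v w) (σ v w) ∧ ∀ p ∈ Eg G v w, σ v w p = 0 → s w p = 0 → p = 1)
  ord : ∃ r, Ord (stabilizer G v) (Fam T v s) r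

/-- what a Seifert vertex provides -/
structure SfOut (T : SimpleGraph V) (C : Set (ℝ → X)) (up : X → X → Prop) (σ : V → V → G → ℝ)
    (v : V) : Prop where
  zz : ∀ w, T.Adj v w → Zg C up (Eg G v w) (σ v w) →
    ∃ τ ∈ Eg G v w, τ ≠ 1 ∧ σ v w τ = 0 ∧ Nm v τ
  out : ∃ s, Out T C up σ v s

end Pool.Agent.Work.MP_3d425c_gt.To.Top
end

-- merged part: Pool.Agent.Work.MP_3d425c_gt.Bq.Icov
section
/-! Injectivity of summation passes to covers and to subobjects. -/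

namespace Pool.Agent.Work.MP_3d425c_gt.Bq
open Set Relation Pool.Agent.Work.MP_3d425c_gt.Md Pool.Agent.Work.MP_3d425c_gt.Cy
  Pool.Agent.Work.MP_3d425c_gt.Bg

variable {G X0 X1 X2 X3 : Type} [Group G] [MulAction G X0] [MulAction G X1] [MulAction G X2]
  [MulAction G X3] {T : Tri G X0 X1 X2 X3} {E : Subgroup G} {Ω : Type} [MulAction E Ω]
  {W : Et T E Ω} {χ : Ω → X1 → Ω → ℝ} {P : Subgroup E}

theorem ic_fub {A B : Type} (f : A → B → ℝ) {s : Set A} {t : Set B} (hs : s.Finite)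
    (ht : t.Finite) (h : ∀ a b, f a b ≠ 0 → a ∈ s ∧ b ∈ t) :
    ∑ᶠ a, ∑ᶠ b, f a b = ∑ᶠ b, ∑ᶠ a, f a b := by
  rw [← finsum_curry (fun p : A × B => f p.1 p.2) ((hs.prod ht).subset fun p hp => h _ _ hp),
    ← finsum_curry (fun p : B × A => f p.2 p.1)
      ((ht.prod hs).subset fun p hp => (h _ _ hp).symm)]
  exact finsum_comp_equiv (Equiv.prodComm A B) (f := fun p : B × A => f p.2 p.1)

theorem ic_ev {A B : Type} (f : A → B → ℝ) (l : List (ℝ × A))
    (h : ∀ p ∈ l, (Function.support (f p.2)).Finite) :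
    zc_ev (fun a => ∑ᶠ b, f a b) l = ∑ᶠ b, zc_ev (fun a => f a b) l ∧
      (Function.support fun b => zc_ev (fun a => f a b) l).Finite := by
  induction l with
  | nil => simp [zc_ev]
  | cons p l ih =>
    obtain ⟨i1, i2⟩ := ih fun q hq => h q (List.mem_cons_of_mem _ hq)
    have a : (Function.support fun b => p.1 * f p.2 b).Finite :=
      (h p List.mem_cons_self).subset fun _ c => right_ne_zero_of_mul c
    simp only [zc_ev_cons]
    exact ⟨by rw [finsum_add_distrib a i2, i1, mul_finsum],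
      (a.union i2).subset (Function.support_add _ _)⟩

theorem ic_lev {S : Set (Lv Ω)} (hS : SmP P S) (C : Option (Lv Ω)) :
    {r | ∃ g : E, ∃ x ∈ S, zc_sh r (g • C) = some x}.Finite := by
  obtain ⟨K, hK, hS⟩ := hS
  cases C with
  | none => exact Set.finite_empty.subset fun r ⟨_, _, _, c⟩ => nomatch c
  | some c =>
    refine (hK.image fun y => y.r - c.r).subset ?_
    rintro r ⟨g, x, hx, d⟩
    obtain ⟨y, hy, p, -, rfl⟩ := hS x hx
    have : c.r + r = y.r := congrArg Lv.r (Option.some.inj d)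
    exact ⟨y, hy, by show y.r - c.r = r; linarith⟩

theorem ic_fin (h : W.Coc χ) {z : Option (Lv Ω) → X1 → Option (Lv Ω) → ℝ}
    (hz : (W.cov h).Rq P z) {A : Option (Lv Ω)} {e : X1} {B : Option (Lv Ω)}
    (k : (W.cov h).Rp A e B) : (Function.support fun r => z (zc_sh r A) e (zc_sh r B)).Finite := by
  obtain ⟨S, hS, hs⟩ := hz.sup
  refine ((ic_lev hS A).union (ic_lev hS B)).subset fun r hr => ?_
  obtain ⟨x, hx, c | c⟩ := hs _ _ _ (zc_rp_sh h r k) hr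
  · exact Or.inl ⟨1, x, hx, by rwa [one_smul]⟩
  · exact Or.inr ⟨1, x, hx, by rwa [one_smul]⟩

omit [MulAction E Ω] in
theorem ic_dn {r : ℝ} {C : Option (Lv Ω)} {x : Lv Ω} (d : zc_sh r C = some x) :
    zc_dn C = some x.p := by
  cases C <;> cases d
  rfl

theorem ic_core (h : W.Coc χ) (hW : W.I4 P) {z : Option (Lv Ω) → X1 → Option (Lv Ω) → ℝ}
    (hz : (W.cov h).Rq P z) (z0 : ∀ A e B, (W.cov h).Rp A e B → sm1 P z A e B = 0)
    (ch : ∀ x : Ω, ∃ l : List (ℝ × (Option (Lv Ω) × X1 × Option (Lv Ω))),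
      (∀ p ∈ l, (W.cov h).Rp p.2.1 p.2.2.1 p.2.2.2) ∧ (∀ s : Option Ω → ℝ,
        zc_ev (fun τ => s (zc_dn τ.2.2) - s (zc_dn τ.1)) l = s none - s (some x)) ∧
        ∀ r, zc_ev (fun τ => z (zc_sh r τ.1) τ.2.1 (zc_sh r τ.2.2)) l = 0)
    {A : Option (Lv Ω)} {e : X1} {B : Option (Lv Ω)} (k : (W.cov h).Rp A e B) : z A e B = 0 := by
  classical
  have main : ∀ (n : ℕ) (Q : Polynomial ℝ), Q.degree < n → ∀ A e B, (W.cov h).Rp A e B →
      zc_mo Q (fun r => z (zc_sh r A) e (zc_sh r B)) = 0 := by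
    intro n
    induction n with
    | zero =>
      intro Q hQ A e B _
      have : Q = 0 := Polynomial.degree_eq_bot.1 (Nat.WithBot.lt_zero_iff.1 (by exact_mod_cast hQ))
      simp [zc_mo, this]
    | succ n ih =>
      intro Q hQ
      have ex : ∀ (a : Option Ω) (e : X1) (b : Option Ω), ∃ m : ℝ, ∀ A B, zc_dn A = a →
          zc_dn B = b → (W.cov h).Rp A e B →
          m = zc_mo Q fun r => z (zc_sh r A) e (zc_sh r B) := fun a e b => by
        by_cases c : ∃ A B, zc_dn A = a ∧ zc_dn B = b ∧ (W.cov h).Rp A e B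
        · obtain ⟨A, B, rfl, rfl, c⟩ := c
          refine ⟨zc_mo Q fun r => z (zc_sh r A) e (zc_sh r B), fun A' B' e1 e2 c' => ?_⟩
          obtain ⟨t, rfl, rfl⟩ := zc_uniq h c c' e1 e2
          simp only [zc_sh_sh]
          exact (zc_mo_shift (ic_fin h hz c) (fun Q hQ => ih Q hQ _ _ _ c) hQ t).symm
        · exact ⟨0, fun A B e1 e2 c' => (c ⟨A, B, e1, e2, c'⟩).elim⟩
      choose μ hμ using ex
      obtain ⟨S, hS, hs⟩ := hz.sup
      have hS' : SmP P (Lv.p '' S) := hS.image Lv.p fun _ _ _ => rfl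
      have rc : W.Rq P μ := by
        refine ⟨fun e => ?_, fun f a b c k2 k0 k1 => ?_, fun p hp a e b k => ?_, _, hS',
          fun a e b k c => ?_⟩
        · rw [hμ none e none none none rfl rfl trivial]
          exact (congrArg (zc_mo Q) (funext fun r => hz.zero e)).trans (zc_mo_zero Q)
        · obtain ⟨A, B, C, rfl, rfl, rfl, c2, c0, c1⟩ := zc_lift2 h k2 k0 k1
          rw [hμ _ _ _ A C rfl rfl c1, hμ _ _ _ A B rfl rfl c2, hμ _ _ _ B C rfl rfl c0,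
            ← zc_mo_add Q (ic_fin h hz c2) (ic_fin h hz c0)]
          exact congrArg (zc_mo Q) (funext fun r =>
            hz.coc f _ _ _ (zc_rp_sh h r c2) (zc_rp_sh h r c0) (zc_rp_sh h r c1))
        · obtain ⟨A, B, rfl, rfl, c⟩ := zc_lift1 h k
          rw [hμ _ _ _ A B rfl rfl c, hμ _ _ _ (p • A) (p • B) (zc_dn_smul _ _) (zc_dn_smul _ _)
            ((W.cov h).Rp_smul p c)]
          refine congrArg (zc_mo Q) (funext fun r => ?_)
          rw [zc_sh_smul, zc_sh_smul]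
          exact hz.inv p hp _ _ _ (zc_rp_sh h r c)
        · obtain ⟨A, B, rfl, rfl, d⟩ := zc_lift1 h k
          rw [hμ _ _ _ A B rfl rfl d] at c
          obtain ⟨r, hr⟩ := zc_mo_ne c
          obtain ⟨x, hx, d | d⟩ := hs _ _ _ (zc_rp_sh h r d) hr
          · exact ⟨x.p, ⟨x, hx, rfl⟩, Or.inl (ic_dn d)⟩
          · exact ⟨x.p, ⟨x, hx, rfl⟩, Or.inr (ic_dn d)⟩
      have m0 : ∀ a e b, W.Rp a e b → sm1 P μ a e b = 0 := fun a e b k => by
        obtain ⟨A, B, rfl, rfl, c⟩ := zc_lift1 h k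
        have e1 : sm1 P μ (zc_dn A) e (zc_dn B) = ∑ᶠ (q : E ⧸ P) (r : ℝ), Q.eval r *
            z (zc_sh r (q.out⁻¹ • A)) (q.out⁻¹ • e) (zc_sh r (q.out⁻¹ • B)) :=
          finsum_congr fun q => hμ _ _ _ _ _ (zc_dn_smul _ _) (zc_dn_smul _ _)
            ((W.cov h).Rp_smul _ c)
        rw [e1, ic_fub _ ((hS'.fin' W.free (zc_dn A)).union (hS'.fin' W.free (zc_dn B)))
          ((ic_lev hS A).union (ic_lev hS B)) fun q r d => ?_]
        · refine finsum_eq_zero_of_forall_eq_zero fun r => ?_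
          simp only [zc_sh_smul]
          rw [← mul_finsum]
          exact mul_eq_zero_of_right _ (z0 _ _ _ (zc_rp_sh h r c))
        · obtain ⟨x, hx, d | d⟩ := hs _ _ _ (zc_rp_sh h r ((W.cov h).Rp_smul _ c))
            (right_ne_zero_of_mul d)
          · exact ⟨Or.inl ⟨x.p, ⟨x, hx, rfl⟩, (zc_dn_smul _ _).symm.trans (ic_dn d)⟩,
              Or.inl ⟨_, x, hx, d⟩⟩
          · exact ⟨Or.inr ⟨x.p, ⟨x, hx, rfl⟩, (zc_dn_smul _ _).symm.trans (ic_dn d)⟩,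
              Or.inr ⟨_, x, hx, d⟩⟩
      obtain ⟨s, s0, -, hs⟩ := hW μ rc ⟨fun _ => 0, rfl, SmP.empty.mono fun _ c => c rfl,
        fun _ _ => rfl, fun a e b k => (m0 a e b k).trans (sub_self _).symm⟩
      have sz : ∀ a, s a = 0 := fun a => by
        cases a with
        | none => exact s0
        | some x =>
          obtain ⟨l, l1, l2, l3⟩ := ch x
          have e1 := (zc_mo_ev Q (fun (τ : Option (Lv Ω) × X1 × Option (Lv Ω)) r =>
            z (zc_sh r τ.1) τ.2.1 (zc_sh r τ.2.2)) l fun p hp => ic_fin h hz (l1 p hp)).2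
          simp only [l3, zc_mo_zero] at e1
          rw [zc_ev_congr (g := fun τ => s (zc_dn τ.2.2) - s (zc_dn τ.1)) fun p hp =>
            (hμ _ _ _ _ _ rfl rfl (l1 p hp)).symm.trans
              (hs _ _ _ ((zc_rp h _ _ _).1 (l1 p hp)).1), l2, s0] at e1
          linarith
      intro A e B c
      rw [← hμ _ _ _ A B rfl rfl c, hs _ _ _ ((zc_rp h _ _ _).1 c).1, sz, sz, sub_zero]
  have := zc_mo_sep (ic_fin h hz k) (fun Q => main (Q.natDegree + 1) Q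
    (Polynomial.degree_le_natDegree.trans_lt (by exact_mod_cast Nat.lt_succ_self _)) A e B k) 0
  simpa only [zc_sh_zero] using this

theorem icov {ω : Ω} (fc : W.Fc ω) (bd : ∃ x, W.Bd x) (hW : W.I4 P) (h : W.Coc χ) :
    (W.cov h).I4 P := by
  rintro z hz ⟨u, u0, -, -, hu⟩
  have := fc.fin
  let ρ : Ω → Ω := fun x => (Quotient.mk (MulAction.orbitRel E Ω) x).out
  have hρ : ∀ (g : E) x, ρ (g • x) = ρ x := fun g x =>
    congrArg Quotient.out (Quotient.sound (MulAction.mem_orbit x g))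
  have fρ : (range ρ).Finite :=
    (Set.finite_range (Quotient.out : Ob E Ω → Ω)).subset (by rintro _ ⟨x, rfl⟩; exact ⟨_, rfl⟩)
  have ex : ∀ x, ∃ g : E, g • ρ x = x := fun x =>
    (MulAction.orbitRel E Ω).symm (Quotient.mk_out (s := MulAction.orbitRel E Ω) x)
  choose γ hγ using ex
  have uq : ∀ (g g' : E) (x : Ω), g • x = g' • x → g = g' := fun g g' x c =>
    (inv_mul_eq_one.1 (W.free (g'⁻¹ * g) x (by rw [mul_smul, c, inv_smul_smul]))).symm
  have γm : ∀ (g : E) x, γ (g • x) = g * γ x := fun g x =>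
    uq _ _ (ρ x) (by rw [mul_smul, hγ, ← hρ g x, hγ])
  choose c c1 c2 using fun x => zc_chain h fc bd x 0
  let s : Option (Lv Ω) → ℝ := fun A => A.elim 0 fun y =>
    -zc_ev (fun τ => z (zc_sh y.r (γ y.p • τ.1)) (γ y.p • τ.2.1) (zc_sh y.r (γ y.p • τ.2.2)))
      (c (ρ y.p))
  have s0 : s none = 0 := rfl
  have s1 : ∀ y : Lv Ω, s (some y) = -zc_ev (fun τ => z (zc_sh y.r (γ y.p • τ.1)) (γ y.p • τ.2.1)
      (zc_sh y.r (γ y.p • τ.2.2))) (c (ρ y.p)) := fun _ => rfl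
  have val : ∀ (g : E) (r : ℝ) x, ∀ p ∈ c x,
      (W.cov h).Rp (zc_sh r (g • p.2.1)) (g • p.2.2.1) (zc_sh r (g • p.2.2.2)) := fun g r x p hp =>
    zc_rp_sh h r ((W.cov h).Rp_smul g (c1 x p hp))
  have si : ∀ a₀ ∈ P, ∀ A, s (a₀ • A) = s A := fun a₀ ha A => by
    cases A with
    | none => rfl
    | some y =>
      refine (s1 (a₀ • y)).trans ?_
      rw [s1, Lv.smul_p, Lv.smul_r, hρ, γm]
      refine congrArg Neg.neg (zc_ev_congr fun p hp => ?_)
      simp only [mul_smul, zc_sh_smul _ a₀]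
      exact hz.inv a₀ ha _ _ _ (val _ _ _ p hp)
  have sm : SmP P {x | s (some x) ≠ 0} := by
    obtain ⟨S, ⟨K, hK, hS⟩, hs⟩ := hz.sup
    refine ⟨⋃ x ∈ range ρ, ⋃ p ∈ {p | p ∈ c x}, ⋃ A ∈ ({p.2.1, p.2.2.2} : Set (Option (Lv Ω))),
      ⋃ k ∈ K, {y | ∃ (u : Lv Ω) (g : E), A = some u ∧ g • u.p = k.p ∧ y = ⟨g • x, k.r - u.r⟩},
      fρ.biUnion fun x _ => (List.finite_toSet _).biUnion fun p _ =>
        (Set.toFinite _).biUnion fun A _ => hK.biUnion fun k _ => Set.Subsingleton.finite ?_,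
      fun y hy => ?_⟩
    · rintro _ ⟨u, g, rfl, e1, rfl⟩ _ ⟨u', g', e2, e3, rfl⟩
      cases e2
      rw [uq g g' _ (e1.trans e3.symm)]
    · obtain ⟨p, hp, d⟩ := zc_ev_ne (neg_ne_zero.1 hy)
      obtain ⟨x, hx, d⟩ := hs _ _ _ (val _ _ _ p hp) d
      obtain ⟨k, hk, a, ha, rfl⟩ := hS x hx
      have one : ∀ A ∈ ({p.2.1, p.2.2.2} : Set (Option (Lv Ω))),
          zc_sh y.r (γ y.p • A) = some (a • k) → ∃ y' ∈ ⋃ x ∈ range ρ, ⋃ p ∈ {p | p ∈ c x},
            ⋃ A ∈ ({p.2.1, p.2.2.2} : Set (Option (Lv Ω))), ⋃ k ∈ K, {y : Lv Ω | ∃ (u : Lv Ω) (g : E),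
              A = some u ∧ g • u.p = k.p ∧ y = ⟨g • x, k.r - u.r⟩}, ∃ a ∈ P, y = a • y' := by
        intro A hA d
        cases A with
        | none => exact nomatch d
        | some u =>
          have e1 : γ y.p • u.p = a • k.p := congrArg Lv.p (Option.some.inj d)
          have e2 : u.r + y.r = k.r := congrArg Lv.r (Option.some.inj d)
          refine ⟨⟨(a⁻¹ * γ y.p) • ρ y.p, k.r - u.r⟩, mem_biUnion ⟨y.p, rfl⟩
            (mem_biUnion hp (mem_biUnion hA (mem_biUnion hk ⟨u, _, rfl, ?_, rfl⟩))), a, ha,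
            Lv.ext ?_ ?_⟩
          · rw [mul_smul, e1, inv_smul_smul]
          · rw [Lv.smul_p, mul_smul, smul_inv_smul, hγ]
          · show y.r = k.r - u.r
            linarith
      rcases d with d | d
      · exact one _ (Or.inl rfl) d
      · exact one _ (Or.inr rfl) d
  have rd := (W.cov h).rq_d si s0 sm
  have rc := hz.lin rd 1 (-1)
  have van : ∀ (x : Ω) (r : ℝ), zc_ev (fun τ => 1 * z (zc_sh r (γ x • τ.1)) (γ x • τ.2.1)
      (zc_sh r (γ x • τ.2.2)) + -1 * (s (zc_sh r (γ x • τ.2.2)) - s (zc_sh r (γ x • τ.1))))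
      (c (ρ x)) = 0 := fun x r => by
    simp only [one_mul, neg_one_mul, ← sub_eq_add_neg]
    rw [zc_ev_sub]
    have e1 := s1 ⟨x, r⟩
    have e2 : _ = s none - s (some ⟨γ x • ρ x, 0 + r⟩) := c2 (ρ x) fun A => s (zc_sh r (γ x • A))
    rw [hγ, zero_add, s0, e1, zero_sub, neg_neg] at e2
    exact sub_eq_zero.2 e2.symm
  have d1 : ∀ A e B, (W.cov h).Rp A e B → sm1 P (fun A e B => 1 * z A e B + -1 * (s B - s A))
      A e B = (u B - sm0 P s B) - (u A - sm0 P s A) := fun A e B k => by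
    rw [hz.sm1_lin rd 1 (-1) k, hu _ _ _ k, (W.cov h).sm1_d s0 sm]
    ring
  have uz : ∀ A, u A - sm0 P s A = 0 := fun A => by
    cases A with
    | none => rw [u0, sm0_none s0, sub_zero]
    | some y =>
      have e2 : _ = (u none - sm0 P s none) - (u (some ⟨γ y.p • ρ y.p, 0 + y.r⟩) -
          sm0 P s (some ⟨γ y.p • ρ y.p, 0 + y.r⟩)) :=
        c2 (ρ y.p) fun A => u (zc_sh y.r (γ y.p • A)) - sm0 P s (zc_sh y.r (γ y.p • A))
      rw [hγ, zero_add, u0, sm0_none s0, ← zc_ev_congr (f := fun τ =>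
        sm1 P (fun A e B => 1 * z A e B + -1 * (s B - s A)) (zc_sh y.r (γ y.p • τ.1))
          (γ y.p • τ.2.1) (zc_sh y.r (γ y.p • τ.2.2)))
        fun p hp => d1 _ _ _ (val _ _ _ p hp)] at e2
      unfold sm1 at e2
      rw [(ic_ev _ _ fun p hp => rc.fin (val (γ y.p) y.r _ p hp)).1,
        finsum_eq_zero_of_forall_eq_zero fun q => ?_] at e2
      · show u (some ⟨y.p, y.r⟩) - sm0 P s (some ⟨y.p, y.r⟩) = 0
        unfold sm0 at e2 ⊢
        linarith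
      · have := van (q.out⁻¹ • y.p) y.r
        rw [hρ, γm] at this
        simpa only [mul_smul, zc_sh_smul] using this
  refine ⟨s, s0, sm, fun A e B k => ?_⟩
  have := ic_core h hW rc (fun A e B k => by rw [d1 _ _ _ k, uz, uz, sub_zero]) (fun x => ?_) k
  · linarith
  refine ⟨(c (ρ x)).map fun p => (p.1, γ x • p.2), List.forall_mem_map.2 fun p hp =>
    (W.cov h).Rp_smul _ (c1 _ p hp), fun u => ?_, fun r => ?_⟩
  · rw [zc_ev_map _ fun τ => γ x • τ]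
    refine (c2 (ρ x) fun A => u (zc_dn (γ x • A))).trans ?_
    show u none - u (some (γ x • ρ x)) = _
    rw [hγ]
  · rw [zc_ev_map _ fun τ => γ x • τ]
    exact van x r

theorem ires (W : Et T E Ω) (F : SubMulAction E Ω) (hW : W.I4 P) (hF : Hole W F) :
    (W.res F).I4 P := by
  rintro z hz ⟨u, u0, us, ui, hu⟩
  have hR : W.Rq P fun a e b => z (zr_r F a) e (zr_r F b) := by
    refine ⟨hz.zero, fun f a b c h1 h2 h3 => hz.coc f _ _ _ (zr_rp W F h1) (zr_rp W F h2)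
      (zr_rp W F h3), fun p hp a e b h => ?_, ?_⟩
    · rw [zr_smul, zr_smul]
      exact hz.inv p hp _ _ _ (zr_rp W F h)
    · obtain ⟨S, hS, h⟩ := hz.sup
      refine ⟨Subtype.val '' S, hS.image _ fun _ _ _ => rfl, fun a e b k k' => ?_⟩
      obtain ⟨x, hx, q⟩ := h _ _ _ (zr_rp W F k) k'
      exact ⟨x.1, ⟨x, hx, rfl⟩, q.imp zr_some zr_some⟩
  obtain ⟨s, h0, hs, h⟩ := hW _ hR ⟨fun a => u (zr_r F a), u0,
    (us.image Subtype.val fun _ _ _ => rfl).mono fun x hx => by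
      by_cases k : x ∈ F
      · exact ⟨⟨x, k⟩, show u (some ⟨x, k⟩) ≠ 0 from zr_in k ▸ hx, rfl⟩
      · exact (hx (show u (zr_r F (some x)) = 0 from zr_out k ▸ u0)).elim,
    fun g a => by beta_reduce; rw [zr_smul, ui], fun a e b k => by
      rw [← hu _ _ _ (zr_rp W F k)]
      exact finsum_congr fun q => by beta_reduce; rw [zr_smul, zr_smul]⟩
  have off : ∀ x, x ∉ F → s (some x) = 0 := fun x hx => hF x hx s h0
    (let ⟨K, a, b⟩ := hs; ⟨K, a, fun y hy => let ⟨k, hk, p, _, c⟩ := b y hy; ⟨k, hk, p, c⟩⟩)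
    fun a e b k q => by
      have k' := h a e b k
      rw [zr_eq_none fun y hy => (q y hy).1, zr_eq_none fun y hy => (q y hy).2, hz.zero] at k'
      linarith
  have key : ∀ a, s ((zr_r F a).map Subtype.val) = s a := fun a => by
    cases a with
    | none => rfl
    | some y =>
      by_cases k : y ∈ F
      · rw [zr_in k]
        rfl
      · rw [zr_out k, off y k]
        exact h0
  refine ⟨fun o => s (o.map Subtype.val), h0, ?_, fun a e b k => ?_⟩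
  · obtain ⟨K, hK, hS⟩ := hs
    refine ⟨Subtype.val ⁻¹' K, hK.preimage Subtype.val_injective.injOn, fun x hx => ?_⟩
    obtain ⟨k, hk, p, hp, q⟩ := hS x.1 hx
    exact ⟨⟨k, (F.smul_mem_iff' p).1 (q ▸ x.2)⟩, hk, p, hp, Subtype.ext q⟩
  · obtain ⟨a', b', k', rfl, rfl⟩ := zr_lift W F k
    beta_reduce
    rw [key, key]
    exact h a' e b' k'

/-- injectivity of summation passes through the tower -/
theorem adm_i4 (h0 : (base T E).I4 P) : Adm T E fun _ _ W => W.I4 P :=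
  ⟨h0, fun _ _ W F h k => ires W F h k, fun _ _ _ _ _ h fc bd hW => icov fc bd hW h⟩

end Pool.Agent.Work.MP_3d425c_gt.Bq
end

-- merged part: Pool.Agent.Work.MP_3d425c_gt.Bq.Zb
section
/-! The invariant of the tower for the complex itself, for torsion-free groups. -/

namespace Pool.Agent.Work.MP_3d425c_gt.Bq
open Set Relation Pool.Agent.Work.MP_3d425c_gt.Md Pool.Agent.Work.MP_3d425c_gt.Cy
  Pool.Agent.Work.MP_3d425c_gt.Bg

variable {G X0 X1 X2 X3 : Type} [Group G] [MulAction G X0] [MulAction G X1] [MulAction G X2]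
  [MulAction G X3] {T : Tri G X0 X1 X2 X3}

theorem wang_tf (hM : Mfd T) (tf : ∀ a : G, a ≠ 1 → ¬ IsOfFinOrder a) (a : G) {z : X1 → ℝ}
    (hc : ∀ f, z (T.d2 f 1) = z (T.d2 f 2) + z (T.d2 f 0)) (hz : ∀ e, z (a • e) = z e)
    (hs : Sm a (Function.support z)) :
    ∃ s : X0 → ℝ, Sm a (Function.support s) ∧ ∀ e, z e = s (T.d1 e 0) - s (T.d1 e 1) := by
  rcases eq_or_ne a 1 with rfl | ha
  · obtain ⟨K, hK, hs⟩ := hs
    obtain ⟨s, h1, h2⟩ := hM.hc1 z (hK.subset fun e he => by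
      obtain ⟨k, hk, n, rfl⟩ := hs e he
      rwa [one_zpow, one_smul]) hc
    exact ⟨s, ⟨_, h1, fun x hx => ⟨x, hx, 0, by rw [zpow_zero, one_smul]⟩⟩, h2⟩
  obtain ⟨s, h1, h2⟩ := wang1 hM (a := a) (z := z) (fun n k => by
      by_contra hn
      exact tf a ha (isOfFinOrder_iff_zpow_eq_one.2 ⟨n, hn, k⟩))
    (fun f => sub_eq_zero.2 (hc f).symm) ⟨hz, hs⟩
  exact ⟨s, h1.sm, h2⟩

theorem zbase_tf (hM : Mfd T) (tf : ∀ a : G, a ≠ 1 → ¬ IsOfFinOrder a) (E : Subgroup G) :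
    (base T E).Zp := by
  intro a z hz
  have ok : ∀ e, (base T E).Rp (some (T.d1 e 1)) e (some (T.d1 e 0)) := fun e => ⟨rfl, rfl⟩
  obtain ⟨s, h1, h2⟩ := wang_tf hM tf (a : G)
    (z := fun e => z (some (T.d1 e 1)) e (some (T.d1 e 0)))
    (fun f => by
      have := hz.coc f _ _ (some (T.d1 (T.d2 f 0) 0)) (ok (T.d2 f 2)) ⟨(sb T f).symm, rfl⟩
        ⟨(sa T f).symm, (sc' T f).symm⟩
      show z _ _ _ = z _ _ _ + z _ _ _
      rw [sa, sc', sb]
      exact this)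
    (fun e => by
      show z _ _ _ = z _ _ _
      rw [T.e1, T.e1]
      exact hz.inv _ _ _ (ok e))
    (by
      obtain ⟨S, ⟨K, hK, hS⟩, k⟩ := hz.sup
      refine ⟨_, hK.biUnion fun v _ => (hM.edges_finite v 1).union (hM.edges_finite v 0),
        fun e he => ?_⟩
      obtain ⟨x, hx, k⟩ := k _ _ _ (ok e) he
      obtain ⟨v, hv, n, ev⟩ := hS x hx
      have ev' : x = (a : G) ^ n • v := ev
      refine ⟨((a : G) ^ n)⁻¹ • e, mem_biUnion hv (k.imp (fun k => ?_) fun k => ?_), n,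
        (smul_inv_smul _ _).symm⟩ <;>
      · show T.d1 _ _ = v
        rw [T.e1, Option.some.inj k, ev', inv_smul_smul])
  refine ⟨fun o => o.elim 0 s, rfl, h1, fun p e q h => ?_⟩
  cases p <;> cases q
  · exact (hz.zero e).trans (sub_self _).symm
  · exact absurd ⟨rfl, h.1⟩ (h.2 _)
  · exact absurd ⟨h.1, rfl⟩ (h.2 _)
  · obtain ⟨rfl, rfl⟩ := h
    exact h2 e

end Pool.Agent.Work.MP_3d425c_gt.Bq
end

-- merged part: Pool.Agent.Work.MP_3d425c_gt.Bq.Top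
section
/-! The top of the tower in the presence of walls. -/

namespace Pool.Agent.Work.MP_3d425c_gt.Bq
open Set Relation Pool.Agent.Work.MP_3d425c_gt.Md Pool.Agent.Work.MP_3d425c_gt.Cy
  Pool.Agent.Work.MP_3d425c_gt.Bg

variable {G X0 X1 X2 X3 : Type} [Group G] [MulAction G X0] [MulAction G X1] [MulAction G X2]
  [MulAction G X3] {T : Tri G X0 X1 X2 X3} {E : Subgroup G} {Ω : Type} [MulAction E Ω]

/-- independent relative classes of the quotient -/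
def IndR (W : Et T E Ω) {I : Type} [Fintype I] (y : I → Option Ω → X1 → Option Ω → ℝ) : Prop :=
  ∀ (c : I → ℝ) (s : Option Ω → ℝ), s none = 0 → (∀ (g : E) a, s (g • a) = s a) →
    (∀ a e b, W.Rp a e b → ∑ i, c i * y i a e b = s b - s a) → c = 0

/-- duality and the count of cells -/
def Dual (T : Tri G X0 X1 X2 X3) (E : Subgroup G) : Prop :=
  ∀ (Ω : Type) [MulAction E Ω] (W : Et T E Ω) (ω : Ω) (n : ℕ), W.Fc ω → (∃ x, W.Bd x) → TopN W n →
    ∀ (I : Type) [Fintype I] (y : I → Option Ω → X1 → Option Ω → ℝ), (∀ i, W.Rq ⊤ (y i)) →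
      IndR W y → 2 * (Fintype.card I + 1) + oc E (W.C2 1 2) ≤
        2 * n + oc E (W.C1 1 1) + oc E (W.C3 1 3)

/-- the summed walls are independent -/
def IndW (T : Tri G X0 X1 X2 X3) {I : Type} [Fintype I] (P : I → Subgroup E) (z : I → X1 → ℝ) :
    Prop := ∀ (c : I → ℝ) (s : X0 → ℝ), (∀ (g : E) x, s (g • x) = s x) →
  SmP (⊤ : Subgroup E) (Function.support s) →
    (∀ e, ∑ i, c i * sm0 (P i) (z i) e = s (T.d1 e 0) - s (T.d1 e 1)) → c = 0

/-- the wall spans the classes that are finite modulo `P` -/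
def OneW (T : Tri G X0 X1 X2 X3) (P : Subgroup E) (z : X1 → ℝ) : Prop :=
  ∀ y, Wz T P y → ∃ (c : ℝ) (s : X0 → ℝ), (∀ p ∈ P, ∀ x, s (p • x) = s x) ∧
    SmP P (Function.support s) ∧ ∀ e, y e = c * z e + (s (T.d1 e 0) - s (T.d1 e 1))

theorem to_comm {D A : Type} [Group D] [MulAction D A] (hD : Sf.Csa D)
    (fr : ∀ (g : D) (a : A), g • a = a → g = 1) (x : A) {P : Subgroup D}
    (ab : ∀ a ∈ P, ∀ b ∈ P, a * b = b * a) (h : SmP P (univ : Set A)) (g k : D) :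
    g * k = k * g := by
  obtain ⟨K, hK, h⟩ := h
  have pw : ∀ g : D, ∃ n : ℕ, n ≠ 0 ∧ g ^ n ∈ P := fun g => by
    choose c hc p hp e using fun n : ℕ => h (g ^ n • x) trivial
    obtain ⟨m, n, l, q⟩ := hK.exists_lt_map_eq_of_forall_mem hc
    obtain ⟨d, rfl⟩ := Nat.exists_eq_add_of_lt l
    have e1 : (g ^ (m + d + 1))⁻¹ * (p (m + d + 1) * (p m)⁻¹ * g ^ m) = 1 := fr _ x (by
      rw [mul_smul, mul_smul, mul_smul, e m, inv_smul_smul, q, ← e, inv_smul_smul])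
    refine ⟨d + 1, d.succ_ne_zero, ?_⟩
    have e2 : g ^ (d + 1) = p (m + d + 1) * (p m)⁻¹ := by
      refine mul_right_cancel (b := g ^ m) ?_
      rw [← inv_mul_eq_one.1 e1, ← pow_add]
      congr 1
      omega
    exact e2 ▸ P.mul_mem (hp _) (P.inv_mem (hp _))
  by_cases h1 : g = 1
  · rw [h1, one_mul, mul_one]
  obtain ⟨n, n0, hn⟩ := pw g
  obtain ⟨l, l0, hl⟩ := pw (k * g ^ n * k⁻¹)
  rw [conj_pow] at hl
  have ne : (g ^ n) ^ l ≠ 1 := fun e => hD.tf g h1 (isOfFinOrder_iff_pow_eq_one.2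
    ⟨n * l, Nat.pos_of_ne_zero (mul_ne_zero n0 l0), by rwa [pow_mul]⟩)
  exact hD.ct _ g k ne (((Commute.refl g).pow_right n).pow_right l)
    (hD.mn _ k ne (ab _ (P.pow_mem hn l) _ hl))

theorem to_sm0 {P : Subgroup E} {y z : X1 → ℝ} {c : ℝ} {s : X0 → ℝ}
    (hz : SmP P (Function.support z)) (hs : SmP P (Function.support s))
    (h : ∀ e, y e = c * z e + (s (T.d1 e 0) - s (T.d1 e 1))) (e : X1) :
    sm0 P y e = c * sm0 P z e + (sm0 P s (T.d1 e 0) - sm0 P s (T.d1 e 1)) := by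
  have e1 : ∀ (g : E) e i, T.d1 (g • e) i = g • T.d1 e i := fun g e i => T.e1 g e i
  have f0 := hs.fin (base T E).free (T.d1 e 0)
  have f1 := hs.fin (base T E).free (T.d1 e 1)
  unfold sm0
  rw [mul_finsum, ← finsum_sub_distrib f0 f1, ← finsum_add_distrib
    ((hz.fin (ib_free T) e).subset fun _ d => right_ne_zero_of_mul d)
    ((f0.union f1).subset (Function.support_sub _ _))]
  exact finsum_congr fun q => by rw [h, e1, e1]

theorem to_inv {P : Subgroup E} {s : X0 → ℝ} (si : ∀ p ∈ P, ∀ x, s (p • x) = s x) (g : E)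
    (x : X0) : sm0 P s (g • x) = sm0 P s x := sm0_smul (fun p hp g => si p hp (g • x)) g

theorem to_sup {P : Subgroup E} {s : X0 → ℝ} (hs : SmP P (Function.support s)) :
    SmP (⊤ : Subgroup E) (Function.support (sm0 P s)) := hs.sat.mono fun _ k => sm0_ne k

theorem to_sub {s t : X0 → ℝ} (hs : SmP (⊤ : Subgroup E) (Function.support s))
    (ht : SmP (⊤ : Subgroup E) (Function.support t)) :
    SmP (⊤ : Subgroup E) (Function.support fun x => s x - t x) :=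
  (hs.union ht).mono (Function.support_sub _ _)

theorem to_sum {I : Type} [Fintype I] {s : I → X0 → ℝ}
    (hs : ∀ i, SmP (⊤ : Subgroup E) (Function.support (s i))) :
    SmP (⊤ : Subgroup E) (Function.support fun x => ∑ i, s i x) := by
  choose K a b using hs
  refine ⟨⋃ i, K i, finite_iUnion a, fun x hx => ?_⟩
  obtain ⟨i, -, hi⟩ := Finset.exists_ne_zero_of_sum_ne_zero hx
  obtain ⟨k, hk, c⟩ := b i x hi
  exact ⟨k, mem_iUnion.2 ⟨i, hk⟩, c⟩

variable {I : Type} [Fintype I] {P : I → Subgroup E} {z : I → X1 → ℝ}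

theorem to_base (hM : Mfd T) (hz : ∀ i, Wz T (P i) (z i)) (ind : IndW T P z) (i : I)
    (one : OneW T (P i) (z i)) : (base T E).I4 (P i) := by
  classical
  rintro w hw ⟨u, -, us, ui, hu⟩
  obtain ⟨y, hy⟩ : ∃ y : X1 → ℝ, ∀ e, y e = w (some (T.d1 e 1)) e (some (T.d1 e 0)) :=
    ⟨_, fun _ => rfl⟩
  obtain ⟨y1, y2, y3⟩ := ib_edge hM hw hy
  obtain ⟨c, s, si, ss, es⟩ := one y ⟨y1, y2, y3⟩
  have e1 : ∀ (g : E) e i, T.d1 (g • e) i = g • T.d1 e i := fun g e i => T.e1 g e i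
  have c0 : c = 0 := by
    have := ind (Pi.single i c) (fun v => u (some v) - sm0 (P i) s v)
      (fun g v => congrArg₂ (· - ·) (ui g (some v)) (to_inv si g v)) (to_sub us (to_sup ss))
      fun e => by
        have h1 : sm0 (P i) y e = u (some (T.d1 e 0)) - u (some (T.d1 e 1)) :=
          (finsum_congr fun q => by rw [hy, e1, e1]; rfl).trans (hu _ _ _ (ib_ok T E e))
        have h2 := to_sm0 (hz i).sup ss es e
        rw [Finset.sum_eq_single i (fun j _ k => by rw [Pi.single_eq_of_ne k, zero_mul])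
          fun k => (k (Finset.mem_univ i)).elim, Pi.single_eq_same]
        linarith
    simpa using congrFun this i
  refine ⟨fun o => o.elim 0 s, rfl, ss, fun p e q h => ?_⟩
  cases p <;> cases q
  · exact (hw.zero e).trans (sub_self _).symm
  · exact absurd ⟨rfl, h.1⟩ (h.2 _)
  · exact absurd ⟨h.1, rfl⟩ (h.2 _)
  · obtain ⟨rfl, rfl⟩ := h
    show _ = s _ - s _
    rw [← hy, es, c0, zero_mul, zero_add]

section Stage
variable {W : Et T E Ω} [Finite (Ob E Ω)] {y : I → Option Ω → X1 → Option Ω → ℝ}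

omit [Finite (Ob E Ω)] in
theorem to_pf0 {s : Option Ω → ℝ} (si : ∀ (g : E) a, s (g • a) = s a) (g : E) (x : X0) :
    pf0 W s (g • x) = pf0 W s x := by
  rw [pf0_smul]
  simp only [si]

theorem to_pf (hy : ∀ i, W.Rq (P i) (y i)) (hp : ∀ i e, pf1 W (y i) e = z i e) (c : I → ℝ)
    (e : X1) : pf1 W (fun a e b => ∑ i, c i * sm1 (P i) (y i) a e b) e =
      ∑ i, c i * sm0 (P i) (z i) e := by
  rw [pf1_sum]
  refine Finset.sum_congr rfl fun i _ => ?_
  rw [pf1_sm1 (hy i), funext (hp i)]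

theorem to_ind (ind : IndW T P z) (hy : ∀ i, W.Rq (P i) (y i))
    (hp : ∀ i e, pf1 W (y i) e = z i e) : IndR W fun i => sm1 (P i) (y i) := fun c s s0 si h =>
  ind c (pf0 W s) (to_pf0 si) (pf0_sm s) fun e => by
    rw [← to_pf hy hp, pf1_congr h, pf1_d s0]

/-- if no class can be added to the lifted walls, the push-forward is injective -/
theorem to_inj (ind : IndW T P z) (hy : ∀ i, W.Rq (P i) (y i))
    (hp : ∀ i e, pf1 W (y i) e = z i e) {w : Option Ω → X1 → Option Ω → ℝ}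
    (mx : ¬ IndR W fun o : Option I => o.elim w fun i => sm1 (P i) (y i)) {t : X0 → ℝ}
    (ti : ∀ (g : E) x, t (g • x) = t x) (ts : SmP (⊤ : Subgroup E) (Function.support t))
    (ht : ∀ e, pf1 W w e = t (T.d1 e 0) - t (T.d1 e 1)) :
    ∃ s : Option Ω → ℝ, s none = 0 ∧ SmP (⊤ : Subgroup E) {x | s (some x) ≠ 0} ∧
      (∀ (g : E) a, s (g • a) = s a) ∧ ∀ a e b, W.Rp a e b → w a e b = s b - s a := by
  unfold IndR at mx
  push Not at mx
  obtain ⟨c, s, s0, si, h, c0⟩ := mx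
  simp only [Fintype.sum_option, Option.elim] at h
  have z0 : (fun i => c (some i)) = 0 := by
    refine ind _ (fun x => pf0 W s x - c none * t x)
      (fun g x => by rw [to_pf0 si, ti]) (to_sub (pf0_sm s)
        (ts.mono fun _ d => right_ne_zero_of_mul d)) fun e => ?_
    have a1 := (pf1_congr h e).trans (pf1_d s0 e)
    rw [pf1_add, to_pf hy hp] at a1
    have a2 : pf1 W (fun a e b => c none * w a e b) e = c none * pf1 W w e :=
      (mul_finsum_mem _ _).symm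
    rw [a2, ht] at a1
    linarith
  have z1 : ∀ i, c (some i) = 0 := congrFun z0
  have cn : c none ≠ 0 := fun k => c0 (funext fun o => by cases o; exacts [k, z1 _])
  refine ⟨fun a => s a / c none, by simp [s0], smP_top _, fun g a => by simp only [si],
    fun a e b k => ?_⟩
  have := h a e b k
  simp only [z1, zero_mul, Finset.sum_const_zero, add_zero] at this
  rw [← sub_div, ← this, mul_div_cancel_left₀ _ cn]

end Stage

theorem to_stage (hM : Mfd T) (hE : ¬ E.FiniteIndex) (hfg : E.FG)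
    {J : ∀ (Ω : Type) [MulAction E Ω], Et T E Ω → Prop} (hJ : Adm T E J)
    (hz : ∀ i, Wz T (P i) (z i)) {n : ℕ} (κ : Fin n → E)
    (h0 : ∀ φ : E →* Multiplicative ℝ, (∀ i, φ (κ i) = 1) → φ = 1) :
    ∃ (Ω : Type) (_ : MulAction E Ω) (W : Et T E Ω) (ω : Ω), W.Fc ω ∧ J Ω W ∧ TopN W n ∧
      ∃ y : I → Option Ω → X1 → Option Ω → ℝ, (∀ i, W.Rq (P i) (y i)) ∧
        ∀ i e, pf1 W (y i) e = z i e := by
  obtain ⟨x⟩ := T.ne
  let v : X0 := T.d1 (T.d2 (T.d3 x 0) 0) 0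
  choose p hp using fun g : E => hM.conn v (g • v)
  obtain ⟨S₀, ρ₀, fin, h⟩ := lift hM hz v p hp
  obtain ⟨Ω, _, W, ω, fc, j, a, b, c, t⟩ := top_stage hM hE hfg hJ κ h0 v p hp fin ρ₀
  choose y y1 y2 using h Ω W ω a b c
  exact ⟨Ω, inferInstance, W, ω, fc, j, t, y, y1, y2⟩

/-- at least as many independent walls as characters -/
theorem topA (hM : Mfd T) (tf : ∀ a : G, a ≠ 1 → ¬ IsOfFinOrder a) (hG : Sf.Csa E)
    (hE : ¬ E.FiniteIndex) (hfg : E.FG) (hd : Dual T E) (hz : ∀ i, Wz T (P i) (z i))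
    (ind : IndW T P z) {n : ℕ} (κ : Fin n → E)
    (h0 : ∀ φ : E →* Multiplicative ℝ, (∀ i, φ (κ i) = 1) → φ = 1) (hn : n ≤ Fintype.card I)
    (g k : E) : g * k = k * g := by
  obtain ⟨Ω, _, W, ω, fc, j, t, y, y1, y2⟩ :=
    to_stage hM hE hfg (adm_zp hM (zbase_tf hM tf E)) hz κ h0
  have := fc.fin
  have bd := hM.exists_bd hE fc
  have h1 := hd Ω W ω n fc bd t I _ (fun i => (y1 i).sum) (to_ind ind y1 y2)
  rcases ufam hM hG fc bd j with ⟨a, h⟩ | ⟨h, -⟩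
  · refine to_comm hG W.free ω ?_ (smP_zpowers.2 h) g k
    rintro _ ⟨m, rfl⟩ _ ⟨l, rfl⟩
    exact zpow_mul_comm a m l
  · omega

/-- all walls, at most one character more -/
theorem topB (hM : Mfd T) (tf : ∀ a : G, a ≠ 1 → ¬ IsOfFinOrder a) (hG : Sf.Csa E)
    (hE : ¬ E.FiniteIndex) (hfg : E.FG) (hd : Dual T E) (hz : ∀ i, Wz T (P i) (z i))
    (ind : IndW T P z) (one : ∀ i, OneW T (P i) (z i))
    (per : ∀ A : Subgroup E, (∀ x ∈ A, ∀ y ∈ A, x * y = y * x) →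
      (∀ a : E, ∃ x ∈ A, x ∉ Subgroup.zpowers a) → ∃ i g, ∀ x ∈ A, g * x * g⁻¹ ∈ P i)
    (mal : ∀ i j x g, x ≠ 1 → x ∈ P i → g * x * g⁻¹ ∈ P j → i = j ∧ g ∈ P i)
    (ab : ∀ i, ∀ a ∈ P i, ∀ b ∈ P i, a * b = b * a) {n : ℕ} (κ : Fin n → E)
    (h0 : ∀ φ : E →* Multiplicative ℝ, (∀ i, φ (κ i) = 1) → φ = 1)
    (hn : n ≤ Fintype.card I + 1) (g k : E) : g * k = k * g := by
  obtain ⟨Ω, _, W, ω, fc, ⟨j, j4⟩, t, y, y1, y2⟩ := to_stage hM hE hfg
    ((adm_zp hM (zbase_tf hM tf E)).and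
      (Adm.all fun i => adm_i4 (to_base hM hz ind i (one i)))) hz κ h0
  have := fc.fin
  have bd := hM.exists_bd hE fc
  have h1 := hd Ω W ω n fc bd t I _ (fun i => (y1 i).sum) (to_ind ind y1 y2)
  rcases ufam hM hG fc bd j with ⟨a, h⟩ | ⟨h, h2⟩
  · refine to_comm hG W.free ω ?_ (smP_zpowers.2 h) g k
    rintro _ ⟨m, rfl⟩ _ ⟨l, rfl⟩
    exact zpow_mul_comm a m l
  obtain ⟨u, u1, u2, u3⟩ := h2 (by omega) I P per mal
  choose c s si ss es using fun i => one i _ (pf1_wz hM (u1 i))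
  have k1 : ∀ i e, pf1 W (sm1 (P i) (u i)) e = c i * sm0 (P i) (z i) e +
      (sm0 (P i) (s i) (T.d1 e 0) - sm0 (P i) (s i) (T.d1 e 1)) := fun i e =>
    (pf1_sm1 (u1 i) e).trans (to_sm0 (hz i).sup (ss i) (es i) e)
  have c0 : c = 0 := by
    refine ind c (fun x => pf0 W fi_p x - ∑ i, sm0 (P i) (s i) x) (fun g x => ?_)
      (to_sub (pf0_sm _) (to_sum fun i => to_sup (ss i))) fun e => ?_
    · rw [to_pf0 fun g a => by cases a <;> rfl]
      simp only [fun i => to_inv (si i) g x]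
    · have a1 := (pf1_congr u2 e).trans (pf1_d (s := fi_p) (if_neg nofun) e)
      have a2 := pf1_sum (W := W) (fun _ => 1) (fun i => sm1 (P i) (u i)) e
      simp only [one_mul, k1, Finset.sum_add_distrib, Finset.sum_sub_distrib] at a2
      linarith
  obtain ⟨i, hi⟩ := u3 fun i => j4 i _ (u1 i) (to_inj ind y1 y2 (fun m => by
      have := hd Ω W ω n fc bd t (Option I) _ (fun o => by
        cases o
        exacts [(u1 i).sum, (y1 _).sum]) m
      rw [Fintype.card_option] at this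
      omega) (to_inv (si i)) (to_sup (ss i)) fun e => by
    rw [k1, c0, Pi.zero_apply, zero_mul, zero_add])
  exact to_comm hG W.free ω (ab i) hi g k

end Pool.Agent.Work.MP_3d425c_gt.Bq
end

-- merged part: Pool.Agent.Work.MP_3d425c_gt.Sv.Line
section
/-! A piece with a normal cyclic subgroup, lines on all tori and no compatible character is
horizontal. -/

namespace Pool.Agent.Work.MP_3d425c_gt.Sv
open Set MulAction Subgroup Pool.Agent.Work.MP_3d425c_gt.Md Pool.Agent.Work.MP_3d425c_gt.Cy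
  Pool.Agent.Work.MP_3d425c_gt.Bg Pool.Agent.Work.MP_3d425c_gt.Gl Pool.Agent.Work.MP_3d425c_gt.Bq
  Pool.Agent.Work.MP_3d425c_gt.To Pool.Agent.Work.MP_3d425c_gt.To.Ax
  Pool.Agent.Work.MP_3d425c_gt.To.Top

variable {G X0 X1 X2 X3 V : Type} [Group G] [MulAction G X0] [MulAction G X1] [MulAction G X2]
  [MulAction G X3] [MulAction G V] {T : Tri G X0 X1 X2 X3} {Γ : SimpleGraph V}
  {X : Type*} [MulAction G X] {C : Set (ℝ → X)} {up : X → X → Prop} {v : V} {h : G}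

theorem ln_one (hM : Mfd T) (tf : ∀ a : G, a ≠ 1 → ¬ IsOfFinOrder a) {a : G} {A : Set X0}
    (hA : ∀ x, a • x ∈ A ↔ x ∈ A) (hs : Sm a {e | ¬ (T.d1 e 0 ∈ A ↔ T.d1 e 1 ∈ A)}) :
    Sm a A ∨ Sm a Aᶜ := by
  obtain ⟨K, hK, k⟩ := hs
  obtain ⟨s, ⟨K', hK', k'⟩, e⟩ := wang_tf hM tf a (z := wz T A) (wz_coc A)
    (fun e => by
      unfold wz
      rw [T.e1, T.e1, wi_congr (hA _), wi_congr (hA _)]) ⟨K, hK, fun e he => k e (wz_ne he)⟩
  have ct := const_of hM (t := fun x => wi A x - s x) fun x => by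
    have := e x
    unfold wz at this
    linarith
  by_contra n
  rw [not_or] at n
  have p : ∀ S : Set X0, ¬ Sm a S → ∃ x ∈ S, s x = 0 := fun S hS => by
    by_contra m
    exact hS ⟨K', hK', fun x hx => k' x fun q => m ⟨x, hx, q⟩⟩
  obtain ⟨x, hx, ex⟩ := p _ n.1
  obtain ⟨y, hy, ey⟩ := p _ n.2
  have := ct x y
  simp only [wi_pos hx, wi_neg hy, ex, ey] at this
  norm_num at this

/-- the edges that do not lie behind one neighbour of `v` are finite modulo the vertex group -/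
theorem ln_out (hM : Mfd T) (hT : Γ.IsTree)
    (act : ∀ (g : G) p q, Γ.Adj p q → Γ.Adj (g • p) (g • q)) (v : V) {f : X0 → V}
    (hf : ∀ (g : G) x, f (g • x) = g • f x) :
    ∃ K : Set X1, K.Finite ∧ ∀ e, (∃ w, Γ.Adj v w ∧ side Γ v w (f (T.d1 e 0)) ∧
      side Γ v w (f (T.d1 e 1))) ∨ ∃ k ∈ K, ∃ g : G, g • v = v ∧ e = g • k := by
  have := hM.fin1
  have ch : ∀ u : V, ∃ γ : G, (∃ g : G, g • u = v) → γ • u = v := fun u => by
    by_cases a : ∃ g : G, g • u = v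
    · exact a.imp fun _ k _ => k
    · exact ⟨1, fun k => absurd k a⟩
  choose γ hγ using ch
  let S : X1 → Set V := fun e => insert (f (T.d1 e 0)) (Prod.fst ''
    {c : V × V | ¬ (side Γ c.1 c.2 (f (T.d1 e 0)) ↔ side Γ c.1 c.2 (f (T.d1 e 1)))})
  refine ⟨⋃ o : Ob G X1, (fun u => γ u • Quotient.out o) '' S (Quotient.out o),
    finite_iUnion fun o => (((sep_fin hT _ _).image _).insert _).image _, fun e => ?_⟩
  refine or_iff_not_imp_left.2 fun he => ?_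
  obtain ⟨g, hg⟩ := ob_eq_iff.1 (ob_out (ob G e)).symm
  have a := hγ (g⁻¹ • v) ⟨g, smul_inv_smul _ _⟩
  have i : ∀ j, f (T.d1 (Quotient.out (ob G e)) j) = g⁻¹ • f (T.d1 e j) := fun j => by
    rw [eq_inv_smul_iff, ← hf, ← T.e1, hg]
  refine ⟨_, mem_iUnion.2 ⟨ob G e, g⁻¹ • v, ?_, rfl⟩, g * (γ (g⁻¹ • v))⁻¹, ?_, ?_⟩
  · rcases side_ex hT v (f (T.d1 e 0)) with q | ⟨w, hw, q⟩
    · exact .inl (by rw [i, q])
    · refine .inr ⟨(g⁻¹ • v, g⁻¹ • w), fun k => he ⟨w, hw, q, ?_⟩, rfl⟩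
      rw [i, i, side_iff act, side_iff act] at k
      exact k.1 q
  · rw [mul_smul, ← eq_inv_smul_iff, inv_smul_eq_iff]
    exact a.symm
  · rw [mul_smul, inv_smul_smul, hg]

theorem ln_big (T : Tri G X0 X1 X2 X3) {a b z : G} {A : Set X0} {x : X0} (nd : ¬ Dep a b)
    (tf : ∀ a : G, a ≠ 1 → ¬ IsOfFinOrder a)
    (ha : ∀ n : ℤ, a ^ n • x ∈ A) (hb : ∀ n : ℤ, b ^ n • x ∈ A) : ¬ Sm z A := by
  rintro ⟨K, hK, k⟩
  have key : ∀ a : G, (∀ n : ℤ, a ^ n • x ∈ A) → ∃ p q : ℤ, p ≠ 0 ∧ a ^ p = z ^ q := fun a ha => by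
    choose y hy i he using fun n : ℤ => k _ (ha n)
    obtain ⟨m, -, n, -, hmn, e⟩ := infinite_univ.exists_ne_map_eq_of_mapsTo (fun n _ => hy n) hK
    have e1 := T.free ((a ^ n)⁻¹ * (z ^ i n * (z ^ i m)⁻¹) * a ^ m) x (by
      rw [mul_smul, mul_smul, mul_smul, he m, inv_smul_smul, e, ← he n, inv_smul_smul])
    rw [mul_assoc, inv_mul_eq_one] at e1
    exact ⟨n - m, i n - i m, sub_ne_zero.2 hmn.symm, by
      rw [zpow_sub, e1, mul_inv_cancel_right, zpow_sub]⟩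
  obtain ⟨p, q, p0, e⟩ := key a ha
  obtain ⟨p', q', p0', e'⟩ := key b hb
  have q0 : q ≠ 0 := fun k => tf a (ne_one_of_not_dep nd).1
    (isOfFinOrder_iff_zpow_eq_one.2 ⟨p, p0, by rw [e, k, zpow_zero]⟩)
  exact nd ⟨p * q', p' * q, fun k => mul_ne_zero p0' q0 k.2, by
    rw [zpow_mul, zpow_mul, e, e', ← zpow_mul, ← zpow_mul, mul_comm]⟩

/-- A point with cyclic stabiliser and a locally finite orbit does not separate two tori. -/
theorem ln_sep (hM : Mfd T) (tf : ∀ a : G, a ≠ 1 → ¬ IsOfFinOrder a) (J : Jsj G Γ)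
    (prop : ∀ w, Γ.Adj v w → ∃ g : G, g • w = w ∧ g • v ≠ v)
    (ui : ∀ (g : G) a b, up (g • a) (g • b) ↔ up a b) {x o : X} {Y : V → X} {O : Set X} {z : G}
    (hz : ∀ a : G, a • x = x → a ∈ zpowers z) (ho : ∀ g : G, g • v = v → g • o ∈ O)
    (hY : ∀ w, Γ.Adj v w → Y w ∈ O)
    (eqv : ∀ g : G, g • v = v → ∀ w, Γ.Adj v w → ∀ a : G, a • v = v →
      (up (a • x) (Y (g • w)) ↔ up (a • x) (g • Y w)))
    (fin : ∀ p ∈ O, ∀ q ∈ O,
      {y | (∃ a : G, a • v = v ∧ a • x = y) ∧ ¬ (up y p ↔ up y q)}.Finite)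
    {w w' : V} (hw : Γ.Adj v w) (hw' : Γ.Adj v w') (k : up x (Y w)) : up x (Y w') := by
  classical
  obtain ⟨γ, hγ⟩ : ∃ γ : X0 → G, ∀ (g : G) y, γ (g • y) = g * γ y := by
    obtain ⟨f, hf, -⟩ := exists_equiv (V := G) T 1
    exact ⟨f, hf⟩
  have hf : ∀ (g : G) y, γ (g • y) • v = g • γ y • v := fun g y => by rw [hγ, mul_smul]
  have adj : ∀ (g : G) w, g • v = v → Γ.Adj v w → Γ.Adj v (g • w) := fun g w e k => by
    simpa only [e] using J.act g _ _ k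
  obtain ⟨φ, p1, p2⟩ : ∃ φ : X0 → X, (∀ y w, Γ.Adj v w → side Γ v w (γ y • v) → φ y = Y w) ∧
      ∀ y, γ y • v = v → φ y = γ y • o := by
    refine ⟨fun y => if k : ∃ w, Γ.Adj v w ∧ side Γ v w (γ y • v) then Y k.choose else γ y • o,
      fun y w a s => ?_, fun y e => dif_neg fun ⟨w, a, s⟩ => side_not J.tree a (by rwa [e] at s)⟩
    have k : ∃ w, Γ.Adj v w ∧ side Γ v w (γ y • v) := ⟨w, a, s⟩
    simp only [dif_pos k]
    rw [side_uniq J.tree k.choose_spec.1 a k.choose_spec.2 s]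
  have pO : ∀ y, φ y ∈ O := fun y => by
    rcases side_ex J.tree v (γ y • v) with q | ⟨u, hu, q⟩
    · exact p2 y q ▸ ho _ q
    · exact p1 y u hu q ▸ hY u hu
  have pe : ∀ g : G, g • v = v → ∀ a : G, a • v = v → ∀ y,
      up (g • a • x) (φ (g • y)) ↔ up (a • x) (φ y) := fun g hg a ha y => by
    rcases side_ex J.tree v (γ y • v) with q | ⟨u, hu, q⟩
    · rw [p2 y q, p2 (g • y) (by rw [hf, q, hg]), hγ, mul_smul, ui]
    · have s := side_smul J.act g q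
      rw [hg, ← hf] at s
      rw [p1 y u hu q, p1 _ _ (adj g u hg hu) s, ← mul_smul,
        eqv g hg u hu _ (by rw [mul_smul, ha, hg]), mul_smul, ui]
  have : IsCyclic (stabilizer G v ⊓ stabilizer G x : Subgroup G) :=
    isCyclic_of_le (H' := zpowers z) fun a ha => hz a ha.2
  obtain ⟨⟨τ, t1, t2⟩, hτ⟩ := this.exists_zpow_surjective
  have t1 : τ • v = v := t1
  have t2 : τ • x = x := t2
  let B : Set X0 := {y | up x (φ y)}
  have iB : ∀ y, τ • y ∈ B ↔ y ∈ B := fun y => by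
    have := pe τ t1 1 (one_smul _ _) y
    rwa [one_smul, t2] at this
  have big : ∀ u, Γ.Adj v u → ∀ A : Set X0, (∀ y, side Γ v u (γ y • v) → y ∈ A) → ¬ Sm τ A := by
    intro u hu A hA
    obtain ⟨g, e, n⟩ := prop u hu
    have s : side Γ v u (g • v) := Relation.ReflTransGen.single
      ⟨by simpa only [e] using J.act g _ _ hu.symm, fun k => by
        rcases Sym2.eq_iff.1 k with k | k
        exacts [hu.ne k.1.symm, n k.2]⟩
    obtain ⟨y₀⟩ := T.ne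
    obtain ⟨a, b, -, nd, eg⟩ := J.edge v u hu
    have m : ∀ p ∈ Eg G v u, p • (g * (γ (T.d1 (T.d2 (T.d3 y₀ 0) 0) 0))⁻¹) •
        T.d1 (T.d2 (T.d3 y₀ 0) 0) 0 ∈ A := fun p hp => hA _ (by
      have := side_smul J.act p s
      rwa [hp.1, hp.2, ← inv_mul_cancel_right g (γ (T.d1 (T.d2 (T.d3 y₀ 0) 0) 0)), mul_smul,
        ← hf, ← hf] at this)
    exact ln_big T nd tf (fun n => m _ (zpow_mem (eg ▸ subset_closure (by simp)) n))
      fun n => m _ (zpow_mem (eg ▸ subset_closure (by simp)) n)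
  by_contra k'
  obtain ⟨K, hK, hc⟩ := ln_out hM J.tree J.act v (f := fun y => γ y • v) hf
  have ch : ∀ y : X, ∃ c : G, (∃ a : G, a • v = v ∧ a • x = y) → c • v = v ∧ c • x = y :=
    fun y => by
      by_cases a : ∃ a : G, a • v = v ∧ a • x = y
      · exact a.imp fun _ k _ => k
      · exact ⟨1, fun k => absurd k a⟩
  choose c hc' using ch
  refine (ln_one hM tf iB ⟨⋃ e ∈ K, (fun y => (c y)⁻¹ • e) '' {y | (∃ a : G, a • v = v ∧
    a • x = y) ∧ ¬ (up y (φ (T.d1 e 0)) ↔ up y (φ (T.d1 e 1)))},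
    hK.biUnion fun e _ => (fin _ (pO _) _ (pO _)).image _, fun e he => ?_⟩).elim
    (big w hw _ fun y s => show up x (φ y) from p1 y w hw s ▸ k)
    (big w' hw' _ fun y s => show ¬ up x (φ y) from p1 y w' hw' s ▸ k')
  rcases hc e with ⟨u, hu, a, b⟩ | ⟨e, m, g, hg, rfl⟩
  · exact absurd (show up x (φ _) ↔ up x (φ _) by rw [p1 _ u hu a, p1 _ u hu b]) he
  have gi : g⁻¹ • v = v := inv_smul_eq_iff.2 hg.symm
  obtain ⟨c1, c2⟩ := hc' (g⁻¹ • x) ⟨_, gi, rfl⟩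
  obtain ⟨n, hn⟩ := hτ ⟨g * c (g⁻¹ • x), show _ • v = v by rw [mul_smul, c1, hg],
    show _ • x = x by rw [mul_smul, c2, smul_inv_smul]⟩
  have hn : τ ^ n = g * c (g⁻¹ • x) := congrArg Subtype.val hn
  refine ⟨_, mem_biUnion m ⟨g⁻¹ • x, ⟨⟨_, gi, rfl⟩, fun q => he ?_⟩, rfl⟩, n, ?_⟩
  · have i := pe g hg _ gi
    rw [smul_inv_smul] at i
    show up x (φ _) ↔ up x (φ _)
    rwa [T.e1, T.e1, i, i]
  · rw [hn, mul_smul, smul_inv_smul]

theorem ln_sl {P Q : Subgroup G} {s : G → ℝ} (sl : Sl Q s) (k : P ≤ Q) : Sl P s :=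
  ⟨fun p hp q hq => sl.comm p (k hp) q (k hq), fun p hp q hq => sl.add p (k hp) q (k hq)⟩

theorem ln_line {P Q : Subgroup G} {s : G → ℝ} {y : X} (L : Ph.Line C Q s y) (k : P ≤ Q) :
    Ph.Line C P s y := ⟨fun p hp => L.cmp p (k hp), fun p hp => L.asc p (k hp)⟩

theorem ln_pair {P : Subgroup G} {a b : G} (ha : a ∈ P) (hb : b ∈ P) : closure {a, b} ≤ P :=
  (closure_le _).2 (insert_subset ha (singleton_subset_iff.2 hb))

/-- two characters of a lattice with a common zero are proportional -/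
theorem ln_prop (J : Jsj G Γ) {w : V} (hw : Γ.Adj v w) {s t : G → ℝ} (ss : Sl (Eg G v w) s)
    (st : Sl (Eg G v w) t) (h1 : h ≠ 1) (m : h ∈ Eg G v w) (s0 : s h = 0) (t0 : t h = 0) :
    ∀ p ∈ Eg G v w, ∀ q ∈ Eg G v w, s p * t q = s q * t p := by
  obtain ⟨a, b, c, -, e⟩ := J.edge v w hw
  have ha : a ∈ Eg G v w := e ▸ subset_closure (by simp)
  have hb : b ∈ Eg G v w := e ▸ subset_closure (by simp)
  have f : ∀ r : G → ℝ, Sl (Eg G v w) r → ∀ i j : ℤ, r (a ^ i * b ^ j) = i * r a + j * r b :=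
    fun r k i j => by rw [k.add _ (zpow_mem ha i) _ (zpow_mem hb j), k.zpow ha, k.zpow hb]
  obtain ⟨i, j, rfl⟩ := (mem_pair c).1 (e ▸ m)
  rw [f s ss] at s0
  rw [f t st] at t0
  have d : s a * t b = s b * t a := by
    by_cases i0 : i = 0
    · have j0 : (j : ℝ) ≠ 0 := fun k => h1 (by
        rw [i0, show j = 0 by exact_mod_cast k, zpow_zero, zpow_zero, one_mul])
      exact mul_left_cancel₀ j0 (by linear_combination s a * t0 - t a * s0)
    · have i0 : (i : ℝ) ≠ 0 := by exact_mod_cast i0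
      exact mul_left_cancel₀ i0 (by linear_combination t b * s0 - s b * t0)
  intro p hp q hq
  obtain ⟨p1, p2, rfl⟩ := (mem_pair c).1 (e ▸ hp)
  obtain ⟨q1, q2, rfl⟩ := (mem_pair c).1 (e ▸ hq)
  rw [f s ss, f s ss, f t st, f t st]
  linear_combination (p1 * q2 - p2 * q1 : ℝ) * d

theorem ln_ind (tf : ∀ a : G, a ≠ 1 → ¬ IsOfFinOrder a) (J : Jsj G Γ) {w : V} (hw : Γ.Adj v w)
    (h1 : h ≠ 1) : ∃ x ∈ Eg G v w, ¬ Dep h x := by
  obtain ⟨a, b, -, nd, e⟩ := J.edge v w hw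
  by_contra k
  push Not at k
  have f : ∀ x, x ≠ 1 → Dep h x → ∃ m n : ℤ, m ≠ 0 ∧ n ≠ 0 ∧ h ^ m = x ^ n :=
    fun x x1 ⟨m, n, a, q⟩ => ⟨m, n, fun z => tf x x1 (isOfFinOrder_iff_zpow_eq_one.2
      ⟨n, fun y => a ⟨z, y⟩, by rw [← q, z, zpow_zero]⟩), fun z => tf h h1
      (isOfFinOrder_iff_zpow_eq_one.2 ⟨m, fun y => a ⟨y, z⟩, by rw [q, z, zpow_zero]⟩), q⟩
  obtain ⟨m, n, -, n0, q⟩ := f a (ne_one_of_not_dep nd).1 (k a (e ▸ subset_closure (by simp)))
  obtain ⟨m', n', m0, -, q'⟩ := f b (ne_one_of_not_dep nd).2 (k b (e ▸ subset_closure (by simp)))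
  exact nd ⟨n * m', n' * m, fun z => mul_ne_zero n0 m0 z.1, by
    rw [zpow_mul, zpow_mul, ← q, ← q', ← zpow_mul, ← zpow_mul, mul_comm]⟩

/-- `Ph.ord_hull` when the fibre need not be primitive in the tori -/
theorem ln_hull (H : Om G C up) (rk : Ph.Rk G X) {A : Subgroup G} (hh : h ∈ A)
    (lo : ∃ t, Lin A t ∧ Inv A A t) {o : X} (ho : Asc C o (h • o))
    (e : ∀ g ∈ A, Ph.Hull C h o (g • o)) {F : Set (Subgroup G × (G → ℝ))}
    (hF : ∀ f ∈ F, f.1 ≤ A ∧ h ∈ f.1 ∧ (∃ x ∈ f.1, ¬ Dep h x) ∧ Sl f.1 f.2 ∧ f.2 h ≠ 0 ∧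
      ∃ y, Ph.Line C f.1 f.2 y) : ∃ r, Ord A F r := by
  obtain ⟨t, l, i⟩ := lo
  have cm : ∀ a ∈ A, ∀ p ∈ A, Cmp C (a • o) (p • a • o) := fun a ha p hp => by
    rw [← mul_smul]
    exact Ph.geo_tot H ho (e a ha) (e _ (mul_mem hp ha))
  refine ord_of_action (t := t) (Asc C) o (fun f hf => (hF f hf).1) (fun a _ => asc_irr H _)
    (fun _ _ _ _ _ _ => asc_trans H) (fun a ha b hb n => ?_) (fun g _ _ _ _ _ => asc_smul H g)
    (l.mono fun _ k => k.1) (fun g hg a ha b hb => i g hg.1 a ha.1 b hb.1)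
    fun f hf a ha => .inl fun p hp sp => ?_
  · exact (Ph.geo_tot H ho (e a ha) (e b hb)).imp (fun k => k.resolve_left n)
      fun k => k.resolve_left n.symm
  · obtain ⟨le, mh, ⟨x, hx, nd⟩, sl, hs, y, L⟩ := hF f hf
    obtain ⟨k, a1, -, a3⟩ := Ph.geo_uni H rk (sl.comm h mh x hx) nd (ln_sl sl (ln_pair mh hx))
      (ln_line L (ln_pair mh hx)) hs (cm a ha h hh) (cm a ha x (le hx))
    have n := Ph.geo_up H sl L (k := k) (a1.elim (fun q => q ▸ mh) fun q => q ▸ inv_mem mh) a3 hp sp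
    exact ((cm a ha p (le hp)).resolve_right n).resolve_left fun q => n (.inl q.symm)

/-- The data at a vertex with a normal cyclic subgroup that lies in all edge groups. -/
structure Fib (G : Type) {V : Type} [Group G] [MulAction G V] (Γ : SimpleGraph V) (v : V) (h : G) :
    Prop where
  ne : h ≠ 1
  nm : ∀ g : G, g • v = v → g * h * g⁻¹ = h ∨ g * h * g⁻¹ = h⁻¹
  mem : ∀ w, Γ.Adj v w → h ∈ Eg G v w
  one : ∃ w, Γ.Adj v w
  prop : ∀ w, Γ.Adj v w → ∃ g : G, g • w = w ∧ g • v ≠ v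
  fg : (stabilizer G v).FG
  fin : ∃ K : Set V, K.Finite ∧ ∀ w, Γ.Adj v w → ∃ u ∈ K, ∃ g : G, g • v = v ∧ g • u = w

variable {σ : V → V → G → ℝ}

/-- No fixed point of the fibre lies between the lines of the tori. -/
theorem nofix (hM : Mfd T) (tf : ∀ a : G, a ≠ 1 → ¬ IsOfFinOrder a) (J : Jsj G Γ)
    (H : Om G C up) (cy : Cv.Cyc G X) (S : Slo Γ σ) (s : Fib G Γ v h) {Y : V → X}
    (L : ∀ w, Γ.Adj v w → Ph.Line C (Eg G v w) (σ v w) (Y w))
    (E : ∀ g : G, g • v = v → ∀ w, Γ.Adj v w → ∃ p ∈ Eg G v (g • w), p • Y (g • w) = g • Y w)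
    (nc : ∀ χ : G → ℝ, (∀ a ∈ stabilizer G v, ∀ b ∈ stabilizer G v, χ (a * b) = χ a + χ b) →
      (∀ w, Γ.Adj v w → ∀ p ∈ Eg G v w, ∀ q ∈ Eg G v w, χ p * σ v w q = χ q * σ v w p) →
      ∀ g ∈ stabilizer G v, χ g = 0)
    {y : X} (hy : h • y = y) {a b : G} (ha : a • v = v) (hb : b • v = v) {i j : V}
    (hi : Γ.Adj v i) (hj : Γ.Adj v j) : ¬ QSp up (a • Y i) (b • Y j) y := by
  intro hq
  have rk : Ph.Rk G X := dep_of_cyc cy
  have inf := tf h s.ne
  have adj : ∀ (g : G) w, g • v = v → Γ.Adj v w → Γ.Adj v (g • w) := fun g w e k => by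
    simpa only [e] using J.act g _ _ k
  have iv : ∀ {g : G}, g • v = v → g⁻¹ • v = v := fun e => inv_smul_eq_iff.2 e.symm
  have sl : ∀ w, Γ.Adj v w → Sl (Eg G v w) (σ v w) := fun u a => ⟨J.comm a, S.add v u a⟩
  obtain ⟨K, hK, k⟩ := s.fin
  obtain ⟨Z, z1, z2⟩ := (Subgroup.fg_iff _).1 s.fg
  have hv : h • v = v := let ⟨w, a⟩ := s.one; (s.mem w a).1
  have rep : ∀ w, Γ.Adj v w → ∃ g : G, g • v = v ∧ ∃ z ∈ Y '' (K ∩ Γ.neighborSet v),
      g • z = Y w := fun w a => by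
    obtain ⟨u, hu, g, g1, rfl⟩ := k w a
    have au : Γ.Adj v u := by simpa using adj _ _ (iv g1) a
    obtain ⟨p, p1, p2⟩ := E g g1 u au
    exact ⟨p⁻¹ * g, by rw [mul_smul, g1, iv p1.1], _, ⟨u, ⟨hu, au⟩, rfl⟩, by
      rw [mul_smul, ← p2, inv_smul_smul]⟩
  obtain ⟨x, x1, ⟨a', ha', b', hb', _, ⟨i', hi', rfl⟩, _, ⟨j', hj', rfl⟩, x2⟩, x3, x4⟩ :=
    H.qm_sub (V := stabilizer G v) hv s.nm
      (fun x g _ k1 k2 => Sf.kp_dep inf (rk x g h k2 k1)) z2 z1.symm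
      (B := Y '' (K ∩ Γ.neighborSet v)) ((hK.inter_of_left _).image Y)
      (by rintro _ ⟨i, hi, rfl⟩; exact (L i hi.2).cmp h (s.mem i hi.2))
      (fun χ ad k0 => by
        have cs : ∀ w, Γ.Adj v w → Sl (Eg G v w) χ := fun w a =>
          ⟨J.comm a, fun p hp q hq => ad p hp.1 q hq.1⟩
        have k1 : ∀ w, Γ.Adj v w → ∀ p ∈ Eg G v w,
            (∀ y : X, h • y = y → (up y (Y w) ↔ up y (p • Y w))) → χ p = 0 := fun w a p hp e => by
          obtain ⟨g, g1, z, hz, q⟩ := rep w a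
          have m : g⁻¹ * p * g ∈ stabilizer G v := mul_mem (mul_mem (iv g1) hp.1) g1
          have := k0 _ m ⟨z, hz, fun y hy => by
            rw [← H.ups_iff g y, q, e _ (Om.qf_inv (s.nm _ (iv g1)) hy), ← H.ups_iff g y,
              mul_smul, mul_smul, smul_inv_smul, q]⟩
          have e1 := ad g g1 _ m
          have e2 := ad p hp.1 g g1
          rw [← mul_assoc, mul_inv_cancel_left] at e1
          linarith
        have h0 : χ h = 0 := let ⟨w, a⟩ := s.one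
          k1 w a h (s.mem w a) fun y hy => by rw [← H.ups_iff h y, hy]
        refine nc χ ad fun w a => ?_
        by_cases z : σ v w h = 0
        · exact ln_prop J a (cs w a) (sl w a) s.ne (s.mem w a) h0 z
        have all : ∀ p ∈ Eg G v w, χ p = 0 := fun p hp => by
          by_cases d : Ph.Dp h p
          · obtain ⟨m, m0, l, e⟩ := Sf.kp_dep inf (Dep.symm d)
            have := (cs w a).pow hp m
            rw [← e, (cs w a).zpow (s.mem w a), h0, mul_zero] at this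
            exact (mul_eq_zero.1 this.symm).resolve_left (by exact_mod_cast m0.ne')
          · have le := ln_pair (s.mem w a) hp
            have el := Ph.ell_line H rk (J.comm a h (s.mem w a) p hp) d (ln_sl (sl w a) le)
              (ln_line (L w a) le) z
            exact k1 w a p hp fun y hy => Sf.kp_eqv H (fun q => (el.2 y hy).1 (asc_nest H q))
              (fun q => (el.2 y hy).2 (asc_nest H q)) ((L w a).cmp p hp)
        exact fun p hp q hq => by rw [all p hp, all q hq, zero_mul, zero_mul])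
      (by
        obtain ⟨g, g1, p, hp, e⟩ := rep i hi
        obtain ⟨g', g1', q, hq', e'⟩ := rep j hj
        exact ⟨y, hy, a * g, mul_mem ha g1, b * g', mul_mem hb g1', p, hp, q, hq', by
          rwa [mul_smul, mul_smul, e, e']⟩)
  have f2 : ∀ c : G, c • v = v → ∀ g : G, g • v = v →
      ¬ Asc C (c • x) (g • c • x) ∧ ¬ Asc C (g • c • x) (c • x) := by
    have f : ∀ c : G, c • v = v → ∀ g : G, g • v = v → ¬ Asc C (c • x) (g • c • x) :=
      fun c hc g hg q => x4 (c⁻¹ * g * c) (mul_mem (mul_mem (iv hc) hg) hc)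
        (by simpa only [mul_smul, inv_smul_smul] using asc_smul H c⁻¹ q)
    exact fun c hc g hg => ⟨f c hc g hg, fun q => f c hc g⁻¹ (iv hg)
      (by simpa only [inv_smul_smul] using asc_smul H g⁻¹ q)⟩
  have eqv : ∀ g : G, g • v = v → ∀ w, Γ.Adj v w → ∀ c : G, c • v = v →
      (up (c • x) (Y (g • w)) ↔ up (c • x) (g • Y w)) := fun g hg w a c hc => by
    obtain ⟨p, p1, p2⟩ := E g hg w a
    rw [← p2]
    exact Sf.kp_eqv H (f2 c hc p p1.1).1 (f2 c hc p p1.1).2 ((L _ (adj g w hg a)).cmp p p1)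
  have e1 := fun g hg w a => one_smul G x ▸ eqv g hg w a 1 (one_smul _ _)
  rcases x2.1 with q | q
  · obtain ⟨z, hz⟩ := cy x
    refine x2.2 ((e1 a' ha' i' hi'.2).1 (ln_sep hM tf J s.prop H.ups_iff (o := Y i')
      (O := {p | ∃ g : G, g • v = v ∧ ∃ z ∈ Y '' (K ∩ Γ.neighborSet v), g • z = p}) hz
      (fun g hg => ⟨g, hg, _, ⟨i', hi', rfl⟩, rfl⟩) rep eqv ?_ (adj _ _ hb' hj'.2)
      (adj _ _ ha' hi'.2) ((e1 b' hb' j' hj'.2).2 q)))
    rintro _ ⟨a, ha, p, hp, rfl⟩ _ ⟨b, hb, q, hq, rfl⟩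
    refine ((x3 a ha b hb _ (.inr hp) _ (.inr hq)).union
      (x3 b hb a ha _ (.inr hq) _ (.inr hp))).subset ?_
    rintro y ⟨m, n⟩
    by_cases u : up y (a • p)
    · exact .inr ⟨m, .inl u, fun u' => n (iff_of_true u u')⟩
    · exact .inl ⟨m, .inl (by_contra fun u' => n (iff_of_false u u')), u⟩
  · have e : b'⁻¹ • x = Y j' := by rw [← q, inv_smul_smul]
    obtain ⟨c, c1, c2⟩ := ln_ind tf J hj'.2 s.ne
    obtain ⟨n1, n2⟩ := e ▸ f2 _ (iv hb') c c1.1
    refine c2 (rk (Y j') h c (e ▸ Om.qf_inv (s.nm _ (iv (iv hb'))) x1) ?_)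
    rcases (L j' hj'.2).cmp c c1 with (r | r) | r | r
    exacts [r.symm, absurd r n1, r, absurd r n2]

/-- All tori are lines and no character is compatible with the slopes: the piece is
horizontal. -/
theorem ord_line (hM : Mfd T) (tf : ∀ a : G, a ≠ 1 → ¬ IsOfFinOrder a) (J : Jsj G Γ)
    (H : Om G C up) (cy : Cv.Cyc G X) (S : Slo Γ σ) (s : Fib G Γ v h)
    (lo : ∃ t, Lin (stabilizer G v) t ∧ Inv (stabilizer G v) (stabilizer G v) t)
    (L : ∀ w, Γ.Adj v w → ∃ y, Ph.Line C (Eg G v w) (σ v w) y)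
    (nc : ∀ χ : G → ℝ, (∀ a ∈ stabilizer G v, ∀ b ∈ stabilizer G v, χ (a * b) = χ a + χ b) →
      (∀ w, Γ.Adj v w → ∀ p ∈ Eg G v w, ∀ q ∈ Eg G v w, χ p * σ v w q = χ q * σ v w p) →
      ∀ g ∈ stabilizer G v, χ g = 0) :
    ∃ r, Ord (stabilizer G v) (Fam Γ v (σ v)) r := by
  have rk : Ph.Rk G X := dep_of_cyc cy
  have adj : ∀ (g : G) w, g • v = v → Γ.Adj v w → Γ.Adj v (g • w) := fun g w e k => by
    simpa only [e] using J.act g _ _ k
  have iv : ∀ {g : G}, g • v = v → g⁻¹ • v = v := fun e => inv_smul_eq_iff.2 e.symm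
  have sl : ∀ w, Γ.Adj v w → Sl (Eg G v w) (σ v w) := fun u a => ⟨J.comm a, S.add v u a⟩
  obtain ⟨w₀, a₀⟩ := s.one
  have hv : h • v = v := (s.mem w₀ a₀).1
  obtain ⟨Y, L, E⟩ : ∃ Y : V → X, (∀ w, Γ.Adj v w → Ph.Line C (Eg G v w) (σ v w) (Y w)) ∧
      ∀ g : G, g • v = v → ∀ w, Γ.Adj v w →
        ∃ p ∈ Eg G v (g • w), p • Y (g • w) = g • Y w := by
    have : Nonempty X := ⟨(L w₀ a₀).choose⟩
    choose! y hy using L
    obtain ⟨ρ, r1, r2⟩ : ∃ ρ : V → V, (∀ w, ∃ g : G, g • v = v ∧ g • w = ρ w) ∧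
        ∀ g : G, g • v = v → ∀ w, ρ (g • w) = ρ w :=
      ⟨fun w => (Quotient.mk'' w : orbitRel.Quotient (stabilizer G v) V).out,
        fun w => let ⟨g, e⟩ := Quotient.mk_out' (s₁ := orbitRel (stabilizer G v) V) w
          ⟨g, g.2, e⟩,
        fun g hg w => congrArg Quotient.out (Quotient.sound' ⟨⟨g, hg⟩, rfl⟩)⟩
    choose γ g1 g2 using r1
    refine ⟨fun w => (γ w)⁻¹ • y (ρ w), fun w a => line_tr H (γ w) (fun p hp => ?_)
      (fun p hp => ?_) (hy _ (g2 w ▸ adj _ _ (g1 w) a)), fun g hg w a =>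
      ⟨g * (γ w)⁻¹ * γ (g • w), ⟨?_, ?_⟩, ?_⟩⟩
    · have := (conj_Eg (γ w)).2 hp
      rwa [g1, g2] at this
    · rw [← S.eqv (γ w) v w a p hp, g1, g2]
    · show _ • v = v
      rw [mul_smul, mul_smul, g1, iv (g1 w), hg]
    · show _ • g • w = g • w
      rw [mul_smul, mul_smul, g2, r2 g hg, ← g2, inv_smul_smul]
    · simp only [mul_smul, smul_inv_smul, r2 g hg]
  let O : Set X := {z | ∃ g : G, g • v = v ∧ ∃ i, Γ.Adj v i ∧ g • Y i = z}
  have nf : ∀ w : X, h • w = w → ∀ p ∈ O, ∀ q ∈ O, ¬ QSp up p q w := by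
    rintro w hw _ ⟨a, ha, i, hi, rfl⟩ _ ⟨b, hb, j, hj, rfl⟩
    exact nofix hM tf J H cy S s L E nc hw ha hb hi hj
  have iO : ∀ g : G, g • v = v → ∀ z ∈ O, g • z ∈ O := by
    rintro g hg _ ⟨a, ha, i, hi, rfl⟩
    exact ⟨g * a, by rw [mul_smul, ha, hg], i, hi, mul_smul _ _ _⟩
  have cO : ∀ z ∈ O, Cmp C z (h • z) := by
    rintro _ ⟨a, ha, i, hi, rfl⟩
    exact H.qf_cmp (s.nm _ (iv ha)) ((L i hi).cmp h (s.mem i hi))
  have o1 : ∀ i, Γ.Adj v i → Y i ∈ O := fun i a => ⟨1, one_smul _ _, i, a, one_smul _ _⟩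
  have dir : ∀ o ∈ O, ∃ f, (f = h ∨ f = h⁻¹) ∧ Asc C o (f • o) ∧ ∀ p ∈ O, Ph.Hull C f o p := by
    intro o ho
    have ne : h • o ≠ o := fun e => nf o e o ho o ho ⟨.inr rfl, H.irr o⟩
    have hO : ∀ z ∈ O, h • z ∈ O ∧ h⁻¹ • z ∈ O := fun z hz => ⟨iO _ hv z hz, iO _ (iv hv) z hz⟩
    rcases cO o ho with (r | r) | r | r
    · exact absurd r.symm ne
    · exact ⟨h, .inl rfl, r, fun p hp => Sf.kp_hull H hO cO nf ho hp r⟩
    · exact absurd r ne
    · have r' : Asc C o (h⁻¹ • o) := by simpa only [inv_smul_smul] using asc_smul H h⁻¹ r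
      refine ⟨h⁻¹, .inr rfl, r', fun p hp => Sf.kp_hull H (fun z hz => ?_) (fun z hz => ?_)
        (fun w hw => nf w (inv_smul_eq_iff.1 hw).symm) ho hp r'⟩
      · rw [inv_inv]
        exact (hO z hz).symm
      · simpa only [inv_smul_smul] using (cmp_smul H h⁻¹ (cO z hz)).symm
  have hz' : ∀ i, Γ.Adj v i → σ v i h ≠ 0 := by
    intro i hi e
    obtain ⟨p, p1, p2⟩ := S.pos v i hi
    obtain ⟨f, f1, -, f3⟩ := dir _ (o1 i hi)
    have f4 : f ∈ Eg G v i ∧ σ v i f = 0 := by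
      rcases f1 with rfl | rfl
      · exact ⟨s.mem i hi, e⟩
      · exact ⟨inv_mem (s.mem i hi), by rw [(sl i hi).inv (s.mem i hi), e, neg_zero]⟩
    obtain ⟨j, -, b⟩ := f3 _ (iO p p1.1 _ (o1 i hi))
    exact asc_irr H _ (asc_le H (Ph.geo_line H (sl i hi) (L i hi) (pow_mem f4.1 j) p1
      (by rw [Ph.geo_npow (sl i hi) f4.1, f4.2, mul_zero]; exact p2)) b)
  have on := o1 w₀ a₀
  obtain ⟨f, f1, f2, f3⟩ := dir _ on
  refine ln_hull H rk (h := f) ?_ lo f2 (fun g hg => f3 _ (iO g hg _ on)) ?_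
  · rcases f1 with rfl | rfl
    exacts [hv, iv hv]
  · rintro _ ⟨i, hi, rfl⟩
    rcases f1 with rfl | rfl
    · exact ⟨inf_le_left, s.mem i hi, ln_ind tf J hi s.ne, sl i hi, hz' i hi, _, L i hi⟩
    · refine ⟨inf_le_left, inv_mem (s.mem i hi), ln_ind tf J hi (inv_ne_one.2 s.ne), sl i hi, ?_,
        _, L i hi⟩
      show σ v i h⁻¹ ≠ 0
      rw [(sl i hi).inv (s.mem i hi)]
      exact neg_ne_zero.2 (hz' i hi)

end Pool.Agent.Work.MP_3d425c_gt.Sv
end
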