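import Pool.Agent.Work.MP_3d425c_gt.Sv.Line
import Mathlib
import Pool.Agent.Work.MP_3d425c_gt.To.SfAm
import Pool.Agent.Work.MP_3d425c_gt.To.SfMain
import Pool.Agent.Work.MP_3d425c_gt.Nz.EZorn
import Pool.Agent.Work.MP_3d425c_gt.Nz.Big
import Pool.Agent.Work.MP_3d425c_gt.Rv.Ufam

-- merged part: Pool.Agent.Work.MP_3d425c_gt.To.Hv
section
/-! Hyperbolic vertices. -/

namespace Pool.Agent.Work.MP_3d425c_gt.To.Top
open Set MulAction Pool.Agent.Work.MP_3d425c_gt.Cy Pool.Agent.Work.MP_3d425c_gt.Gl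

section Abs
variable {Γ I : Type*} [Group Γ] [MulAction Γ I]

/-- a malnormal family of abelian subgroups of rank two, the stabilisers of the points of `I` -/
structure Per (Γ I : Type*) [Group Γ] [MulAction Γ I] : Prop where
  mal : ∀ (a : Γ) (i j : I), a ≠ 1 → a • i = i → a • j = j → i = j
  comm : ∀ (i : I) (a b : Γ), a • i = i → b • i = i → a * b = b * a
  two : ∀ i : I, ∃ a b : Γ, a • i = i ∧ b • i = i ∧ ¬ Dep a b

/-- equivariant slopes on the family -/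
structure PSl (s : I → Γ → ℝ) : Prop where
  eqv : ∀ (g : Γ) i p, p • i = i → s (g • i) (g * p * g⁻¹) = s i p
  add : ∀ i (p q : Γ), p • i = i → q • i = i → s i (p * q) = s i p + s i q

theorem Per.cent (P : Per Γ I) {a b : Γ} {i : I} (n : a ≠ 1) (ha : a • i = i)
    (c : b * a = a * b) : b • i = i :=
  P.mal a _ _ n (by rw [← mul_smul, ← c, mul_smul, ha]) ha

theorem Per.exists_sp (hG : Hy Γ) (P : Per Γ I) {s : I → Γ → ℝ} (S : PSl s) :
    ∃ c : Γ → ℝ, Sp c ∧ (∀ a i, a • i = i → c a = s i a) ∧ ∀ a, c a ≠ 0 → ∃ i : I, a • i = i := by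
  classical
  have s1 : ∀ i, s i 1 = 0 := fun i => by
    have := S.add i 1 1 (one_smul _ _) (one_smul _ _)
    rw [mul_one] at this
    linarith
  obtain ⟨c, c1, c2⟩ : ∃ c : Γ → ℝ, (∀ a i, a • i = i → c a = s i a) ∧
      ∀ a, (¬ ∃ i : I, a • i = i) → c a = 0 := by
    refine ⟨fun a => if k : ∃ i : I, a • i = i then s k.choose a else 0, fun a i e => ?_,
      fun a k => dif_neg k⟩
    have k : ∃ i : I, a • i = i := ⟨i, e⟩
    simp only [dif_pos k]
    by_cases n : a = 1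
    · subst n
      rw [s1, s1]
    · rw [P.mal a _ _ n k.choose_spec e]
  have c0 : c 1 = 0 := by
    by_cases k : ∃ i : I, (1 : Γ) • i = i
    · rw [c1 1 _ k.choose_spec, s1]
    · exact c2 _ k
  have c3 : ∀ a, c a ≠ 0 → ∃ i : I, a • i = i := fun a k => by_contra fun n => k (c2 a n)
  refine ⟨c, ⟨⟨fun g a => ?_, fun a b e => ?_⟩, fun a k => ?_⟩, c1, c3⟩
  · by_cases k : ∃ i : I, a • i = i
    · obtain ⟨i, k⟩ := k
      rw [c1 a i k, c1 _ (g • i) (by simp [mul_smul, k]), S.eqv g i a k]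
    · rw [c2 a k, c2]
      rintro ⟨i, l⟩
      exact k ⟨g⁻¹ • i, by simpa [mul_smul, smul_eq_iff_eq_inv_smul g] using l⟩
  · by_cases na : a = 1
    · simp [na, c0]
    by_cases nb : b = 1
    · simp [nb, c0]
    have q : ∀ i : I, a • i = i → b • i = i → c (a * b) = c a + c b := fun i x y => by
      rw [c1 a i x, c1 b i y, c1 _ i (by rw [mul_smul, y, x]), S.add i a b x y]
    by_cases ka : ∃ i : I, a • i = i
    · obtain ⟨i, k⟩ := ka
      exact q i k (P.cent na k e.symm)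
    by_cases kb : ∃ i : I, b • i = i
    · obtain ⟨i, k⟩ := kb
      exact q i (P.cent nb k e) k
    rw [c2 a ka, c2 b kb, add_zero]
    by_cases n : a * b = 1
    · rw [n, c0]
    · exact c2 _ fun ⟨i, k⟩ => ka ⟨i, P.cent n k (by rw [mul_assoc, ← e])⟩
  · obtain ⟨i, e⟩ := c3 a k
    obtain ⟨x, y, hx, hy, n⟩ := P.two i
    by_cases d : Dep a x
    · exact ⟨y, P.comm i _ _ hy e, fun d' =>
        n (hG.dep_trans (fun l => k (by rw [l, c0])) d.symm d')⟩
    · exact ⟨x, P.comm i _ _ hx e, d⟩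

variable {X : Type*} [MulAction Γ X] {C : Set (ℝ → X)} {up : X → X → Prop}

/-- no element other than the identity fixes a segment -/
def Nf (Γ : Type*) {X : Type*} [Group Γ] [MulAction Γ X] (C : Set (ℝ → X)) : Prop :=
  ∀ g : Γ, g ≠ 1 → ∀ c ∈ C, ∀ u v : ℝ, u < v → ∃ t ∈ Icc u v, ¬ g • c t = c t

/-- stabilisers have rank at most one -/
def Rk1 (Γ X : Type*) [Group Γ] [MulAction Γ X] : Prop :=
  ∀ (x : X) (a b : Γ), a • x = x → b • x = x → Dep a b

theorem rk1_of_cyc (k : ∀ y : X, IsCyclic (stabilizer Γ y)) : Rk1 Γ X := fun x a b ha hb => by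
  obtain ⟨z, hz⟩ := (k x).exists_zpow_surjective
  obtain ⟨i, hi⟩ := hz ⟨a, ha⟩
  obtain ⟨j, hj⟩ := hz ⟨b, hb⟩
  have e1 : a = z ^ i := (congrArg Subtype.val hi).symm
  have e2 : b = z ^ j := (congrArg Subtype.val hj).symm
  by_cases n : j = 0 ∧ i = 0
  · exact ⟨1, 1, by simp, by rw [e1, e2, n.1, n.2]⟩
  · exact ⟨j, i, n, by rw [e1, e2, ← zpow_mul, ← zpow_mul, mul_comm]⟩

/-- The relative theorem for a malnormal family with anchors. -/
theorem Per.ord [Countable Γ] (hG : Hy Γ) (hB : Bg2 Γ) (P : Per Γ I) {s : I → Γ → ℝ} (S : PSl s)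
    (h : Om Γ C up) (x₀ : X) (nf : Nf Γ C) (dep : Rk1 Γ X)
    (anc : ∀ i, ∃ y : X, ∀ p : Γ, p • i = i → 0 < s i p → Lt up y (p • y)) :
    ∃ r : Γ → Γ → Prop, IsStrictTotalOrder Γ r ∧ (∀ a b c, r a b ↔ r (c * a) (c * b)) ∧
      ∀ i x p q, p • i = i → q • i = i → 0 < s i p → 0 < s i q → r x (p * x) → r x (q * x) := by
  obtain ⟨c, c1, c2, c3⟩ := P.exists_sp hG S
  obtain ⟨r, r1, r2, r3⟩ := thmR hG hB c1 h x₀ nf dep fun a k => by
    obtain ⟨i, e⟩ := c3 a k.ne'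
    obtain ⟨y, hy⟩ := anc i
    refine ⟨y, fun p l m => ?_⟩
    have f := P.cent (fun n => by rw [n, c1.cf.one] at k; exact lt_irrefl _ k) e l
    exact hy p f (c2 p i f ▸ m)
  exact ⟨r, r1, r2, fun i x p q hp hq a b => r3 x p q (a.trans_eq (c2 p i hp).symm)
    (b.trans_eq (c2 q i hq).symm) (P.comm i p q hp hq)⟩

end Abs

variable {G V : Type*} [Group G] [MulAction G V] {T : SimpleGraph V} {σ : V → V → G → ℝ}

/-- the action of the vertex group on the neighbours -/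
@[reducible] def nbAct (J : Jsj G T) (v : V) : MulAction (stabilizer G v) (T.neighborSet v) where
  smul g w := ⟨g.1 • w.1, by
    have := J.act g.1 _ _ w.2
    rwa [show g.1 • v = v from g.2] at this⟩
  one_smul w := Subtype.ext (one_smul G w.1)
  mul_smul a b w := Subtype.ext (mul_smul a.1 b.1 w.1)

/-- different edge groups at `v` meet trivially -/
def Mal (G : Type*) {V : Type*} [Group G] [MulAction G V] (T : SimpleGraph V) (v : V) : Prop :=
  ∀ (a : G) w w', T.Adj v w → T.Adj v w' → a ≠ 1 → a • v = v → a • w = w → a • w' = w' → w = w'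

theorem Jsj.per (J : Jsj G T) {v : V} (m : Mal G T v) :
    letI := nbAct J v; Per (stabilizer G v) (T.neighborSet v) := by
  let _ := nbAct J v
  refine ⟨fun a i j n x y => Subtype.ext (m a i j i.2 j.2 (fun e => n (Subtype.ext e)) a.2
    (congrArg Subtype.val x) (congrArg Subtype.val y)), fun i a b x y => Subtype.ext
    (J.comm i.2 _ ⟨a.2, congrArg Subtype.val x⟩ _ ⟨b.2, congrArg Subtype.val y⟩), fun i => ?_⟩
  obtain ⟨a, b, -, n, e⟩ := J.edge v i i.2
  have ha : a ∈ Eg G v i := e ▸ Subgroup.subset_closure (by simp)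
  have hb : b ∈ Eg G v i := e ▸ Subgroup.subset_closure (by simp)
  exact ⟨⟨a, ha.1⟩, ⟨b, hb.1⟩, Subtype.ext ha.2, Subtype.ext hb.2,
    fun ⟨i, j, k, l⟩ => n ⟨i, j, k, congrArg Subtype.val l⟩⟩

theorem Slo.psl (J : Jsj G T) (S : Slo T σ) (v : V) : letI := nbAct J v
    PSl fun (i : T.neighborSet v) (p : stabilizer G v) => σ v i p := by
  let _ := nbAct J v
  refine ⟨fun g i p e => ?_, fun i p q x y =>
    S.add v i i.2 _ ⟨p.2, congrArg Subtype.val x⟩ _ ⟨q.2, congrArg Subtype.val y⟩⟩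
  have := S.eqv g v i i.2 p ⟨p.2, congrArg Subtype.val e⟩
  rwa [show g.1 • v = v from g.2] at this

/-- A hyperbolic vertex whose group acts on an object with anchors. -/
theorem Jsj.hyp_ord [Countable G] (J : Jsj G T) (S : Slo T σ) {v : V} (hy : Hy (stabilizer G v))
    (hB : Bg2 (stabilizer G v)) (m : Mal G T v) {X : Type*} [MulAction (stabilizer G v) X]
    {C : Set (ℝ → X)} {up : X → X → Prop} (h : Om (stabilizer G v) C up) (x₀ : X)
    (nf : Nf (stabilizer G v) C) (dep : Rk1 (stabilizer G v) X)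
    (anc : ∀ w, T.Adj v w → ∃ y : X, ∀ p : stabilizer G v, p.1 • w = w → 0 < σ v w p →
      Lt up y (p • y)) : ∃ r, Ord (stabilizer G v) (Fam T v (σ v)) r := by
  let _ := nbAct J v
  obtain ⟨r, l1, l2, d⟩ := (J.per m).ord hy hB (S.psl J v) h x₀ nf dep fun i =>
    let ⟨y, k⟩ := anc i i.2
    ⟨y, fun p e => k p (congrArg Subtype.val e)⟩
  refine ⟨fun x y => ∃ hx hy, r ⟨x, hx⟩ ⟨y, hy⟩, ⟨fun _ _ ⟨_, _, k⟩ => l1.irrefl _ k,
    fun _ _ _ _ _ _ ⟨a, _, k⟩ ⟨_, b, k'⟩ => ⟨a, b, l1.trans _ _ _ k k'⟩, fun x hx y hy n =>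
    ((lin_of_lo l1 univ).tot ⟨x, hx⟩ trivial ⟨y, hy⟩ trivial fun e =>
      n (congrArg Subtype.val e)).imp (fun k => ⟨hx, hy, k⟩) fun k => ⟨hy, hx, k⟩⟩,
    fun g hg _ _ _ _ ⟨a, b, k⟩ => ⟨mul_mem hg a, mul_mem hg b, (l2 _ _ ⟨g, hg⟩).1 k⟩, ?_⟩
  rintro _ ⟨w, a, rfl⟩ x hx p hp q hq sp sq ⟨_, _, k⟩
  exact ⟨hx, mul_mem hq.1 hx, d ⟨w, a⟩ ⟨x, hx⟩ ⟨p, hp.1⟩ ⟨q, hq.1⟩ (Subtype.ext hp.2)
    (Subtype.ext hq.2) sp sq k⟩

variable {X : Type*} [MulAction G X] {C : Set (ℝ → X)} {up : X → X → Prop}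

theorem om_sub (h : Om G C up) (A : Subgroup G) : Om A C up :=
  ⟨h.cover, fun g => h.smul g.1, h.conn, h.opn', h.upc', h.upk', fun g => h.ups g.1, h.sat⟩

theorem Nf.sub (h : Nf G C) (A : Subgroup G) : Nf A C := fun g n =>
  h g.1 fun e => n (Subtype.ext e)

theorem Rk1.sub (h : Rk1 G X) (A : Subgroup G) : Rk1 A X := fun x a b ha hb =>
  let ⟨i, j, k, l⟩ := h x a.1 b.1 ha hb
  ⟨i, j, k, Subtype.ext l⟩

/-- All vertices hyperbolic. -/
theorem phase1 [Countable G] (J : Jsj G T) (hy : ∀ v : V, Hy (stabilizer G v))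
    (hB : ∀ v : V, Bg2 (stabilizer G v)) (m : ∀ v, Mal G T v) (h : Om G C up) (x₀ : X)
    (nf : Nf G C) (dep : Rk1 G X) :
    ∃ r : G → G → Prop, IsStrictTotalOrder G r ∧ ∀ a b c, r a b ↔ r (c * a) (c * b) := by
  obtain ⟨σ, S, N⟩ := J.nat h x₀ dep
  refine J.lo S fun v => J.hyp_ord S (hy v) (hB v) (m v) (om_sub h _) x₀ (nf.sub _) (dep.sub _)
    fun w a => ?_
  obtain ⟨y, k⟩ := (N v w a).anchor h
  exact ⟨y, fun p e => k p ⟨p.2, e⟩⟩

end Pool.Agent.Work.MP_3d425c_gt.To.Top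
end

-- merged part: Pool.Agent.Work.MP_3d425c_gt.Lt.KDefs
section
/-! Discrete subgroups of the orientation preserving isometry group of hyperbolic three-space. -/

namespace Pool.Agent.Work.MP_3d425c_gt.Lt
open Matrix

/-- `ρ` maps `G` properly onto a discrete subgroup of `PSL(2, ℂ)`. -/
def Dsc {G : Type} [Group G] (ρ : G →* ProjectiveSpecialLinearGroup (Fin 2) ℂ) : Prop :=
  ∀ R : ℝ, {g : G | ∃ y : SpecialLinearGroup (Fin 2) ℂ,
    QuotientGroup.mk y = ρ g ∧ ∀ i j, ‖y i j‖ ≤ R}.Finite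

end Pool.Agent.Work.MP_3d425c_gt.Lt
end

-- merged part: Pool.Agent.Work.MP_3d425c_gt.To.TopDefs
section
/-! The geometric decomposition, read on the fundamental group. -/

namespace Pool.Agent.Work.MP_3d425c_gt.To.Top
open MulAction

variable {G V : Type} [Group G] [MulAction G V]

/-- A hyperbolic piece: the vertex group is discrete in `PSL(2, ℂ)`, different edge groups at `v`
meet trivially, and every abelian subgroup of rank two lies in an edge group. -/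
structure Hp (G : Type) {V : Type} [Group G] [MulAction G V] (T : SimpleGraph V) (v : V) :
    Prop where
  rep : ∃ ρ : stabilizer G v →* Matrix.ProjectiveSpecialLinearGroup (Fin 2) ℂ, Lt.Dsc ρ
  mal : Mal G T v
  cusp : ∀ a b : G, a • v = v → b • v = v → a * b = b * a → ¬ Dep a b →
    ∃ w, T.Adj v w ∧ a • w = w ∧ b • w = w

/-- A Seifert piece: `c i` is a boundary curve of the base for `i ∈ B`, else it surrounds a cone
point (or is the core of the cross cap); the edges at `v` are the translates of the `w i`. -/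
structure Sv (T : SimpleGraph V) (v : V) (h : G) (n : ℕ) (c : ℕ → G) (tw : Bool) (B : Set ℕ)
    (w : ℕ → V) : Prop where
  sf : Sf.Seif (stabilizer G v) h n c tw
  last : n ∈ B
  bd : ∀ i ∈ B, i ≤ n ∧ ¬ (tw ∧ i = 0) ∧ T.Adj v (w i) ∧ Eg G v (w i) = Subgroup.closure {h, c i}
  cone : ∀ i < n, i ∉ B → ¬ (tw ∧ i = 0) → ∃ k : ℤ, k ≠ 0 ∧ c i ^ k ∈ Subgroup.zpowers h
  all : ∀ u, T.Adj v u → ∃ i ∈ B, ∃ g : G, g • v = v ∧ g • w i = u
  inj : ∀ i ∈ B, ∀ j ∈ B, ∀ g : G, g • v = v → g • w i = w j → i = j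

/-- A decomposition along tori into hyperbolic and Seifert pieces whose fibres do not match. -/
structure Dec (G : Type) {V : Type} [Group G] [MulAction G V] (T : SimpleGraph V) : Prop where
  jsj : Jsj G T
  prop : ∀ v w, T.Adj v w → ∃ g : G, g • v = v ∧ g • w ≠ w
  nm : ∀ v w (τ : G), T.Adj v w → τ ∈ Eg G v w → τ ≠ 1 → Nm v τ → ¬ Nm w τ
  pc : ∀ v, Hp G T v ∨ ∃ (h : G) (n : ℕ) (c : ℕ → G) (tw : Bool) (B : Set ℕ) (w : ℕ → V),
    Sv T v h n c tw B w

/-- A closed Seifert manifold, or a decomposition along tori. -/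
def Geo (G : Type) [Group G] : Prop :=
  (∃ h : G, h ≠ 1 ∧ ∀ g : G, g * h * g⁻¹ = h ∨ g * h * g⁻¹ = h⁻¹) ∨
    ∃ (V : Type) (_ : MulAction G V) (T : SimpleGraph V), Dec G T

end Pool.Agent.Work.MP_3d425c_gt.To.Top
end

-- merged part: Pool.Agent.Work.MP_3d425c_gt.To.TopSf
section
/-! Seifert vertices. -/

namespace Pool.Agent.Work.MP_3d425c_gt.To.Top
open Set MulAction Subgroup Pool.Agent.Work.MP_3d425c_gt.Cy Pool.Agent.Work.MP_3d425c_gt.Gl

variable {G V : Type} [Group G] [MulAction G V] {T : SimpleGraph V} {σ : V → V → G → ℝ}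
  {X : Type*} [MulAction G X] {C : Set (ℝ → X)} {up : X → X → Prop}
  {v : V} {h : G} {n : ℕ} {c : ℕ → G} {tw : Bool} {B : Set ℕ} {w : ℕ → V}

theorem pair_dep {x a b : G} (cm : h * x = x * h) (t : Sf.Tor h x) (ha : a ∈ closure {h, x})
    (hb : b ∈ closure {h, x}) : Dep a b := by
  obtain ⟨m, m0, l, e⟩ := t
  have k : ∀ a ∈ closure {h, x}, ∃ z : ℤ, a ^ (m : ℤ) = h ^ z := fun a ha => by
    obtain ⟨i, j, rfl⟩ := (Ax.mem_pair cm).1 ha
    refine ⟨i * m + l * j, ?_⟩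
    have e' : h ^ l = x ^ (m : ℤ) := by simpa using e
    rw [(Commute.zpow_zpow cm i j).mul_zpow, zpow_add, zpow_mul h l, e', ← zpow_mul, ← zpow_mul,
      ← zpow_mul, mul_comm j]
  obtain ⟨y, e1⟩ := k a ha
  obtain ⟨z, e2⟩ := k b hb
  have m1 : (m : ℤ) ≠ 0 := by exact_mod_cast m0.ne'
  by_cases y0 : y = 0
  · exact ⟨m, 0, fun q => m1 q.1, by rw [e1, y0, zpow_zero, zpow_zero]⟩
  · exact ⟨m * z, m * y, fun q => mul_ne_zero m1 y0 q.2, by
      rw [zpow_mul, zpow_mul, e1, e2, ← zpow_mul, ← zpow_mul, mul_comm]⟩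

theorem Sv.bd_iff (J : Jsj G T) (s : Sv T v h n c tw B w) {i : ℕ} : Ph.Bd h n c tw i ↔ i ∈ B := by
  constructor
  · rintro ⟨a, b, d⟩
    by_contra q
    obtain ⟨k, k0, l, e⟩ := s.cone i (lt_of_le_of_ne a fun z => q (z ▸ s.last)) q b
    exact d ⟨l, k, fun z => k0 z.2, e⟩
  · intro q
    obtain ⟨a, b, ad, e⟩ := s.bd i q
    obtain ⟨x, y, -, nd, e'⟩ := J.edge v _ ad
    refine ⟨a, b, fun d => nd (pair_dep (s.sf.comm a b).symm ((Ph.dp_tor s.sf.inf).1 d) ?_ ?_)⟩ <;>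
      rw [← e, e']
    exacts [Ph.mem_l _ _, Ph.mem_r _ _]

theorem Sv.h_mem (s : Sv T v h n c tw B w) {u : V} (a : T.Adj v u) : h ∈ Eg G v u := by
  obtain ⟨i, hi, g, g1, rfl⟩ := s.all u a
  have m : h ∈ Eg G v (w i) := (s.bd i hi).2.2.2 ▸ Ph.mem_l _ _
  have := (conj_Eg g).2 m
  rw [g1] at this
  rcases Ph.seif_cj s.sf (g := g) g1 with e | e <;> rw [e] at this
  exacts [this, inv_mem_iff.1 this]

theorem ker_ne (J : Jsj G T) (S : Slo T σ) {u : V} (a : T.Adj v u)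
    (z : ∀ q ∈ Eg G v u, ∃ k : ℤ, σ v u q = k) : ∃ τ ∈ Eg G v u, τ ≠ 1 ∧ σ v u τ = 0 := by
  have sl : Sl (Eg G v u) (σ v u) := ⟨J.comm a, S.add v u a⟩
  obtain ⟨x, y, -, nd, e⟩ := J.edge v u a
  have mx : x ∈ Eg G v u := e ▸ Ph.mem_l _ _
  have my : y ∈ Eg G v u := e ▸ Ph.mem_r _ _
  obtain ⟨i, hi⟩ := z x mx
  obtain ⟨j, hj⟩ := z y my
  by_cases i0 : i = 0
  · exact ⟨x, mx, (ne_one_of_not_dep nd).1, by simp [hi, i0]⟩
  · refine ⟨x ^ j * y ^ (-i), mul_mem (zpow_mem mx _) (zpow_mem my _), fun q =>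
      nd ⟨j, i, fun r => i0 r.2, by rwa [zpow_neg, mul_inv_eq_one] at q⟩, ?_⟩
    rw [sl.add _ (zpow_mem mx _) _ (zpow_mem my _), sl.zpow mx, sl.zpow my, hi, hj]
    push_cast
    ring

theorem sf_out (tf : ∀ a : G, a ≠ 1 → ¬ IsOfFinOrder a) (J : Jsj G T) (H : Om G C up)
    (cy : ∀ y : X, ∃ z : G, ∀ a : G, a • y = y → a ∈ zpowers z) (dep : Rk1 G X) (S : Slo T σ)
    (N : ∀ v w, T.Adj v w → Nt C up (Eg G v w) (σ v w)) (s : Sv T v h n c tw B w) :
    SfOut T C up σ v := by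
  classical
  have sl : ∀ u, T.Adj v u → Sl (Eg G v u) (σ v u) := fun u a => ⟨J.comm a, S.add v u a⟩
  refine ⟨fun u a z => ?_, ?_⟩
  · obtain ⟨τ, t1, t2, t3, t4⟩ := Ph.zig_normal H cy s.sf (s.h_mem a) (sl u a) z.2.2
      (ker_ne J S a z.2.1)
    exact ⟨τ, t1, t2, t3, fun g hg => (mem_normalizer_iff.1 (t4 hg) τ).1 (mem_zpowers τ)⟩
  have ad : ∀ i ∈ B, T.Adj v (w i) := fun i hi => (s.bd i hi).2.2.1
  have eg : ∀ i ∈ B, closure {h, c i} = Eg G v (w i) := fun i hi => (s.bd i hi).2.2.2.symm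
  obtain ⟨s1, a1, r, l, iv, d⟩ := Ph.piece H dep tf s.sf ((s.bd_iff J).2 s.last).2.2
    (fun i => σ v (w i)) fun i b => by
      have hi := (s.bd_iff J).1 b
      rw [eg i hi]
      exact ⟨sl _ (ad i hi), S.pos v _ (ad i hi)⟩
  have a2 := fun i (hi : i ∈ B) => eg i hi ▸ a1 i ((s.bd_iff J).2 hi)
  have d1 : ∀ i ∈ B, Det (Eg G v (w i)) (s1 i) (stabilizer G v) r := fun i hi =>
    eg i hi ▸ d _ ⟨i, (s.bd_iff J).2 hi, rfl⟩
  obtain ⟨s2, b1, b2, b3, b4⟩ : ∃ s2 : ℕ → G → ℝ, (∀ i ∈ B, Sl (Eg G v (w i)) (s2 i)) ∧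
      (∀ i ∈ B, ∃ p ∈ Eg G v (w i), 0 < s2 i p) ∧
      (∀ i ∈ B, s2 i = σ v (w i) ∨ (Zg C up (Eg G v (w i)) (σ v (w i)) ∧
        ∀ p ∈ Eg G v (w i), σ v (w i) p = 0 → s2 i p = 0 → p = 1)) ∧
      ∀ i ∈ B, Det (Eg G v (w i)) (s2 i) (stabilizer G v) r := by
    let K : ℕ → Prop := fun i => Zg C up (Eg G v (w i)) (σ v (w i)) ∧
      ∀ p ∈ Eg G v (w i), σ v (w i) p = 0 → s1 i p = 0 → p = 1
    refine ⟨fun i => if K i then s1 i else σ v (w i), fun i hi => ?_, fun i hi => ?_,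
      fun i hi => ?_, fun i hi => ?_⟩ <;> beta_reduce <;> split_ifs with k
    · exact (a2 i hi).1
    · exact sl _ (ad i hi)
    · exact (a2 i hi).2.1
    · exact S.pos v _ (ad i hi)
    · exact .inr k
    · exact .inl rfl
    · exact d1 i hi
    · rcases N v _ (ad i hi) with L | z
      · exact (a2 i hi).2.2 L ▸ d1 i hi
      · obtain ⟨τ, t1, t3, t4, t2⟩ : ∃ p ∈ Eg G v (w i), σ v (w i) p = 0 ∧ s1 i p = 0 ∧ p ≠ 1 := by
          by_contra q
          exact k ⟨z, fun p hp e e' => by_contra fun y => q ⟨p, hp, e, e', y⟩⟩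
        obtain ⟨t, t0, e⟩ := Ph.zig_prop dep tf (sl _ (ad i hi)) (a2 i hi).1 (a2 i hi).2.1 z.1
          z.2.1 z.2.2 t1 t2 t3 t4
        exact Ph.det_prop inf_le_left l iv (a2 i hi).1 t0 e (d1 i hi)
  choose! ι hι γ g1 g2 using s.all
  have back : ∀ u, T.Adj v u → ∀ p, (γ u)⁻¹ * p * γ u ∈ Eg G v (w (ι u)) ↔ p ∈ Eg G v u :=
    fun u a p => by
      rw [← conj_Eg (γ u), g1 u a, g2 u a]
      simp [mul_assoc]
  have nat : ∀ u, T.Adj v u → ∀ p ∈ Eg G v u, σ v u p = σ v (w (ι u)) ((γ u)⁻¹ * p * γ u) :=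
    fun u a p hp => by
      have := S.eqv (γ u) v _ (ad _ (hι u a)) _ ((back u a p).2 hp)
      rw [g1 u a, g2 u a] at this
      rw [← this]
      congr 1
      group
  refine ⟨fun u p => s2 (ι u) ((γ u)⁻¹ * p * γ u), fun g u e a p hp => ?_, fun u a p hp q hq => ?_,
    fun u a => ?_, fun u a => ?_, r, l, iv, ?_⟩
  · have a' : T.Adj v (g • u) := e ▸ J.act g v u a
    have f1 : ((γ (g • u))⁻¹ * g * γ u) • v = v := by
      rw [mul_smul, mul_smul, g1 u a, e, inv_smul_eq_iff, g1 _ a']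
    have f2 : ((γ (g • u))⁻¹ * g * γ u) • w (ι u) = w (ι (g • u)) := by
      rw [mul_smul, mul_smul, g2 u a, inv_smul_eq_iff, g2 _ a']
    have e1 := s.inj _ (hι u a) _ (hι _ a') _ f1 f2
    rw [← e1] at f2 ⊢
    have := J.comm (ad _ (hι u a)) _ ⟨f1, f2⟩ _ ((back u a p).2 hp)
    congr 1
    calc _ = (γ (g • u))⁻¹ * g * γ u * ((γ u)⁻¹ * p * γ u) * ((γ (g • u))⁻¹ * g * γ u)⁻¹ := by group
      _ = _ := by rw [this]; group
  · rw [← (b1 _ (hι u a)).add _ ((back u a p).2 hp) _ ((back u a q).2 hq)]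
    congr 1
    group
  · obtain ⟨p, hp, e⟩ := b2 _ (hι u a)
    exact ⟨γ u * p * (γ u)⁻¹, (back u a _).1 (by simpa [mul_assoc] using hp),
      by simpa [mul_assoc] using e⟩
  · rcases b3 _ (hι u a) with e | ⟨z, e⟩
    · exact .inl fun p hp => by rw [e, nat u a p hp]
    · refine .inr ⟨zg_tr H (γ u)⁻¹ (s := σ v (w (ι u))) (fun p hp => by
        rw [nat u a p hp, inv_inv]) ?_, fun p hp k1 k2 => ?_⟩
      · rwa [inv_smul_eq_iff.2 (g1 u a).symm, inv_smul_eq_iff.2 (g2 u a).symm]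
      · have := e _ ((back u a p).2 hp) (nat u a p hp ▸ k1) k2
        simpa [mul_assoc, inv_mul_eq_one] using this
  · rintro _ ⟨u, a, rfl⟩
    exact (b4 _ (hι u a)).conj inf_le_left iv (g1 u a) fun p hp => ⟨(back u a p).2 hp, id⟩

end Pool.Agent.Work.MP_3d425c_gt.To.Top
end

-- merged part: Pool.Agent.Work.MP_3d425c_gt.Rv.Hz
section
/-! Groups whose centralisers are abelian, malnormal, and of rank one or equal to a lattice. -/

namespace Pool.Agent.Work.MP_3d425c_gt.Rv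
open Set Filter Topology Pool.Agent.Work.MP_3d425c_gt.Cy Pool.Agent.Work.MP_3d425c_gt.To

variable {G : Type} [Group G]

structure Hz (G : Type) [Group G] : Prop where
  tf : ∀ a : G, a ≠ 1 → ¬ IsOfFinOrder a
  ct : ∀ {a b c : G}, b ≠ 1 → a * b = b * a → c * b = b * c → a * c = c * a
  mn : ∀ a g : G, a ≠ 1 → g * a * g⁻¹ * a = a * (g * a * g⁻¹) → g * a = a * g
  two : ∀ a : G, Two a →
    Nonempty (Subgroup.centralizer ({a} : Set G) ≃* Multiplicative (ℤ × ℤ))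

theorem Hz.zinj (h : Hz G) {g : G} (hg : g ≠ 1) {i j : ℤ} (e : g ^ i = g ^ j) : i = j :=
  injective_zpow_iff_not_isOfFinOrder.mpr (h.tf g hg) e

theorem Hz.zne (h : Hz G) {g : G} (hg : g ≠ 1) {i : ℤ} (hi : i ≠ 0) : g ^ i ≠ 1 := fun e =>
  hi (h.zinj hg (e.trans (zpow_zero g).symm))

/-- For nontrivial elements both exponents are nonzero. -/
theorem Hz.dep_ne (h : Hz G) {a b : G} (ha : a ≠ 1) (hb : b ≠ 1) (k : Dep a b) :
    ∃ m n : ℤ, m ≠ 0 ∧ n ≠ 0 ∧ a ^ m = b ^ n := by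
  obtain ⟨m, n, h1, h2⟩ := k
  refine ⟨m, n, fun e => ?_, fun e => ?_, h2⟩
  · rw [e, zpow_zero] at h2
    exact h.zne hb (fun k => h1 ⟨e, k⟩) h2.symm
  · rw [e, zpow_zero] at h2
    exact h.zne ha (fun k => h1 ⟨k, e⟩) h2

theorem Hz.dep_comm (h : Hz G) {a b : G} (k : Dep a b) : a * b = b * a := by
  by_cases ha : a = 1
  · simp [ha]
  by_cases hb : b = 1
  · simp [hb]
  obtain ⟨m, n, h1, -, h2⟩ := h.dep_ne ha hb k
  exact h.ct (h.zne ha h1) (Commute.self_zpow a m).eq (h2 ▸ (Commute.self_zpow b n).eq)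

theorem Hz.dep_trans (h : Hz G) {a b c : G} (hb : b ≠ 1) (k : Dep a b) (l : Dep b c) :
    Dep a c := by
  by_cases ha : a = 1
  · exact ha ▸ (dep_one c).symm
  by_cases hc : c = 1
  · exact hc ▸ dep_one a
  obtain ⟨m, n, h1, -, h2⟩ := h.dep_ne ha hb k
  obtain ⟨m', n', h3, -, h4⟩ := h.dep_ne hb hc l
  exact ⟨m * m', n' * n, fun e => mul_ne_zero h1 h3 e.1, by
    rw [zpow_mul, h2, zpow_mul, ← h4, ← zpow_mul, ← zpow_mul, mul_comm]⟩

theorem Hz.two_of (hG : Hz G) {a c : G} (h : Two a) (hc : c ≠ 1) (e : a * c = c * a) : Two c := by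
  obtain ⟨b, h1, h2⟩ := h
  by_cases k : Dep c a
  · exact ⟨b, hG.ct (ne_one_of_not_dep h2).1 h1 e.symm, fun l => h2 (hG.dep_trans hc k.symm l)⟩
  · exact ⟨a, e, k⟩

theorem two_ne {a : G} (h : Two a) : a ≠ 1 := fun e => not_two_one (e ▸ h)

theorem two_conj {a : G} (g : G) : Two a → Two (g * a * g⁻¹) := fun ⟨b, h1, h2⟩ =>
  ⟨g * b * g⁻¹, by rw [conj_mul, conj_mul, h1], fun k => h2 ((dep_conj g).1 k)⟩

theorem dep_of_not {a b : G} (n : ¬ Two a) (e : b * a = a * b) : Dep a b :=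
  by_contra fun k => n ⟨b, e, k⟩

theorem Hz.csa (h : Hz G) : Bg.Sf.Csa G :=
  ⟨h.tf, fun _ _ _ n p q => h.ct n p q, fun a g n p => h.mn a g n p.symm⟩

theorem Hz.fg (h : Hz G) {a : G} (ha : Two a) :
    ∃ S : Set G, S.Finite ∧ Subgroup.closure S = Subgroup.centralizer ({a} : Set G) := by
  obtain ⟨e⟩ := h.two a ha
  obtain ⟨S, h1, h2⟩ := (Subgroup.fg_iff _).1 ((Group.fg_iff_subgroup_fg _).1
    (Group.fg_of_surjective (f := e.symm.toMonoidHom) e.symm.surjective))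
  exact ⟨S, h2, h1⟩

theorem Hz.coord (h : Hz G) {a : G} (ha : Two a) : ∃ φ : G → ℤ × ℤ,
    (∀ x y, x * a = a * x → y * a = a * y → φ (x * y) = φ x + φ y) ∧
      ∀ x y, x * a = a * x → y * a = a * y → φ x = φ y → x = y := by
  classical
  obtain ⟨e⟩ := h.two a ha
  obtain ⟨f, hf⟩ : ∃ f : Subgroup.centralizer ({a} : Set G) →* Multiplicative (ℤ × ℤ),
      Function.Injective f := ⟨e.toMonoidHom, e.injective⟩
  refine ⟨fun x => if k : x * a = a * x then
    (f ⟨x, Subgroup.mem_centralizer_singleton_iff.2 k⟩).toAdd else 0, fun x y hx hy => ?_,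
    fun x y hx hy e => ?_⟩
  · have hxy : x * y * a = a * (x * y) := by rw [mul_assoc, hy, ← mul_assoc, hx, mul_assoc]
    simp only [dif_pos hx, dif_pos hy, dif_pos hxy]
    rw [← toAdd_mul, ← map_mul]
    rfl
  · simp only [dif_pos hx, dif_pos hy] at e
    exact congrArg Subtype.val (hf (Multiplicative.toAdd.injective e))

/-- A subgroup of pairwise dependent elements is cyclic. -/
theorem Hz.cyc (h : Hz G) (K : Subgroup G) (k : ∀ a ∈ K, ∀ b ∈ K, Dep a b) {a : G} (ha : a ∈ K)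
    (a2 : Two a) : ∃ τ ∈ K, ∀ γ ∈ K, ∃ n : ℤ, γ = τ ^ n := by
  have a1 := two_ne a2
  obtain ⟨φ, h1, h2⟩ := h.coord a2
  have c : ∀ b ∈ K, b * a = a * b := fun b hb => h.dep_comm (k b hb a ha)
  have h0 : φ 1 = 0 := by simpa using coord_zpow h1 (x := 1) (by simp) 0
  obtain ⟨l, hl⟩ : ∃ l : ℤ × ℤ →+ ℤ, l (φ a) ≠ 0 := by
    by_contra n
    push Not at n
    exact a1 (h2 a 1 rfl (by simp)
      (h0 ▸ Prod.ext (n (AddMonoidHom.fst ℤ ℤ)) (n (AddMonoidHom.snd ℤ ℤ))))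
  let f : K →* Multiplicative ℤ := MonoidHom.mk' (fun x => Multiplicative.ofAdd (l (φ x)))
    fun x y => by rw [← ofAdd_add, ← map_add, ← h1 _ _ (c _ x.2) (c _ y.2)]; rfl
  have hf : Function.Injective f := by
    refine (injective_iff_map_eq_one f).2 fun b hb => ?_
    by_contra n
    obtain ⟨m, n, m0, -, e⟩ := h.dep_ne a1 (fun e => n (Subtype.ext e)) (k a ha b b.2)
    have e2 := congrArg (fun z => l (φ z)) e
    have hb' : l (φ b) = 0 := congrArg Multiplicative.toAdd hb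
    simp only [coord_zpow h1 (rfl : a * a = a * a), coord_zpow h1 (c _ b.2), map_zsmul, hb',
      smul_eq_mul, mul_zero] at e2
    exact mul_ne_zero m0 hl e2
  have : IsCyclic K := isCyclic_of_surjective (MonoidHom.ofInjective hf).symm
    (MonoidHom.ofInjective hf).symm.surjective
  obtain ⟨g, hg⟩ := this.exists_generator
  refine ⟨g, g.2, fun γ hγ => ?_⟩
  obtain ⟨n, hn⟩ := hg ⟨γ, hγ⟩
  exact ⟨n, (congrArg Subtype.val hn).symm⟩

/-- An injective real character of a centraliser. -/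
theorem Hz.char (h : Hz G) {a : G} (ha : a ≠ 1) : ∃ ψ : G → ℝ,
    (∀ x y, x * a = a * x → y * a = a * y → ψ (x * y) = ψ x + ψ y) ∧
      ∀ x, x * a = a * x → ψ x = 0 → x = 1 := by
  by_cases t : Two a
  · obtain ⟨φ, h1, h2⟩ := h.coord t
    have h0 : φ 1 = 0 := by simpa using coord_zpow h1 (x := 1) (by simp) 0
    refine ⟨fun x => (φ x).1 + (φ x).2 * √2, fun x y hx hy => ?_, fun x hx e => ?_⟩
    · simp only [h1 x y hx hy, Prod.fst_add, Prod.snd_add]
      push_cast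
      ring
    · have q : (φ x).2 = 0 := by
        by_contra n
        exact ((irrational_sqrt_two.intCast_mul n).intCast_add (φ x).1).ne_zero e
      have q1 : (φ x).1 = 0 := by simpa [q] using e
      exact h2 x 1 hx (by simp) (h0 ▸ Prod.ext q1 q)
  have ex : ∀ x : G, ∃ m n : ℤ, x * a = a * x → n ≠ 0 ∧ a ^ m = x ^ n := fun x => by
    by_cases e : x * a = a * x
    · obtain ⟨m, n, d, q⟩ := dep_of_not t e
      refine ⟨m, n, fun _ => ⟨fun z => ?_, q⟩⟩
      rw [z, zpow_zero] at q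
      exact h.zne ha (fun z' => d ⟨z', z⟩) q
    · exact ⟨0, 0, fun k => absurd k e⟩
  choose m n k using ex
  refine ⟨fun x => m x / n x, fun x y hx hy => ?_, fun x hx e => ?_⟩
  · obtain ⟨a1, a2⟩ := k x hx
    obtain ⟨b1, b2⟩ := k y hy
    obtain ⟨c1, c2⟩ := k _ (cm_mul hx hy)
    have c : Commute x y := h.ct ha hx hy
    have q : m (x * y) * (n x * n y) = (m x * n y + m y * n x) * n (x * y) := h.zinj ha (by
      have e1 : a ^ (m x * n y + m y * n x) = (x * y) ^ (n x * n y) := by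
        rw [zpow_add, zpow_mul, zpow_mul, a2, b2, ← zpow_mul, ← zpow_mul, mul_comm (n y),
          c.mul_zpow]
      rw [zpow_mul, c2, zpow_mul a, e1, ← zpow_mul, ← zpow_mul, mul_comm (n (x * y))])
    have q' : (m (x * y) : ℝ) * (n x * n y) = (m x * n y + m y * n x) * n (x * y) := by
      exact_mod_cast q
    have : (n x : ℝ) ≠ 0 := by exact_mod_cast a1
    have : (n y : ℝ) ≠ 0 := by exact_mod_cast b1
    have : (n (x * y) : ℝ) ≠ 0 := by exact_mod_cast c1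
    field_simp
    linarith
  · obtain ⟨a1, a2⟩ := k x hx
    have z : m x = 0 := by simpa [a1] using e
    rw [z, zpow_zero] at a2
    exact by_contra fun q => h.zne q a1 a2.symm

/-- A class function without zeros. -/
theorem Hz.sj (h : Hz G) : ∃ S : G → ℝ, Sj S := by
  classical
  let R : G → G → Prop := fun a r => r ≠ 1 ∧ ∃ g, g * a * g⁻¹ * r = r * (g * a * g⁻¹)
  let ρ : G → G := fun a => Classical.epsilon (R a)
  have hρ : ∀ a, a ≠ 1 → R a (ρ a) := fun a ha =>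
    Classical.epsilon_spec (p := R a) ⟨a, ha, 1, by simp⟩
  have cj : ∀ g a : G, a ≠ 1 → g * a * g⁻¹ ≠ 1 := fun g a ha e => ha (by simpa using e)
  have cc : ∀ g a b : G, b * a = a * b →
      g * b * g⁻¹ * (g * a * g⁻¹) = g * a * g⁻¹ * (g * b * g⁻¹) := fun g a b e => by
    rw [conj_mul, conj_mul, e]
  have r1 : ∀ a b r, a ≠ 1 → b * a = a * b → R a r → R b r := fun a b r ha e k =>
    let ⟨k1, g, k2⟩ := k
    ⟨k1, g, h.ct (cj g a ha) (cc g a b e) k2.symm⟩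
  have e1 : ∀ a b, a ≠ 1 → b ≠ 1 → b * a = a * b → ρ b = ρ a := fun a b ha hb e =>
    congrArg Classical.epsilon
      (funext fun r => propext ⟨r1 b a r hb e.symm, r1 a b r ha e⟩)
  have r2 : ∀ a c r, R (c * a * c⁻¹) r → R a r := fun a c r k =>
    let ⟨k1, g, k2⟩ := k
    ⟨k1, g * c, by simpa [mul_assoc] using k2⟩
  have e2 : ∀ a c, ρ (c * a * c⁻¹) = ρ a := fun a c =>
    congrArg Classical.epsilon (funext fun r => propext
      ⟨r2 a c r, fun k => r2 _ c⁻¹ r (by simpa [mul_assoc] using k)⟩)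
  have hψ := fun (r : G) (hr : r ≠ 1) => h.char hr
  choose! ψ p1 p2 using hψ
  have hg := fun a ha => (hρ a ha).2
  choose! γ hγ using hg
  let S : G → ℝ := fun a => if a = 1 then 0 else ψ (ρ a) (γ a * a * (γ a)⁻¹)
  have u : ∀ a g, a ≠ 1 → g * a * g⁻¹ * ρ a = ρ a * (g * a * g⁻¹) →
      γ a * a * (γ a)⁻¹ = g * a * g⁻¹ := fun a g ha k => by
    have c := h.ct (hρ a ha).1 (hγ a ha) k
    have e : γ a * a * (γ a)⁻¹ = γ a * g⁻¹ * (g * a * g⁻¹) * (γ a * g⁻¹)⁻¹ := by group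
    have m := h.mn _ (γ a * g⁻¹) (cj g a ha) (by rw [← e]; exact c)
    rw [e, m, mul_inv_cancel_right]
  have key : ∀ a g b, a ≠ 1 → g * a * g⁻¹ * ρ a = ρ a * (g * a * g⁻¹) → b * a = a * b →
      g * b * g⁻¹ * ρ a = ρ a * (g * b * g⁻¹) ∧ S b = ψ (ρ a) (g * b * g⁻¹) := by
    intro a g b ha k e
    have c := h.ct (cj g a ha) (cc g a b e) k.symm
    refine ⟨c, ?_⟩
    by_cases hb : b = 1
    · have := p1 _ (hρ a ha).1 1 1 (by simp) (by simp)
      rw [mul_one] at this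
      simp only [S, hb, if_true, mul_one, mul_inv_cancel]
      linarith
    · simp only [S, if_neg hb]
      rw [u b g hb (by rw [e1 a b ha hb e]; exact c), e1 a b ha hb e]
  refine ⟨S, ⟨fun c a => ?_, fun a b e => ?_⟩, fun a e => ?_⟩
  · by_cases ha : a = 1
    · simp [ha]
    have k := key _ (γ a * c⁻¹) _ (cj c a ha) (by rw [e2]; simpa [mul_assoc] using hγ a ha) rfl
    rw [k.2, e2]
    simp only [S, if_neg ha]
    congr 1
    group
  · by_cases ha : a = 1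
    · simp [ha, S]
    have k1 := key a _ a ha (hγ a ha) rfl
    have k2 := key a _ b ha (hγ a ha) e.symm
    have k3 := key a _ (a * b) ha (hγ a ha) (cm_mul rfl e.symm)
    rw [k3.2, k1.2, k2.2, ← p1 _ (hρ a ha).1 _ _ k1.1 k2.1, conj_mul]
  · by_contra ha
    simp only [S, if_neg ha] at e
    exact cj _ a ha (p2 _ (hρ a ha).1 _ (hγ a ha) e)

/-- A class function without zeros that is positive on a finite set where `s` is positive. -/
theorem exists_S [Countable G] (h : Hz G) {s : G → ℝ} (hs : Cf s) (F : Finset G) :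
    ∃ S, Sj S ∧ ∀ a ∈ F, 0 < s a → 0 < S a := by
  obtain ⟨T, hT⟩ := h.sj
  have e1 : ∀ᶠ ε in 𝓝 (0 : ℝ), ∀ a ∈ F, 0 < s a → 0 < s a + ε * T a := by
    refine (eventually_all_finset F).2 fun a _ => ?_
    by_cases k : 0 < s a
    · have c : Continuous fun ε : ℝ => s a + ε * T a := by fun_prop
      exact (c.continuousAt.eventually (lt_mem_nhds (by simpa using k))).mono fun _ l _ => l
    · exact Eventually.of_forall fun _ l => absurd l k
  have d : Dense (range fun a => -s a / T a)ᶜ := (countable_range _).dense_compl ℝ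
  obtain ⟨ε, h1, h2⟩ := d.inter_nhds_nonempty e1
  refine ⟨fun a => s a + ε * T a, ⟨⟨fun g a => by rw [hs.conj, hT.cf.conj], fun a b e => ?_⟩,
    fun a e => hT.inj a ?_⟩, h2⟩
  · rw [hs.add a b e, hT.cf.add a b e]
    ring
  · by_contra n
    exact h1 ⟨a, by field_simp; linarith⟩

theorem lo_compact [Countable G] (h : Hz G) {s : G → ℝ} (hs : Cf s)
    (k : ∀ S, Sj S → LO (Pos s S)) : LO fun a => 0 < s a := by
  classical
  choose S h1 h2 using exists_S h hs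
  choose r r1 r2 r3 using fun F => k _ (h1 F)
  let U : Ultrafilter (Finset G) := Ultrafilter.of atTop
  have hU : ∀ a : G, ∀ᶠ F in (U : Filter (Finset G)), a ∈ F := fun a =>
    Ultrafilter.of_le atTop ((eventually_ge_atTop {a}).mono fun F l => l (by simp))
  refine ⟨fun x y => ∀ᶠ F in (U : Filter (Finset G)), r F x y, ?_, fun a b c => ?_,
    fun x a b ha hb e l => ?_⟩
  · refine { trichotomous := fun a b l1 l2 => ?_, irrefl := fun a l => ?_, trans := ?_ }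
    · obtain ⟨F, q1, q2⟩ := ((Ultrafilter.eventually_not.2 l1).and
        (Ultrafilter.eventually_not.2 l2)).exists
      exact (r1 F).trichotomous _ _ q1 q2
    · obtain ⟨F, q⟩ := l.exists
      exact (r1 F).irrefl _ q
    · exact fun a b c l1 l2 => (l1.and l2).mono fun F q => (r1 F).trans _ _ _ q.1 q.2
  · exact eventually_congr (Eventually.of_forall fun F => r2 F a b c)
  · exact (l.and ((hU a).and (hU b))).mono fun F q =>
      r3 F x a b ⟨ha, h2 F a q.2.1 ha⟩ ⟨hb, h2 F b q.2.2 hb⟩ e q.1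

theorem Hz.nva (hG : Hz G) (hna : ¬ ∀ a b : G, a * b = b * a) (N : Subgroup G)
    (hN : N.FiniteIndex) : ∃ a ∈ N, ∃ b ∈ N, a * b ≠ b * a := by
  push Not at hna
  obtain ⟨x, y, ne⟩ := hna
  obtain ⟨i, i0, -, hi⟩ := N.exists_pow_mem_of_index_ne_zero hN.1 x
  obtain ⟨j, j0, -, hj⟩ := N.exists_pow_mem_of_index_ne_zero hN.1 y
  have k : ∀ (x : G) (i : ℕ), x ≠ 1 → 0 < i → x ^ i ≠ 1 := fun x i a b => by
    simpa using hG.zne a (i := i) (by omega)
  refine ⟨_, hi, _, hj, fun e => ne (hG.ct (k y j (fun q => ne (by simp [q])) j0)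
    (hG.ct (k x i (fun q => ne (by simp [q])) i0) (Commute.self_pow x i).eq e.symm)
    (Commute.self_pow y j).eq)⟩

theorem Hz.root (h : Hz G) {a b : G} (e : Dep a b) :
    ∃ z ∈ Subgroup.closure ({a, b} : Set G), a ∈ Subgroup.zpowers z ∧ b ∈ Subgroup.zpowers z := by
  have c : Commute a b := h.dep_comm e
  obtain ⟨m, n, mn, q⟩ := e
  obtain ⟨d, i, j, d0, ij, rfl, rfl⟩ := Int.exists_gcd_one' (m := m) (n := n)
    (Int.gcd_pos_iff.2 (not_and_or.1 mn))
  have q' : a ^ i = b ^ j := by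
    by_contra ne
    refine Bg.Sf.zpow_ne_one h.csa.tf (s := a ^ i * (b ^ j)⁻¹) (m := d)
      (fun k => ne (mul_inv_eq_one.1 k)) (by omega) ?_
    rw [(c.zpow_zpow i j).inv_right.mul_zpow, inv_zpow, ← zpow_mul, ← zpow_mul, q, mul_inv_cancel]
  obtain ⟨u, v, uv⟩ := Int.isCoprime_iff_gcd_eq_one.2 ij
  refine ⟨a ^ v * b ^ u, mul_mem (zpow_mem (Subgroup.subset_closure (by simp)) _)
    (zpow_mem (Subgroup.subset_closure (by simp)) _), ⟨j, ?_⟩, ⟨i, ?_⟩⟩
  · show (a ^ v * b ^ u) ^ j = a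
    rw [(c.zpow_zpow v u).mul_zpow, ← zpow_mul, ← zpow_mul, mul_comm u, zpow_mul b, ← q',
      ← zpow_mul, ← zpow_add, show v * j + i * u = 1 by linarith, zpow_one]
  · show (a ^ v * b ^ u) ^ i = b
    rw [(c.zpow_zpow v u).mul_zpow, ← zpow_mul, ← zpow_mul, mul_comm v, zpow_mul a, q',
      ← zpow_mul, ← zpow_add, show j * v + u * i = 1 by linarith, zpow_one]

theorem Hz.dep2 (h : Hz G) {a x y : G} (ha : a ≠ 1) (t : ¬ Two a) (hx : x * a = a * x)
    (hy : y * a = a * y) : Dep x y :=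
  h.dep_trans ha (dep_of_not t hx).symm (dep_of_not t hy)

theorem Hz.fin (h : Hz G) {a : G} (ha : a ≠ 1) (t : ¬ Two a) {S : Set G} (hS : S.Finite)
    (k : ∀ x ∈ S, x * a = a * x) : ∃ z : G, ∀ x ∈ Subgroup.closure S, x ∈ Subgroup.zpowers z := by
  suffices ∃ z : G, z * a = a * z ∧ ∀ x ∈ S, x ∈ Subgroup.zpowers z from
    this.imp fun z l _ hx => (Subgroup.closure_le _).2 l.2 hx
  induction S, hS using Set.Finite.induction_on with
  | empty => exact ⟨1, by simp, nofun⟩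
  | @insert x S _ _ ih =>
    obtain ⟨z, z1, z2⟩ := ih fun y hy => k y (.inr hy)
    have hx := k x (.inl rfl)
    obtain ⟨w, w1, w2, w3⟩ := h.root (h.dep2 ha t hx z1)
    refine ⟨w, Nz.cl_comm ?_ w1, ?_⟩
    · rintro _ (rfl | rfl)
      exacts [hx, z1]
    · rintro y (rfl | hy)
      exacts [w2, Subgroup.zpowers_le.2 w3 (z2 y hy)]

theorem Hz.depth [Countable G] (h : Hz G) : ∃ δ : G → ℕ, Nz.Dt δ := by
  have := (ConjClasses.mk_surjective (α := G)).countable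
  obtain ⟨e, he⟩ := exists_injective_nat (ConjClasses G)
  refine ⟨fun a => e (ConjClasses.mk a), fun g a => congrArg e
    (ConjClasses.mk_eq_mk_iff_isConj.2 (isConj_iff.2 ⟨g, rfl⟩).symm), fun a ha n => ?_⟩
  refine Set.Finite.of_finite_image (f := fun a => e (ConjClasses.mk a))
    ((finite_Iic n).subset ?_) fun x hx y hy q => ?_
  · rintro _ ⟨b, hb, rfl⟩
    exact hb.2
  obtain ⟨g, rfl⟩ := isConj_iff.1 (ConjClasses.mk_eq_mk_iff_isConj.1 (he q))
  by_cases x1 : x = 1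
  · simp [x1]
  rw [h.csa.mn x g x1 (h.csa.ct a _ _ ha hx.1 hy.1), mul_inv_cancel_right]

theorem Hz.ab (h : Hz G) {X : Type*} [MulAction G X] {r : X → X → Prop} (z : Nz.Zc G r) (x : X) (a b : G) (ha : r (a • x) x)
    (hb : r (b • x) x) : a * b = b * a := by
  rcases z x with ⟨w, k⟩ | ⟨κ, k1, k⟩
  · obtain ⟨i, rfl⟩ := k a ha
    obtain ⟨j, rfl⟩ := k b hb
    exact zpow_mul_comm w i j
  · exact h.csa.ct κ a b k1 ((k a).1 ha) ((k b).1 hb)

end Pool.Agent.Work.MP_3d425c_gt.Rv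
end

-- merged part: Pool.Agent.Work.MP_3d425c_gt.Rv.Grp
section
/-! Centralisers in a group with a malnormal family that contains every lattice of rank two. -/

namespace Pool.Agent.Work.MP_3d425c_gt.Rv
open Subgroup MulAction Pool.Agent.Work.MP_3d425c_gt.Md Pool.Agent.Work.MP_3d425c_gt.Cy
  Pool.Agent.Work.MP_3d425c_gt.To Pool.Agent.Work.MP_3d425c_gt.Bg Pool.Agent.Work.MP_3d425c_gt.Bq

theorem mr_one {x : Multiplicative ℝ} {n : ℤ} (h : n ≠ 0) (e : x ^ n = 1) : x = 1 := by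
  have := congrArg Multiplicative.toAdd e
  rw [toAdd_zpow, toAdd_one, smul_eq_zero] at this
  exact this.resolve_left h

theorem hz_of {Γ I : Type} [Group Γ] [MulAction Γ I] (tf : ∀ a : Γ, a ≠ 1 → ¬ IsOfFinOrder a)
    (P : Top.Per Γ I)
    (cusp : ∀ a b : Γ, a * b = b * a → ¬ Dep a b → ∃ i : I, a • i = i ∧ b • i = i)
    (iso : ∀ i : I, Nonempty (stabilizer Γ i ≃* Multiplicative (ℤ × ℤ)))
    (cyc : ∀ E : Subgroup Γ, E.FG → (∀ a ∈ E, ∀ b ∈ E, a * b = b * a → Dep a b) →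
      ∀ k : E, (∀ φ : E →* Multiplicative ℝ, φ k = 1 → φ = 1) → IsCyclic E) : Hz Γ := by
  classical
  have np : ∀ a : Γ, (¬ ∃ i : I, a • i = i) → ∀ b, a * b = b * a → Dep a b := fun a n b c =>
    by_contra fun k => n ((cusp a b c k).imp fun _ h => h.1)
  have ct : ∀ {a b c : Γ}, b ≠ 1 → a * b = b * a → c * b = b * c → a * c = c * a := by
    intro a b c hb ha hc
    by_cases p : ∃ i : I, b • i = i
    · obtain ⟨i, p⟩ := p
      exact P.comm i a c (P.cent hb p ha) (P.cent hb p hc)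
    have le : ∀ x ∈ closure ({b, a, c} : Set Γ), x ≠ 1 →
        ∃ m n : ℤ, m ≠ 0 ∧ n ≠ 0 ∧ b ^ m = x ^ n := fun x hx n => by
      refine Nz.dep_ne tf hb n (np b p x (mem_centralizer_singleton_iff.1
        ((closure_le (centralizer {b})).2 ?_ hx)).symm)
      rintro w (rfl | rfl | rfl)
      exacts [mem_centralizer_singleton_iff.2 rfl, mem_centralizer_singleton_iff.2 ha,
        mem_centralizer_singleton_iff.2 hc]
    refine Nz.comm_of_cyc (cyc (closure {b, a, c})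
      ((Subgroup.fg_iff _).2 ⟨_, rfl, Set.toFinite _⟩) (fun x hx y hy _ => ?_)
      ⟨b, subset_closure (by simp)⟩ fun φ k => MonoidHom.ext fun x => ?_)
      (subset_closure (by simp)) (subset_closure (by simp))
    · by_cases x1 : x = 1
      · exact x1 ▸ (dep_one y).symm
      by_cases y1 : y = 1
      · exact y1 ▸ dep_one x
      obtain ⟨m, n, -, n0, e⟩ := le x hx x1
      obtain ⟨m', n', m0, -, e'⟩ := le y hy y1
      exact ⟨n * m', n' * m, fun z => mul_ne_zero n0 m0 z.1, by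
        rw [zpow_mul, ← e, zpow_mul, ← e', ← zpow_mul, ← zpow_mul, mul_comm]⟩
    · by_cases x1 : x = 1
      · rw [x1, map_one, map_one]
      obtain ⟨m, n, -, n0, e⟩ := le x.1 x.2 fun z => x1 (Subtype.ext z)
      refine mr_one n0 ?_
      rw [← map_zpow, show x ^ n = ⟨b, subset_closure (by simp)⟩ ^ m from Subtype.ext e.symm,
        map_zpow, k, one_zpow]
  refine ⟨tf, ct, fun a g ha c => ?_, fun a ⟨b, c, n⟩ => ?_⟩
  swap
  · obtain ⟨i, p, -⟩ := cusp a b c.symm n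
    have a1 := (ne_one_of_not_dep n).1
    exact (iso i).map fun e => (MulEquiv.subgroupCongr (Subgroup.ext fun x =>
      ⟨fun h => P.cent a1 p (mem_centralizer_singleton_iff.1 h),
        fun h => mem_centralizer_singleton_iff.2 (P.comm i x a h p)⟩)).trans e
  by_cases p : ∃ i : I, a • i = i
  · obtain ⟨i, p⟩ := p
    have h1 : (g * a * g⁻¹) • i = i := P.cent ha p c
    rw [mul_smul, mul_smul, ← eq_inv_smul_iff] at h1
    exact P.comm i g a (inv_smul_eq_iff.1 (P.mal a _ _ ha h1 p)).symm p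
  have a1 : g * a * g⁻¹ ≠ 1 := fun e => ha (by simpa using e)
  obtain ⟨q, r, -, r0, e⟩ := Nz.dep_ne tf ha a1 (np a p _ c.symm)
  rw [conj_zpow] at e
  by_cases h1 : r = q
  · exact ct (Nz.zne tf ha r0) (mul_inv_eq_iff_eq_mul.1 (e.symm.trans (by rw [h1])))
      (Commute.self_zpow a r).eq
  obtain ⟨C, hC⟩ : ∃ C, C = centralizer ({a} : Set Γ) := ⟨_, rfl⟩
  have mC : ∀ x, x ∈ C ↔ x * a = a * x := fun x => hC ▸ mem_centralizer_singleton_iff
  have gN : g ∈ normalizer (C : Set Γ) := by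
    refine mem_normalizer_iff.2 fun x => ?_
    rw [mC, mC]
    refine ⟨fun h => ct a1 (by rw [conj_mul, conj_mul, h]) c.symm, fun h => ?_⟩
    have := ct ha h c
    rwa [conj_mul, conj_mul, mul_left_inj, mul_right_inj] at this
  have ga : g ∈ closure {a, g} := subset_closure (by simp)
  have aa : a ∈ closure {a, g} := subset_closure (by simp)
  let π := QuotientGroup.mk' (C.subgroupOf (normalizer (C : Set Γ)))
  have le : closure {a, g} ≤ ((zpowers (π ⟨g, gN⟩)).comap π).map (normalizer (C : Set Γ)).subtype := by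
    rw [closure_le]
    rintro w (rfl | rfl)
    · have aC := (mC w).2 rfl
      refine ⟨⟨w, le_normalizer aC⟩, ?_, rfl⟩
      show π _ ∈ zpowers _
      rw [show π ⟨w, le_normalizer aC⟩ = 1 from (QuotientGroup.eq_one_iff _).2 aC]
      exact one_mem _
    · exact ⟨⟨w, gN⟩, mem_zpowers _, rfl⟩
  refine Nz.comm_of_cyc (cyc (closure {a, g}) ((Subgroup.fg_iff _).2 ⟨_, rfl, Set.toFinite _⟩)
    (fun x hx y hy c => by_contra fun n => ?_) ⟨g, ga⟩ fun φ k => MonoidHom.ext ?_) ga aa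
  · obtain ⟨i, fx, fy⟩ := cusp x y c n
    have z : ∀ u, u ∈ C → u • i = i → u = 1 := fun u h f => by_contra fun d =>
      p ⟨i, P.cent d f ((mC u).1 h).symm⟩
    obtain ⟨x, ⟨s, hs⟩, rfl⟩ := le hx
    obtain ⟨y, ⟨t, ht⟩, rfl⟩ := le hy
    have w : ∀ m l : ℤ, s * m = t * l → m = 0 ∧ l = 0 := fun m l h => by_contra fun d => by
      refine n ⟨m, l, d, mul_inv_eq_one.1 (z _ ?_ ?_)⟩
      · refine (QuotientGroup.eq_one_iff (N := C.subgroupOf _) (x ^ m * (y ^ l)⁻¹)).1 ?_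
        show π _ = 1
        rw [map_mul, map_inv, map_zpow, map_zpow, ← hs, ← ht, ← zpow_mul, ← zpow_mul, h,
          mul_inv_cancel]
      · exact mul_mem (zpow_mem (show _ ∈ stabilizer Γ i from fx) m)
          (inv_mem (zpow_mem (show _ ∈ stabilizer Γ i from fy) l))
    obtain ⟨rfl, rfl⟩ := w t s (mul_comm _ _)
    exact one_ne_zero (w 1 1 rfl).1
  · have fa : φ ⟨a, aa⟩ = 1 := by
      have e2 : (⟨g, ga⟩ * ⟨a, aa⟩ ^ r * ⟨g, ga⟩⁻¹ : closure {a, g}) = ⟨a, aa⟩ ^ q :=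
        Subtype.ext e.symm
      have e3 := congrArg φ e2
      simp only [map_mul, map_inv, map_zpow, mul_inv_cancel_comm] at e3
      exact mr_one (sub_ne_zero.2 h1) (by rw [zpow_sub, e3, mul_inv_cancel])
    rintro ⟨x, hx⟩
    show φ _ = 1
    induction hx using closure_induction with
    | mem x hx =>
      rcases hx with rfl | rfl
      exacts [fa, k]
    | one => exact φ.map_one
    | mul x y hx hy a b => exact (φ.map_mul ⟨x, hx⟩ ⟨y, hy⟩).trans (by rw [a, b, one_mul])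
    | inv x hx a => exact (φ.map_inv ⟨x, hx⟩).trans (by rw [a, inv_one])

variable {G X0 X1 X2 X3 : Type} [Group G] [MulAction G X0] [MulAction G X1] [MulAction G X2]
  [MulAction G X3] {T : Tri G X0 X1 X2 X3}

theorem cycE (hM : Mfd T) (tf : ∀ a : G, a ≠ 1 → ¬ IsOfFinOrder a) {E : Subgroup G} (hE : E.FG)
    (hi : ¬ E.FiniteIndex) (nz : ∀ a b : E, a * b = b * a → Dep a b) (κ : E)
    (h0 : ∀ φ : E →* Multiplicative ℝ, φ κ = 1 → φ = 1) : IsCyclic E := by
  obtain ⟨Ω, _, W, ω, fc, hz, ⟨Λ, top⟩, -⟩ := to_stage (I := Empty) (P := fun _ => ⊥)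
    (z := fun _ _ => 0) hM hi hE (adm_zp hM (zbase_tf hM tf E)) (fun i => i.elim)
    (fun _ : Fin 1 => κ) fun φ k => h0 φ (k 0)
  have := fc.fin
  have h1 := euler hM W
  have h2 := rank hM hi fc ⟨LinearMap.proj 0 ∘ₗ Λ, fun χ c k => top χ c (funext fun i => by
    rw [Subsingleton.elim i 0]; exact k)⟩
  obtain ⟨a, U, u0, u1, u2, u3, u4⟩ := bdyZ hM (Sf.tf_sub tf E) nz W
    (hM.exists_bd hi fc) (by omega)
  have := Nz.fi_of_sm W.free ω (fill fc hz u0 u1 u2 u3 u4)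
  exact Nz.cyc_of_fi (Sf.tf_sub tf E) a

/-- the hypothesis `cyc` of `hz_of` for a subgroup `H` of a group with a lattice of rank two -/
theorem cyc_sub (hM : Mfd T) (tf : ∀ a : G, a ≠ 1 → ¬ IsOfFinOrder a)
    (two : ∃ a b : G, a * b = b * a ∧ ¬ Dep a b) (H : Subgroup G) (E : Subgroup H) (fg : E.FG)
    (nz : ∀ a ∈ E, ∀ b ∈ E, a * b = b * a → Dep a b) (k : E)
    (h0 : ∀ φ : E →* Multiplicative ℝ, φ k = 1 → φ = 1) : IsCyclic E := by
  classical
  let e := equivMapOfInjective E _ H.subtype_injective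
  have nz' : ∀ a ∈ E.map H.subtype, ∀ b ∈ E.map H.subtype, a * b = b * a → Dep a b := by
    rintro _ ⟨a, ha, rfl⟩ _ ⟨b, hb, rfl⟩ c
    obtain ⟨m, n, d, q⟩ := nz a ha b hb (Subtype.ext c)
    exact ⟨m, n, d, congrArg Subtype.val q⟩
  refine e.isCyclic.2 (cycE hM tf ?_ (fun f => ?_) (fun a b c => ?_) (e k) fun φ z => ?_)
  · obtain ⟨s, hs⟩ := fg
    exact ⟨s.image Subtype.val, by rw [← hs, MonoidHom.map_closure, Finset.coe_image]; rfl⟩
  · obtain ⟨a, b, c, n⟩ := two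
    obtain ⟨p, p0, -, hp⟩ := exists_pow_mem_of_index_ne_zero f.1 a
    obtain ⟨q, q0, -, hq⟩ := exists_pow_mem_of_index_ne_zero f.1 b
    obtain ⟨i, j, d, r⟩ := nz' _ hp _ hq (Commute.pow_pow c p q).eq
    refine n ⟨p * i, q * j, fun z => d ⟨(mul_eq_zero.1 z.1).resolve_left (by omega),
      (mul_eq_zero.1 z.2).resolve_left (by omega)⟩, ?_⟩
    rwa [zpow_mul, zpow_mul, zpow_natCast, zpow_natCast]
  · obtain ⟨m, n, d, q⟩ := nz' _ a.2 _ b.2 (congrArg Subtype.val c)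
    exact ⟨m, n, d, Subtype.ext q⟩
  · refine MonoidHom.ext fun x => ?_
    obtain ⟨x, rfl⟩ := e.surjective x
    exact DFunLike.congr_fun (h0 (φ.comp e.toMonoidHom) z) x

end Pool.Agent.Work.MP_3d425c_gt.Rv
end

-- merged part: Pool.Agent.Work.MP_3d425c_gt.Rv.Big
section
/-! Characters on the subgroups of an atoroidal vertex group. -/

namespace Pool.Agent.Work.MP_3d425c_gt.Rv
open Set Relation MulAction Pool.Agent.Work.MP_3d425c_gt.Md Pool.Agent.Work.MP_3d425c_gt.Cy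
  Pool.Agent.Work.MP_3d425c_gt.Bg Pool.Agent.Work.MP_3d425c_gt.Gl Pool.Agent.Work.MP_3d425c_gt.To
open Pool.Agent.Work.MP_3d425c_gt.Bq hiding End gp_fi bg2_of_end end_of_dual bg2_of_dual topB

theorem bg2_of_room {G : Type} [Group G] (h : Hz G) (k : ∀ S : G → ℝ, Cf S → Gr.Room S) : Bg2 G := by
  intro S hS E hE
  refine (k S hS E hE).imp_right (Or.imp_right fun k κ hκ => (k κ hκ).imp fun χ m =>
    ⟨m.1, m.2.1, m.2.2.1, fun a ha b hb e => ?_⟩)
  by_cases d : Gr.Dep a b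
  swap
  · exact m.2.2.2 a ha b hb e d
  by_cases na : a = 1
  · simp [na, m.1.one, hS.one]
  by_cases nb : b = 1
  · simp [nb, m.1.one, hS.one]
  obtain ⟨i, j, hi, -, e⟩ := h.dep_ne na nb (dep_iff.2 d)
  have e1 := congrArg χ e
  have e2 := congrArg S e
  rw [m.1.zpow ha, m.1.zpow hb, zsmul_eq_mul, zsmul_eq_mul] at e1
  rw [hS.zpow, hS.zpow] at e2
  refine mul_left_cancel₀ (Int.cast_ne_zero.2 hi : (i : ℝ) ≠ 0) ?_
  linear_combination S b * e1 - χ b * e2

theorem gp_fi {D : Type} [Group D] (h : Hz D) {K : Subgroup D} (hK : K.FiniteIndex)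
    (ab : ∀ a ∈ K, ∀ b ∈ K, a * b = b * a) (a b : D) : a * b = b * a := by
  by_cases ha : a = 1
  · simp [ha]
  by_cases hb : b = 1
  · simp [hb]
  obtain ⟨p, p0, -, hp⟩ := Subgroup.exists_pow_mem_of_index_ne_zero hK.1 a
  obtain ⟨q, q0, -, hq⟩ := Subgroup.exists_pow_mem_of_index_ne_zero hK.1 b
  have n : ∀ {a : D} {p : ℕ}, a ≠ 1 → 0 < p → a ^ p ≠ 1 := fun ha p0 e =>
    h.tf _ ha (isOfFinOrder_iff_pow_eq_one.2 ⟨_, p0, e⟩)
  exact h.ct (n hb q0) (h.ct (n ha p0) (Commute.self_pow a p).eq (ab _ hq _ hp))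
    (Commute.self_pow b q).eq

variable {G X0 X1 X2 X3 : Type} {V : Type*} [Group G] [MulAction G X0] [MulAction G X1]
  [MulAction G X2] [MulAction G X3] [MulAction G V] {T : Tri G X0 X1 X2 X3} {Γ : SimpleGraph V}

/-- the outcome of the tower -/
def End (T : Tri G X0 X1 X2 X3) : Prop :=
  ∀ E : Subgroup G, ¬ E.FiniteIndex → E.FG → Sf.Csa E → ∀ (k n : ℕ) (P : Fin k → Subgroup E)
    (z : Fin k → X1 → ℝ) (κ : Fin n → E), (∀ i, Wz T (P i) (z i)) → Ind T P z →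
    (∀ i, Spn T (P i) (z i)) →
    (∀ (a g : E) i j, a ≠ 1 → a ∈ P i → g * a * g⁻¹ ∈ P j → i = j ∧ g ∈ P i) →
    (∀ i, ∀ a ∈ P i, ∀ b ∈ P i, a * b = b * a) → (∀ i, ¬ IsCyclic (P i)) → Det κ →
    (n ≤ k ∨ n ≤ k + 1 ∧ ∀ A : Subgroup E, A.FG → (∀ a ∈ A, ∀ b ∈ A, a * b = b * a) →
      (∀ a, ∃ x ∈ A, x ∉ Subgroup.zpowers a) → ∃ i g, ∀ x ∈ A, g * x * g⁻¹ ∈ P i) →
    ∀ a b : E, a * b = b * a

theorem bg2_of_end (hM : Mfd T) (hend : End T) (hT : Γ.IsTree)
    (act : ∀ (g : G) p q, Γ.Adj p q → Γ.Adj (g • p) (g • q)) (v : V)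
    (beh : ∀ w, Γ.Adj v w → ∃ g : G, side Γ v w (g • v)) (hy : Hz (stabilizer G v))
    (ab : ∀ w, Γ.Adj v w → ∀ a b : G, a • v = v → a • w = w → b • v = v → b • w = w →
      a * b = b * a)
    (iso : ∀ w, Γ.Adj v w → Nonempty
      ((stabilizer G v ⊓ stabilizer G w : Subgroup G) ≃* Multiplicative (ℤ × ℤ)))
    (mal : ∀ (a : G) w w', Γ.Adj v w → Γ.Adj v w' → a ≠ 1 → a • v = v → a • w = w →
      a • w' = w' → w = w')
    (cusp : ∀ a b : G, a • v = v → b • v = v → a * b = b * a → ¬ Dep a b →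
      ∃ w, Γ.Adj v w ∧ a • w = w ∧ b • w = w) :
    Bg2 (stabilizer G v) := by
  classical
  refine bg2_of_room hy fun S hS E' hE' => ?_
  by_cases na : ∀ a ∈ E', ∀ b ∈ E', a * b = b * a
  · exact .inl na
  by_cases nf : E'.FiniteIndex
  · exact .inr (.inl nf)
  refine .inr (.inr fun κ hκ => ?_)
  have hi : ∀ w, Γ.Adj v w → ¬ ((stabilizer G w).subgroupOf (stabilizer G v)).FiniteIndex :=
    fun w hw f => na fun a _ b _ => gp_fi hy f
      (fun a ha b hb => Subtype.ext (ab w hw _ _ a.2 ha b.2 hb)) a b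
  obtain ⟨E, eE⟩ : ∃ E, E = E'.map (stabilizer G v).subtype := ⟨_, rfl⟩
  have hE : E ≤ stabilizer G v := eE ▸ Subgroup.map_subtype_le _
  have mE : ∀ x : stabilizer G v, x.1 ∈ E ↔ x ∈ E' := fun x => by
    rw [eE]
    exact Subgroup.mem_map_iff_mem (stabilizer G v).subtype_injective
  have hEi : ¬ (E.subgroupOf (stabilizer G v)).FiniteIndex := by
    rwa [show E.subgroupOf (stabilizer G v) = E' from Subgroup.ext mE]
  have fg : E.FG := by
    obtain ⟨s, hs⟩ := hE'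
    exact ⟨s.image Subtype.val, by rw [eE, ← hs, MonoidHom.map_closure, Finset.coe_image]; rfl⟩
  have inj := Subgroup.inclusion_injective hE
  obtain ⟨ι, hι⟩ : ∃ ι : E →* stabilizer G v, ι = Subgroup.inclusion hE := ⟨_, rfl⟩
  have cι : ∀ x, (ι x).1 = x.1 := fun x => by rw [hι]; rfl
  rw [← hι] at inj
  have n1 : ∀ {a : E}, a ≠ 1 → ι a ≠ 1 := fun n e => n (inj (e.trans (map_one ι).symm))
  have cs : Sf.Csa E := ⟨fun a n k => hy.tf _ (n1 n) (ι.isOfFinOrder k),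
    fun a x y n p q => inj (by
      simpa only [map_mul] using hy.ct (n1 n) (by simpa only [map_mul] using congrArg ι p)
        (by simpa only [map_mul] using congrArg ι q)),
    fun a g n p => inj (by
      simpa only [map_mul] using hy.mn _ (ι g) (n1 n)
        (by simpa only [map_mul, map_inv] using congrArg ι p.symm))⟩
  have nE : ¬ ∀ a b : E, a * b = b * a := fun c => na fun a ha b hb => Subtype.ext
    (show a.1 * b.1 = b.1 * a.1 from congrArg Subtype.val (c ⟨a, (mE a).2 ha⟩ ⟨b, (mE b).2 hb⟩))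
  have adj : ∀ g ∈ E, ∀ w, Γ.Adj v w → Γ.Adj v (g • w) := fun g hg w hw => by
    have j := act g _ _ hw
    rwa [show g • v = v from hE hg] at j
  let Fm : ∀ k, (Fin k → V) → Prop := fun k w => (∀ i, Γ.Adj v (w i)) ∧
    (∀ i j, ∀ g ∈ E, g • w i = w j → i = j) ∧
      ∀ i, ¬ IsCyclic (E ⊓ stabilizer G (w i) : Subgroup G)
  have key : ∀ k w, Fm k w → ∀ n (κ : Fin n → E), Det κ → ¬ (n ≤ k ∨ n ≤ k + 1 ∧
      ∀ A : Subgroup E, A.FG → (∀ a ∈ A, ∀ b ∈ A, a * b = b * a) →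
        (∀ a, ∃ x ∈ A, x ∉ Subgroup.zpowers a) →
          ∃ i g, ∀ x ∈ A, g * x * g⁻¹ ∈ (stabilizer G (w i)).subgroupOf E) := by
    rintro k w ⟨hw, hne, hn⟩ n κ d c
    obtain ⟨z, z1, z2, z3, z4, z5⟩ := exists_wz hM hT act v beh hi hE hEi w hw hne
      (fun i => iso _ (hw i)) hn (fun i => (stabilizer G (w i)).subgroupOf E)
      fun _ _ => Iff.rfl
    refine nE (hend E (fun f => hEi inferInstance) fg cs k n _ z κ
      (fun i => ⟨z1 i, z2 i, z3 i⟩) z4 (fun i y h => z5 i y h.coc h.inv h.sup)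
      (fun a g i j n ha hg => ?_) (fun i a ha b hb => Subtype.ext
        (ab _ (hw i) _ _ (hE a.2) ha (hE b.2) hb)) (fun i c => hn i ?_) d c)
    · have e : (g.1 * a.1 * g.1⁻¹) • w j = w j := hg
      have e' := mal a.1 _ _ (adj _ (inv_mem g.2) _ (hw j)) (hw i) (fun e => n (Subtype.ext e))
        (hE a.2) (by rwa [mul_smul, mul_smul, smul_eq_iff_eq_inv_smul] at e) ha
      obtain rfl := hne _ _ _ (inv_mem g.2) e'
      exact ⟨rfl, (inv_smul_eq_iff.1 e').symm⟩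
    · have i := (Subgroup.equivMapOfInjective _ _ E.subtype_injective).trans
        (MulEquiv.subgroupCongr ((Subgroup.subgroupOf_map_subtype (stabilizer G (w i)) E).trans
          (inf_comm _ _)))
      exact isCyclic_of_surjective i i.surjective
  obtain ⟨n, κ₀, d₀⟩ := gp_gen ((Group.fg_iff_subgroup_fg E).2 fg)
  obtain ⟨k, ⟨w, hw⟩, mx⟩ := gp_max (F := fun k => ∃ w, Fm k w) (n := n)
    ⟨Fin.elim0, fun i => i.elim0, fun i => i.elim0, fun i => i.elim0⟩
    fun ⟨w, hw⟩ => key n w hw n κ₀ d₀ (.inl le_rfl)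
  have pr : ∀ A : Subgroup E, A.FG → (∀ a ∈ A, ∀ b ∈ A, a * b = b * a) →
      (∀ a, ∃ x ∈ A, x ∉ Subgroup.zpowers a) →
        ∃ i g, ∀ x ∈ A, g * x * g⁻¹ ∈ (stabilizer G (w i)).subgroupOf E := by
    intro A ⟨s, hs⟩ c hA
    obtain ⟨a, ha, n⟩ := hA 1
    have a1 : ι a ≠ 1 := n1 fun e => n (by rw [e]; exact one_mem _)
    obtain ⟨b, cb, nb⟩ : Two (ι a) := by_contra fun t => by
      obtain ⟨z, hz⟩ := hy.fin a1 t (S := ι '' s) (s.finite_toSet.image _) (by
        rintro _ ⟨x, hx, rfl⟩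
        rw [← map_mul, c x (hs ▸ Subgroup.subset_closure hx) a ha, map_mul])
      refine gp_nc ι inj hA (K := Subgroup.zpowers z) (fun x hx => hz _ ?_) inferInstance
      rw [← MonoidHom.map_closure, hs]
      exact ⟨x, hx, rfl⟩
    obtain ⟨u, hu, f, -⟩ := cusp (ι a).1 b.1 (ι a).2 b.2 (congrArg Subtype.val cb.symm)
      fun ⟨m, l, d, e⟩ => nb ⟨m, l, d, Subtype.ext e⟩
    rw [cι] at f
    have fx : ∀ x ∈ A, x.1 • u = u := fun x hx =>
      mal a.1 _ _ (adj _ x.2 _ hu) hu (fun e => a1 (Subtype.ext ((cι a).trans e))) (hE a.2) (by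
        rw [← mul_smul, show a.1 * x.1 = x.1 * a.1 from congrArg Subtype.val (c a ha x hx),
          mul_smul, f]) f
    have nc : ¬ IsCyclic (E ⊓ stabilizer G u : Subgroup G) :=
      gp_nc E.subtype E.subtype_injective hA fun x hx => ⟨x.2, fx x hx⟩
    obtain ⟨i, g, hg, e⟩ : ∃ i, ∃ g ∈ E, g • u = w i := by
      by_contra m
      push Not at m
      refine mx ⟨Fin.cons u w, Fin.cases hu hw.1, fun i j g hg => ?_, Fin.cases nc hw.2.2⟩
      refine Fin.cases ?_ (fun i => ?_) i <;> refine Fin.cases ?_ (fun j => ?_) j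
      · exact fun _ => rfl
      · exact fun e => absurd e (m j g hg)
      · exact fun e => absurd (inv_smul_eq_iff.2 e.symm) (m i _ (inv_mem hg))
      · exact fun e => congrArg Fin.succ (hw.2.1 i j g hg e)
    refine ⟨i, ⟨g, hg⟩, fun x hx => ?_⟩
    show (g * x.1 * g⁻¹) • w i = w i
    rw [← e, mul_smul, mul_smul, inv_smul_smul, fx x hx]
  obtain ⟨χ, c1, ⟨x, c2⟩, c3, c4⟩ := gp_room (S := fun x : E => S (ι x))
    ⟨fun g a => by rw [map_mul, map_mul, map_inv, hS.conj], fun a b e => by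
      rw [map_mul, hS.add _ _ (by rw [← map_mul, e, map_mul])]⟩
    (fun i => (stabilizer G (w i)).subgroupOf E) (fun i => by
      obtain ⟨a, b, c, -, h⟩ := d1_basis _ _ (inf_le_inf_right _ hE)
        (iso _ (hw.1 i)).some (hw.2.2 i)
      refine ⟨⟨a, ((h a).2 ⟨1, 0, by simp⟩).1⟩, ⟨b, ((h b).2 ⟨0, 1, by simp⟩).1⟩,
        Subtype.ext c.eq, fun p hp => ?_⟩
      obtain ⟨m, n, e⟩ := (h p).1 ⟨p.2, hp⟩
      exact ⟨m, n, Subtype.ext e⟩)
    (fun κ' d => key k w hw _ κ' d (.inr ⟨le_rfl, pr⟩)) ⟨κ, (mE κ).2 hκ⟩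
  have ev : ∀ x : E, (fun y : stabilizer G v => if h : y.1 ∈ E then χ ⟨y, h⟩ else 0) (ι x) = χ x :=
    fun x => by simp only [cι, dif_pos x.2]
  have sj : ∀ a ∈ E', ∃ x, ι x = a := fun a ha => ⟨⟨a, (mE a).2 ha⟩, Subtype.ext (cι _)⟩
  refine ⟨fun y => if h : y.1 ∈ E then χ ⟨y, h⟩ else 0, fun a ha b hb => ?_,
    ⟨ι x, (mE _).1 (cι x ▸ x.2), by rwa [ev]⟩, (dif_pos ((mE κ).2 hκ)).trans c3,
    fun a ha b hb e n => ?_⟩
  · obtain ⟨a, rfl⟩ := sj a ha
    obtain ⟨b, rfl⟩ := sj b hb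
    rw [← map_mul, ev, ev, ev, c1]
  · obtain ⟨a, rfl⟩ := sj a ha
    obtain ⟨b, rfl⟩ := sj b hb
    have na : a ≠ 1 := fun e => n (by rw [e, map_one]; exact (Gr.dep_one _).symm)
    have mb : b ∈ Subgroup.closure {a, b} := Subgroup.subset_closure (by simp)
    have ma : a ∈ Subgroup.closure {a, b} := Subgroup.subset_closure (by simp)
    have le : ∀ x ∈ Subgroup.closure {a, b}, x * a = a * x := fun x hx => Nz.cl_comm (by
      rintro _ (rfl | rfl)
      exacts [rfl, inj (by rw [map_mul, map_mul, e])]) hx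
    obtain ⟨i, g, h⟩ := pr (Subgroup.closure {a, b})
      ((Subgroup.fg_iff _).2 ⟨_, rfl, Set.toFinite _⟩)
      (fun x hx y hy => cs.ct a x y na (le x hx) (le y hy))
      fun c => by_contra fun m => by
        push Not at m
        obtain ⟨i, hi⟩ := m a ma
        obtain ⟨j, hj⟩ := m b mb
        exact n (by rw [← hi, ← hj, map_zpow, map_zpow]; exact Gr.dep_zpow _ _ _)
    rw [ev, ev]
    exact c4 i g a b (h a ma) (h b mb)

theorem end_of_dual (hM : Mfd T) (tf : ∀ a : G, a ≠ 1 → ¬ IsOfFinOrder a)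
    (hd : ∀ E : Subgroup G, ¬ E.FiniteIndex → E.FG → Dual T E) : End T := by
  intro E hE fg cs k n P z κ wz ind one mal ab _ d c
  rcases c with c | ⟨c, per⟩
  · exact topA hM tf cs hE fg (hd E hE fg) wz (fun c s _ => ind c s) κ d (by simpa using c)
  · exact topB hM tf cs hE fg (hd E hE fg) wz (fun c s _ => ind c s) one per
      (fun i j x g => mal x g i j) ab κ d (by simpa using c)

/-- Characters on the subgroups of a hyperbolic vertex group, from duality. -/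
theorem bg2_of_dual (hM : Mfd T) (tf : ∀ a : G, a ≠ 1 → ¬ IsOfFinOrder a)
    (hd : ∀ E : Subgroup G, ¬ E.FiniteIndex → E.FG → Dual T E) (hT : Γ.IsTree)
    (act : ∀ (g : G) p q, Γ.Adj p q → Γ.Adj (g • p) (g • q)) (v : V)
    (beh : ∀ w, Γ.Adj v w → ∃ g : G, side Γ v w (g • v)) (hy : Hz (stabilizer G v))
    (ab : ∀ w, Γ.Adj v w → ∀ a b : G, a • v = v → a • w = w → b • v = v → b • w = w →
      a * b = b * a)
    (iso : ∀ w, Γ.Adj v w → Nonempty
      ((stabilizer G v ⊓ stabilizer G w : Subgroup G) ≃* Multiplicative (ℤ × ℤ)))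
    (mal : ∀ (a : G) w w', Γ.Adj v w → Γ.Adj v w' → a ≠ 1 → a • v = v → a • w = w →
      a • w' = w' → w = w')
    (cusp : ∀ a b : G, a • v = v → b • v = v → a * b = b * a → ¬ Dep a b →
      ∃ w, Γ.Adj v w ∧ a • w = w ∧ b • w = w) :
    Bg2 (stabilizer G v) :=
  bg2_of_end hM (end_of_dual hM tf hd) hT act v beh hy ab iso mal cusp

end Pool.Agent.Work.MP_3d425c_gt.Rv
end

-- merged part: Pool.Agent.Work.MP_3d425c_gt.Sv.TopA
section
/-! At least as many independent walls as characters: the group is cyclic. -/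

namespace Pool.Agent.Work.MP_3d425c_gt.Bg.Sf
open Relation MulAction Function Pointwise

variable {D V E F : Type} [Group D] [MulAction D V] [MulAction D E] [MulAction D F]

theorem Srf.last1 (S : Srf D V E F) (tV : ∀ v x : V, ∃ g : D, g • v = x)
    (h1 : Nat.card (orbitRel.Quotient D E) ≤ 1) : IsCyclic D := by
  obtain ⟨v⟩ := S.neV
  have := S.finE
  have one : ∀ s : D, Subgroup.zpowers s = ⊤ → IsCyclic D := fun s h =>
    ⟨s, fun x => (h ▸ Subgroup.mem_top x : x ∈ Subgroup.zpowers s)⟩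
  by_cases hN : ∃ e, S.a0 e = v
  swap
  · exact one 1 (S.gen (tV v) _ fun e s h _ => (hN ⟨e, h⟩).elim)
  obtain ⟨e, h0⟩ := hN
  obtain ⟨s, h2⟩ := tV v (S.a1 e)
  refine one s (S.gen (tV v) _ fun c t h k => ?_)
  obtain ⟨g, rfl⟩ : c ∈ orbit D e := Quotient.exact
    ((Finite.card_le_one_iff_subsingleton.1 h1).elim (Quotient.mk'' c) (Quotient.mk'' e))
  rw [S.ea0, h0] at h
  simp only [S.fV g v h, one_smul] at k
  rw [free_inj S.fV (k.symm.trans h2.symm)]
  exact Subgroup.mem_zpowers s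

/-- positive Euler characteristic gives a cyclic group -/
theorem Srf.cycP (S : Srf D V E F) (chi : Nat.card (orbitRel.Quotient D E) <
      Nat.card (orbitRel.Quotient D V) + Nat.card (orbitRel.Quotient D F)) : IsCyclic D :=
  Srf.reduce (IsCyclic D) 1 (fun _ _ _ _ _ _ S a _ c => S.last1 a c) _ V E F S rfl (by omega)

theorem surfP :
    (∀ (g : D) (v : V), g • v = v → g = 1) →
    (∀ (g : D) (c : F), g • c = c → g = 1) → Finite (Md.Ob D E) →
    ∀ (en : E → Bool → V) (sd : E → Bool → F), (∀ (g : D) e i, en (g • e) i = g • en e i) →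
    (∀ (g : D) e i, sd (g • e) i = g • sd e i) → (∀ v, ∃ e i, en e i = v) →
    (∀ c, ∃ e i, sd e i = c) →
    (∀ c v, Even (Nat.card {p : E × Bool × Bool // sd p.1 p.2.1 = c ∧ en p.1 p.2.2 = v})) →
    (∀ e e' i j, en e i = en e' j → EqvGen (fun x y => ∃ k l, sd x k = sd y l) e e') →
    (∀ e e' i j, sd e i = sd e' j → EqvGen (fun x y => ∃ k l, en x k = en y l) e e') →
    oc D E < oc D V + oc D F → ∃ (a : D) (U : Set E), U.Nonempty ∧
      (∀ e ∈ U, ∀ e' i j, en e i = en e' j → e' ∈ U) ∧ (∀ e, a • e ∈ U ↔ e ∈ U) ∧ Sm a U := by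
  intro fV fF finE en sd ee es sV sF ev lV lF chi
  classical
  have finE' : Finite (orbitRel.Quotient D E) := finE
  have := fin_of_sur en ee sV
  have := fin_of_sur sd es sF
  have := Fintype.ofFinite (orbitRel.Quotient D E)
  have := Fintype.ofFinite (orbitRel.Quotient D V)
  have := Fintype.ofFinite (orbitRel.Quotient D F)
  obtain ⟨r, hr⟩ : ∃ r, r = EqvGen (fun x y : E => ∃ k l, en x k = en y l) := ⟨_, rfl⟩
  have eq : Equivalence r := hr ▸ EqvGen.is_equivalence _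
  have rV : ∀ e e' i j, en e i = en e' j → r e e' := fun e e' i j h =>
    hr ▸ EqvGen.rel _ _ ⟨i, j, h⟩
  have rF : ∀ e e' i j, sd e i = sd e' j → r e e' := fun e e' i j h => hr ▸ lF e e' i j h
  have rs : ∀ (g : D) e e', r e e' → r (g • e) (g • e') := fun g e e' h => by
    rw [hr] at h
    induction h with
    | rel x y c => obtain ⟨k, l, c⟩ := c; exact rV _ _ k l (by rw [ee, ee, c])
    | refl => exact eq.refl _
    | symm _ _ _ ih => exact eq.symm ih
    | trans _ _ _ _ _ i j => exact eq.trans i j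
  obtain ⟨κE, kE⟩ : ∃ κE : E → Set E, ∀ e x, x ∈ κE e ↔ r e x :=
    ⟨fun e => {x | r e x}, fun _ _ => Iff.rfl⟩
  have kr : ∀ e e', κE e = κE e' ↔ r e e' := fun e e' =>
    ⟨fun h => (kE e e').1 (h ▸ (kE e' e').2 (eq.refl _)), fun h => Set.ext fun x => by
      rw [kE, kE]; exact ⟨eq.trans (eq.symm h), eq.trans h⟩⟩
  have hE : ∀ (g : D) e, κE (g • e) = g • κE e := fun g e => Set.ext fun x => by
    rw [Set.mem_smul_set_iff_inv_smul_mem, kE, kE]
    exact ⟨fun h => by simpa using rs g⁻¹ _ _ h, fun h => by simpa using rs g _ _ h⟩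
  choose cV iV qV using sV
  choose cF iF qF using sF
  have kV : ∀ e i, κE (cV (en e i)) = κE e := fun e i => (kr _ _).2 (rV _ _ _ _ (qV _))
  have kF : ∀ e i, κE (cF (sd e i)) = κE e := fun e i => (kr _ _).2 (rF _ _ _ _ (qF _))
  have hV : ∀ (g : D) v, κE (cV (g • v)) = g • κE (cV v) := fun g v => by
    rw [← hE, ← kV (g • cV v) (iV v), ee, qV]
  have hF : ∀ (g : D) v, κE (cF (g • v)) = g • κE (cF v) := fun g v => by
    rw [← hE, ← kF (g • cF v) (iF v), es, qF]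
  let t := Finset.univ.image (qm κE hE)
  have mt : ∀ e, Quotient.mk'' (κE e) ∈ t := fun e =>
    Finset.mem_image.2 ⟨Quotient.mk'' e, Finset.mem_univ _, rfl⟩
  have c1 := Finset.card_eq_sum_card_fiberwise (s := Finset.univ) (t := t) (f := qm κE hE)
    (by rintro ⟨e⟩ _; exact mt e)
  have c2 := Finset.card_eq_sum_card_fiberwise (s := Finset.univ) (t := t)
    (f := qm (fun v => κE (cV v)) hV) (by rintro ⟨e⟩ _; exact mt _)
  have c3 := Finset.card_eq_sum_card_fiberwise (s := Finset.univ) (t := t)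
    (f := qm (fun v => κE (cF v)) hF) (by rintro ⟨e⟩ _; exact mt _)
  have chi' : Nat.card (orbitRel.Quotient D E) <
    Nat.card (orbitRel.Quotient D V) + Nat.card (orbitRel.Quotient D F) := chi
  simp only [Nat.card_eq_fintype_card, ← Finset.card_univ] at chi'
  rw [c1, c2, c3, ← Finset.sum_add_distrib] at chi'
  obtain ⟨q, hq, le⟩ := Finset.exists_lt_of_sum_lt chi'
  obtain ⟨⟨e⟩, -, rfl⟩ := Finset.mem_image.1 hq
  obtain ⟨f1, d1⟩ := fib_card κE hE (κE e)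
  obtain ⟨f2, d2⟩ := fib_card (fun v => κE (cV v)) hV (κE e)
  obtain ⟨f3, d3⟩ := fib_card (fun v => κE (cF v)) hF (κE e)
  have S : Srf (stabilizer D (κE e)) (fib (fun v => κE (cV v)) hV (κE e)) (fib κE hE (κE e))
      (fib (fun v => κE (cF v)) hF (κE e)) :=
    { a0 := fun x => ⟨en x.1 false, (kV _ _).trans x.2⟩
      a1 := fun x => ⟨en x.1 true, (kV _ _).trans x.2⟩
      p0 := fun x => ⟨sd x.1 false, (kF _ _).trans x.2⟩
      p1 := fun x => ⟨sd x.1 true, (kF _ _).trans x.2⟩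
      ea0 := fun g x => Subtype.ext (ee g.1 x.1 _)
      ea1 := fun g x => Subtype.ext (ee g.1 x.1 _)
      ep0 := fun g x => Subtype.ext (es g.1 x.1 _)
      ep1 := fun g x => Subtype.ext (es g.1 x.1 _)
      fV := fun g v h => Subtype.ext (fV g.1 v.1 (congrArg Subtype.val h))
      fF := fun g v h => Subtype.ext (fF g.1 v.1 (congrArg Subtype.val h))
      neV := ⟨⟨en e false, kV _ _⟩⟩
      neF := ⟨⟨sd e false, kF _ _⟩⟩
      cV := conn_fib en (fun v => κE (cV v)) κE kV (fun v => ⟨_, _, qV v⟩)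
        (fun a b h => hr ▸ (kr a b).1 h) _ _ fun a ha => ⟨⟨a, ha⟩, rfl, rfl⟩
      cF := conn_fib sd (fun v => κE (cF v)) κE kF (fun v => ⟨_, _, qF v⟩)
        (fun a b h => eqv_le (fun x y ⟨k, l, c⟩ => lV x y k l c) (hr ▸ (kr a b).1 h)) _ _
        fun a ha => ⟨⟨a, ha⟩, rfl, rfl⟩
      finV := f2
      finE := f1
      finF := f3
      orth := fun u w h => by
        obtain ⟨u', u1, u2, u3⟩ := ext_zero u
        obtain ⟨w', w1, -, w3⟩ := ext_zero w
        rw [← orth_of fV fF en sd ee es ev u' w' (h.imp u3 w3)]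
        simp only [← u1, ← w1]
        refine (finsum_subtype_eq_finsum_cond (f := fun x => (u' (en x false) + u' (en x true)) *
          (w' (sd x false) + w' (sd x true))) (p := fun x => κE x = κE e)).trans
          (finsum_congr fun x => ?_)
        rw [finsum_eq_if]
        split_ifs with hx
        · rfl
        · rw [u2 _ fun c => hx ((kV x false).symm.trans c),
            u2 _ fun c => hx ((kV x true).symm.trans c), add_zero, zero_mul] }
  obtain ⟨a, ha⟩ := (S.cycP (by rw [d1, d2, d3]; exact le)).exists_generator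
  refine ⟨a.1, κE e, ⟨e, (kE _ _).2 (eq.refl _)⟩, fun x hx y i j h => ?_, fun x => ?_, ?_⟩
  · exact (kE _ _).2 (eq.trans ((kE _ _).1 hx) (rV _ _ _ _ h))
  · have h : a.1 • x ∈ a.1 • κE e ↔ x ∈ κE e := Set.smul_mem_smul_set_iff
    rwa [show a.1 • κE e = κE e from a.2] at h
  · refine ⟨Set.range fun q : orbitRel.Quotient (stabilizer D (κE e)) (fib κE hE (κE e)) =>
      (Quotient.out q).1, Set.finite_range _, fun x hx => ?_⟩
    let y : fib κE hE (κE e) := ⟨x, ((kr _ _).2 ((kE _ _).1 hx)).symm⟩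
    obtain ⟨g, hg⟩ := Quotient.exact (Quotient.out_eq (Quotient.mk'' y :
      orbitRel.Quotient (stabilizer D (κE e)) (fib κE hE (κE e)))).symm
    obtain ⟨n, rfl⟩ := Subgroup.mem_zpowers_iff.1 (ha g)
    exact ⟨_, ⟨Quotient.mk'' y, rfl⟩, n, (congrArg Subtype.val hg).symm⟩

end Pool.Agent.Work.MP_3d425c_gt.Bg.Sf

namespace Pool.Agent.Work.MP_3d425c_gt.Sv
open Set Relation Pool.Agent.Work.MP_3d425c_gt.Md Pool.Agent.Work.MP_3d425c_gt.Cy
  Pool.Agent.Work.MP_3d425c_gt.Bg Pool.Agent.Work.MP_3d425c_gt.Bq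

variable {G X0 X1 X2 X3 : Type} [Group G] [MulAction G X0] [MulAction G X1] [MulAction G X2]
  [MulAction G X3] {T : Tri G X0 X1 X2 X3} {E : Subgroup G} {Ω : Type} [MulAction E Ω]

theorem sm_of_pos (hM : Mfd T) {W : Et T E Ω} {ω : Ω} (fc : W.Fc ω) (hz : W.Zp)
    (h : oc E (W.C2 1 2) < oc E (W.C1 1 1) + oc E (W.C3 1 3)) : ∃ a : E, Sm a (univ : Set Ω) := by
  have := fc.fin
  obtain ⟨en, sd, e2, e1, s1, e3, s2, ev, lV, lF⟩ := bq_data hM W
  obtain ⟨a, U, u1, u2, u3, K, hK, u4⟩ := Sf.surfP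
    (fun g c h => W.free_cell g c.2.2.1 (congrArg (fun z : W.C1 1 1 => z.1.2) h))
    (fun g c h => W.free_cell g c.2.2.1 (congrArg (fun z : W.C3 1 3 => z.1.2) h))
    (W.finC2 one_pos 2) en sd e1 s1 e3 s2 ev lV lF h
  refine ⟨a, fill fc hz (U := {v | ∃ c ∈ U, ∃ i, (en c i).1 = v}) ?_ ?_ (fun v => ⟨?_, ?_⟩)
    ⟨(fun p : W.C2 1 2 × Bool => (en p.1 p.2).1) '' (K ×ˢ univ),
      (hK.prod finite_univ).image _, ?_⟩ ?_⟩
  · obtain ⟨c, hc⟩ := u1
    exact ⟨_, c, hc, true, rfl⟩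
  · rintro _ ⟨c, -, i, rfl⟩
    exact (en c i).2
  · rintro ⟨c, hc, i, e⟩
    refine ⟨a⁻¹ • c, (u3 _).1 (by rwa [smul_inv_smul]), i, ?_⟩
    rw [e1]
    show a⁻¹ • (en c i).1 = v
    rw [e, inv_smul_smul]
  · rintro ⟨c, hc, i, rfl⟩
    exact ⟨a • c, (u3 c).2 hc, i, congrArg Subtype.val (e1 a c i)⟩
  · rintro _ ⟨c, hc, i, rfl⟩
    obtain ⟨k, hk, n, rfl⟩ := u4 c hc
    exact ⟨_, ⟨(k, i), ⟨hk, trivial⟩, rfl⟩, n, congrArg Subtype.val (e1 _ k i)⟩
  · rintro c hc k l ⟨c', hc', i, e⟩ hl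
    obtain ⟨j, a1⟩ := e2 ⟨c, hc⟩ k (en c' i) e.symm
    obtain ⟨j', a2⟩ := e2 ⟨c, hc⟩ l ⟨_, hl⟩ rfl
    exact ⟨⟨c, hc⟩, u2 c' hc' _ i j a1.symm, j', congrArg Subtype.val a2⟩

variable {I : Type} [Fintype I] {P : I → Subgroup E} {z : I → X1 → ℝ}

theorem topA0 (hM : Mfd T) (tf : ∀ a : G, a ≠ 1 → ¬ IsOfFinOrder a)
    (hE : ¬ E.FiniteIndex) (hfg : E.FG) (hd : Dual T E) (hz : ∀ i, Wz T (P i) (z i))
    (ind : IndW T P z) {n : ℕ} (κ : Fin n → E)
    (h0 : ∀ φ : E →* Multiplicative ℝ, (∀ i, φ (κ i) = 1) → φ = 1) (hn : n ≤ Fintype.card I) :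
    IsCyclic E := by
  obtain ⟨Ω, _, W, ω, fc, j, t, y, y1, y2⟩ :=
    to_stage hM hE hfg (adm_zp hM (zbase_tf hM tf E)) hz κ h0
  have := fc.fin
  have h1 := hd Ω W ω n fc (hM.exists_bd hE fc) t I _ (fun i => (y1 i).sum) (to_ind ind y1 y2)
  obtain ⟨a, h⟩ := sm_of_pos hM fc j (by omega)
  have := Nz.fi_of_sm W.free ω h
  exact Nz.cyc_of_fi (Sf.tf_sub tf E) a

open MulAction Pool.Agent.Work.MP_3d425c_gt.Gl in
/-- `k` classes of edges that meet `E` in rank two force more than `k` characters. -/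
theorem det_cyc {V : Type*} [MulAction G V] {Γ : SimpleGraph V} (hM : Mfd T)
    (tf : ∀ a : G, a ≠ 1 → ¬ IsOfFinOrder a)
    (hd : ∀ E : Subgroup G, ¬ E.FiniteIndex → E.FG → Dual T E) (hT : Γ.IsTree)
    (act : ∀ (g : G) p q, Γ.Adj p q → Γ.Adj (g • p) (g • q)) (v : V)
    (beh : ∀ w, Γ.Adj v w → ∃ g : G, side Γ v w (g • v))
    (hi : ∀ w, Γ.Adj v w → ¬ ((stabilizer G w).subgroupOf (stabilizer G v)).FiniteIndex)
    (iso : ∀ w, Γ.Adj v w → Nonempty
      ((stabilizer G v ⊓ stabilizer G w : Subgroup G) ≃* Multiplicative (ℤ × ℤ)))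
    (hE : E ≤ stabilizer G v) (hEi : ¬ (E.subgroupOf (stabilizer G v)).FiniteIndex) (fg : E.FG)
    {k n : ℕ} (w : Fin k → V) (hw : ∀ i, Γ.Adj v (w i))
    (hne : ∀ i j, ∀ g ∈ E, g • w i = w j → i = j)
    (hn : ∀ i, ¬ IsCyclic (E ⊓ stabilizer G (w i) : Subgroup G)) (κ : Fin n → E) (d : Det κ)
    (le : n ≤ k) : IsCyclic E := by
  obtain ⟨z, z1, z2, z3, z4, -⟩ := exists_wz hM hT act v beh hi hE hEi w hw hne
    (fun i => iso _ (hw i)) hn (fun i => (stabilizer G (w i)).subgroupOf E) fun _ _ => Iff.rfl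
  have nf : ¬ E.FiniteIndex := fun f => hEi inferInstance
  exact topA0 hM tf nf fg (hd E nf fg) (fun i => ⟨z1 i, z2 i, z3 i⟩) (fun c s _ => z4 c s) κ d
    (by simpa using le)

end Pool.Agent.Work.MP_3d425c_gt.Sv
end

-- merged part: Pool.Agent.Work.MP_3d425c_gt.Sv.Base
section
/-! Pieces with a fibre: shared notions. -/

namespace Pool.Agent.Work.MP_3d425c_gt.Sv
open Set MulAction Pool.Agent.Work.MP_3d425c_gt.To Pool.Agent.Work.MP_3d425c_gt.To.Top

variable {G V : Type} [Group G] [MulAction G V]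

/-- a tree with edge groups `ℤ²` that are proper in the vertex groups -/
structure Tre (G : Type) {V : Type} [Group G] [MulAction G V] (Γ : SimpleGraph V) : Prop where
  top : Top.Jsj G Γ
  iso : ∀ u v, Γ.Adj u v →
    Nonempty (↥(stabilizer G u ⊓ stabilizer G v) ≃* Multiplicative (ℤ × ℤ))
  red : ∀ u v, Γ.Adj u v → ∃ g : G, g • u = u ∧ g • v ≠ v

/-- slopes at `v` -/
structure Slp (Γ : SimpleGraph V) (v : V) (s : V → G → ℝ) : Prop where
  eqv : ∀ (g : G) w, g • v = v → Γ.Adj v w → ∀ p ∈ Eg G v w, s (g • w) (g * p * g⁻¹) = s w p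
  add : ∀ w, Γ.Adj v w → ∀ p ∈ Eg G v w, ∀ q ∈ Eg G v w, s w (p * q) = s w p + s w q

/-- additive on `E` -/
def Adv (E : Subgroup G) (χ : G → ℝ) : Prop := ∀ a ∈ E, ∀ b ∈ E, χ (a * b) = χ a + χ b

/-- `χ` is proportional to the slope of the edge towards `w` on `E` -/
def Prp (E : Subgroup G) (v : V) (s : V → G → ℝ) (χ : G → ℝ) (w : V) : Prop :=
  ∀ p ∈ E, p ∈ Eg G v w → ∀ q ∈ E, q ∈ Eg G v w → χ p * s w q = χ q * s w p

/-- a nonzero character of `E` that is proportional to the slopes outside `Ω` -/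
def Cpt (Γ : SimpleGraph V) (v : V) (s : V → G → ℝ) (E : Subgroup G) (Ω : Set V) (χ : G → ℝ) :
    Prop := Adv E χ ∧ (∃ a ∈ E, χ a ≠ 0) ∧ ∀ w, Γ.Adj v w → w ∉ Ω → Prp E v s χ w

/-- more characters than independent walls -/
def Rank (G : Type) {V : Type} [Group G] [MulAction G V] (Γ : SimpleGraph V) (v : V) : Prop :=
  ∀ E : Subgroup G, E ≤ stabilizer G v → E.FG → ∀ (k : ℕ) (w : Fin k → V), (∀ i, Γ.Adj v (w i)) →
    (∀ i j, ∀ g ∈ E, g • w i = w j → i = j) →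
    (∀ i, ¬ IsCyclic (E ⊓ stabilizer G (w i) : Subgroup G)) →
    (¬ (E.subgroupOf (stabilizer G v)).FiniteIndex ∨
      ∃ u, Γ.Adj v u ∧ ∀ i, ∀ g ∈ E, g • w i ≠ u) →
    ∀ (n : ℕ) (κ : Fin n → E), Bq.Det κ → n ≤ k → IsCyclic E

end Pool.Agent.Work.MP_3d425c_gt.Sv
end

-- merged part: Pool.Agent.Work.MP_3d425c_gt.Sv.Wall
section
/-! Walls at a vertex of a reduced action; the first Betti number of the vertex group. -/

namespace Pool.Agent.Work.MP_3d425c_gt.Sv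
open Set Relation MulAction Pool.Agent.Work.MP_3d425c_gt.Md Pool.Agent.Work.MP_3d425c_gt.Cy
  Pool.Agent.Work.MP_3d425c_gt.Bg Pool.Agent.Work.MP_3d425c_gt.Gl Pool.Agent.Work.MP_3d425c_gt.Bq

variable {G X0 X1 X2 X3 : Type} {V : Type*} [Group G] [MulAction G X0] [MulAction G X1]
  [MulAction G X2] [MulAction G X3] [MulAction G V] {T : Tri G X0 X1 X2 X3} {Γ : SimpleGraph V}

/-- the darts from `v` to `y` -/
def dts (Γ : SimpleGraph V) (v y : V) : Set (V × V) :=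
  {c | Γ.Adj c.1 c.2 ∧ ¬ side Γ c.1 c.2 v ∧ side Γ c.1 c.2 y}

theorem dts_fin (hT : Γ.IsTree) (v y : V) : (dts Γ v y).Finite :=
  (sep_fin hT v y).subset fun _ k e => k.2.1 (e.2 k.2.2)

theorem dts_lt (hT : Γ.IsTree) {v y u : V} (a : Γ.Adj y u) (n : ¬ side Γ y u v) :
    dts Γ v y ⊂ dts Γ v u := by
  refine ⟨fun c k => ⟨k.1, k.2.1, ?_⟩, fun k => side_not hT a (k (show (y, u) ∈ _ from
    ⟨a, n, .refl⟩)).2.2⟩
  refine (side_adj a fun e => ?_).1 k.2.2
  obtain ⟨p, q⟩ := c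
  rcases Sym2.eq_iff.1 e with ⟨rfl, rfl⟩ | ⟨rfl, rfl⟩
  · exact side_not hT a k.2.2
  · exact k.2.1 ((side_compl hT a v).2 n)

theorem dts_le (hT : Γ.IsTree) (act : ∀ (g : G) p q, Γ.Adj p q → Γ.Adj (g • p) (g • q)) {v : V}
    {a : G} (ha : a • v = v) (y : V) : (dts Γ v (a • y)).ncard ≤ (dts Γ v y).ncard := by
  refine ncard_le_ncard_of_injOn (fun c => (a⁻¹ • c.1, a⁻¹ • c.2)) (fun c k => ⟨act _ _ _ k.1,
    fun l => k.2.1 ?_, ?_⟩) (fun c _ d _ e => Prod.ext (smul_left_cancel a⁻¹ (congrArg Prod.fst e))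
      (smul_left_cancel a⁻¹ (congrArg Prod.snd e))) (dts_fin hT v y)
  · simpa only [smul_inv_smul, ha] using side_smul act a l
  · simpa only [inv_smul_smul] using side_smul act a⁻¹ k.2.2

/-- Half trees of a reduced action are unbounded. -/
theorem far (hT : Γ.IsTree) (act : ∀ (g : G) p q, Γ.Adj p q → Γ.Adj (g • p) (g • q))
    (red : ∀ p q, Γ.Adj p q → ∃ g : G, g • p = p ∧ g • q ≠ q) {v w : V} (hw : Γ.Adj v w) (N : ℕ) :
    ∃ g : G, side Γ v w (g • v) ∧ N ≤ (dts Γ v (g • v)).ncard := by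
  induction N with
  | zero =>
    obtain ⟨g, e, n⟩ := red w v hw.symm
    refine ⟨g, ReflTransGen.single ⟨by simpa only [e] using act g _ _ hw.symm, fun k => ?_⟩,
      Nat.zero_le _⟩
    rcases Sym2.eq_iff.1 k with k | k
    · exact hw.ne k.1.symm
    · exact n k.2
  | succ N ih =>
    obtain ⟨g, s, le⟩ := ih
    have a0 := act g _ _ hw
    obtain ⟨u, a, n⟩ : ∃ u, Γ.Adj (g • v) u ∧ ¬ side Γ (g • v) u v := by
      obtain ⟨b, e, n⟩ := red _ _ a0
      have a1 : Γ.Adj (g • v) (b • g • w) := by simpa only [e] using act b _ _ a0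
      by_cases k : side Γ (g • v) (g • w) v
      · exact ⟨_, a1, fun l => n (side_uniq hT a1 a0 l k)⟩
      · exact ⟨_, a0, k⟩
    obtain ⟨b, e, m⟩ := red _ _ a.symm
    have a2 : Γ.Adj u (b • g • v) := by simpa only [e] using act b _ _ a.symm
    have lt := (dts_lt hT a n).trans (dts_lt hT a2 fun l =>
      m (side_uniq hT a2 a.symm l ((side_compl hT a v).2 n)))
    refine ⟨b * g, ?_, ?_⟩ <;> rw [mul_smul]
    · exact (lt.1 (show (v, w) ∈ _ from ⟨hw, side_not hT hw, s⟩)).2.2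
    · exact le.trans_lt (ncard_lt_ncard lt (dts_fin hT _ _))

theorem far_not (hT : Γ.IsTree) (act : ∀ (g : G) p q, Γ.Adj p q → Γ.Adj (g • p) (g • q))
    (red : ∀ p q, Γ.Adj p q → ∃ g : G, g • p = p ∧ g • q ≠ q) {v w : V} (hw : Γ.Adj v w)
    {K : Set V} (hK : K.Finite) :
    ¬ ∀ g : G, side Γ v w (g • v) → ∃ k ∈ K, ∃ p : G, p • v = v ∧ g • v = p • k := fun h => by
  obtain ⟨N, hN⟩ := (hK.image fun y => (dts Γ v y).ncard).bddAbove
  obtain ⟨g, s, le⟩ := far hT act red hw (N + 1)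
  obtain ⟨k, hk, p, hp, e⟩ := h g s
  have := (dts_le hT act hp k).trans (hN ⟨k, hk, rfl⟩)
  rw [← e] at this
  omega

/-- A vertex group of a reduced action has infinite index. -/
theorem stab_inf (hT : Γ.IsTree) (act : ∀ (g : G) p q, Γ.Adj p q → Γ.Adj (g • p) (g • q))
    (red : ∀ p q, Γ.Adj p q → ∃ g : G, g • p = p ∧ g • q ≠ q) {v w : V} (hw : Γ.Adj v w) :
    ¬ (stabilizer G v).FiniteIndex := fun _ => by
  have : Finite (orbit G v) := Finite.of_equiv _ (orbitEquivQuotientStabilizer G v).symm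
  exact far_not hT act red hw (toFinite (orbit G v)) fun g _ =>
    ⟨_, mem_orbit v g, 1, one_smul _ _, (one_smul _ _).symm⟩

theorem walls_of (hM : Mfd T) (hT : Γ.IsTree)
    (act : ∀ (g : G) p q, Γ.Adj p q → Γ.Adj (g • p) (g • q))
    (red : ∀ p q, Γ.Adj p q → ∃ g : G, g • p = p ∧ g • q ≠ q) {v : V} {f : X0 → V}
    (hf : ∀ (g : G) x, f (g • x) = g • f x) {x₀ : X0} (h₀ : f x₀ = v) :
    Walls T Γ v fun w => {x | side Γ v w (f x)} := by
  classical
  have adj : ∀ (g : G) w, g • v = v → Γ.Adj v w → Γ.Adj v (g • w) := fun g w e k => by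
    simpa only [e] using act g _ _ k
  refine ⟨adj, fun g w x e => ?_,
    fun w w' x h h' k k' => side_uniq hT h h' k k', fun w hw => ?_, fun w hw => ?_,
    x₀, fun g e w hw k => ?_⟩
  · have := side_iff act g v w (f x)
    rw [e, ← hf] at this
    exact this
  · have := hM.fin1
    have ch : ∀ c : V × V, ∃ γ : G, (∃ g : G, g • c.1 = v ∧ g • c.2 = w) →
        γ • c.1 = v ∧ γ • c.2 = w := fun c => by
      by_cases a : ∃ g : G, g • c.1 = v ∧ g • c.2 = w
      · exact a.imp fun _ k _ => k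
      · exact ⟨1, fun k => absurd k a⟩
    choose γ hγ using ch
    refine ⟨⋃ o : Ob G X1, (fun c => γ c • Quotient.out o) ''
      {c : V × V | ¬ (side Γ c.1 c.2 (f (T.d1 (Quotient.out o) 0)) ↔
        side Γ c.1 c.2 (f (T.d1 (Quotient.out o) 1)))},
      finite_iUnion fun o => (sep_fin hT _ _).image _, fun e he => ?_⟩
    obtain ⟨g, hg⟩ := ob_eq_iff.1 (ob_out (ob G e)).symm
    obtain ⟨a, b⟩ := hγ (g⁻¹ • v, g⁻¹ • w) ⟨g, smul_inv_smul _ _, smul_inv_smul _ _⟩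
    refine ⟨_, mem_iUnion.2 ⟨ob G e, (g⁻¹ • v, g⁻¹ • w), fun k => he ?_, rfl⟩,
      g * (γ (g⁻¹ • v, g⁻¹ • w))⁻¹, ⟨?_, ?_⟩, ?_⟩
    · have i : ∀ j, side Γ (g⁻¹ • v) (g⁻¹ • w) (f (T.d1 (Quotient.out (ob G e)) j)) ↔
          side Γ v w (f (T.d1 e j)) := fun j => by
        rw [← side_iff act g, smul_inv_smul, smul_inv_smul, ← hf, ← T.e1, hg]
      exact (i 0).symm.trans (k.trans (i 1))
    · show (g * _) • v = v
      rw [mul_smul, ← eq_inv_smul_iff, inv_smul_eq_iff]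
      exact a.symm
    · show (g * _) • w = w
      rw [mul_smul, ← eq_inv_smul_iff, inv_smul_eq_iff]
      exact b.symm
    · show e = (g * _) • γ _ • _
      rw [mul_smul, inv_smul_smul, hg]
  · rintro ⟨K, hK, h⟩
    refine far_not hT act red hw (hK.image f) fun g s => ?_
    obtain ⟨k, hk, p, hp, e⟩ := h (g • x₀) (by
      show side Γ v w (f _)
      rwa [hf, h₀])
    exact ⟨_, ⟨k, hk, rfl⟩, p, hp, by rw [← hf, ← e, hf, h₀]⟩
  · have k' : side Γ v w (f (g • x₀)) := k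
    rw [hf, h₀, e] at k'
    exact side_not hT hw k'

theorem exists_walls' (hM : Mfd T) (hT : Γ.IsTree)
    (act : ∀ (g : G) p q, Γ.Adj p q → Γ.Adj (g • p) (g • q))
    (red : ∀ p q, Γ.Adj p q → ∃ g : G, g • p = p ∧ g • q ≠ q) (v : V) : ∃ A, Walls T Γ v A :=
  let ⟨_, hf, _, h₀⟩ := exists_equiv T v
  ⟨_, walls_of hM hT act red hf h₀⟩

section W
variable {v : V} {A : V → Set X0} {E : Subgroup G}

/-- all classes of walls but one are independent -/
theorem indep' (h : Walls T Γ v A) (hM : Mfd T) (hE : E ≤ stabilizer G v) {ι : Type*} [Fintype ι]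
    (w : ι → V) (hw : ∀ i, Γ.Adj v (w i)) (hne : ∀ i j, ∀ g ∈ E, g • w i = w j → i = j) {u : V}
    (hu : Γ.Adj v u) (nu : ∀ i, ∀ g ∈ E, g • w i ≠ u) (c : ι → ℝ)
    (s : X0 → ℝ) (hs : SmP E (Function.support s))
    (e : ∀ e, ∑ i, c i * wz T (EA E A (w i)) e = s (T.d1 e 0) - s (T.d1 e 1)) (i : ι) :
    c i = 0 := by
  classical
  have ct := const_of hM (t := fun x => s x - ∑ i, c i * wi (EA E A (w i)) x) fun a => by
    have := e a
    simp only [wz, mul_sub, Finset.sum_sub_distrib] at this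
    show _ - _ = _ - _
    linarith
  obtain ⟨y, hy, z⟩ : ∃ y ∈ A u, s y = 0 := by
    by_contra n
    exact h.inf u hu ((hs.le hE).mono fun x hx k => n ⟨x, hx, k⟩)
  by_contra n
  refine h.inf (w i) (hw i) ((hs.le hE).mono fun x hx k => n ?_)
  have a := ct x y
  have b : ∑ j, c j * wi (EA E A (w j)) y = 0 := Finset.sum_eq_zero fun j _ => by
    rw [wi_neg, mul_zero]
    exact fun ⟨a, ha, k⟩ => nu j a ha (h.disj _ _ y (h.adj a _ (hE ha) (hw j)) hu k hy)
  have d : ∑ j, c j * wi (EA E A (w j)) x = c i := by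
    have u : x ∈ EA E A (w i) := ⟨1, one_mem _, by rwa [one_smul]⟩
    rw [Finset.sum_eq_single i (fun j _ m => ?_) fun m => absurd (Finset.mem_univ i) m,
      wi_pos u, mul_one]
    rw [wi_neg, mul_zero]
    exact fun ⟨a, ha, k⟩ =>
      m (hne j i a ha (h.disj _ _ x (h.adj a _ (hE ha) (hw j)) (hw i) k hx))
  simp only [b, d, z, k] at a
  linarith

theorem ind' (h : Walls T Γ v A) (hM : Mfd T) (hE : E ≤ stabilizer G v) {ι : Type*} [Fintype ι]
    (w : ι → V) (hw : ∀ i, Γ.Adj v (w i)) (hne : ∀ i j, ∀ g ∈ E, g • w i = w j → i = j) {u : V}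
    (hu : Γ.Adj v u) (nu : ∀ i, ∀ g ∈ E, g • w i ≠ u)
    (P : ι → Subgroup E) (hP : ∀ i, ∀ p : E, p ∈ P i ↔ (p : G) • w i = w i) (c : ι → ℝ)
    (s : X0 → ℝ) (hs : SmP (⊤ : Subgroup E) (Function.support s))
    (e : ∀ e, ∑ i, c i * sm0 (P i) (wz T (A (w i))) e = s (T.d1 e 0) - s (T.d1 e 1)) : c = 0 := by
  refine funext fun i => indep' h hM hE w hw hne hu nu c s ?_ (fun a => ?_) i
  · obtain ⟨K, hK, k⟩ := hs
    refine ⟨K, hK, fun x hx => ?_⟩
    obtain ⟨y, hy, p, -, c⟩ := k x hx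
    exact ⟨y, hy, p, p.2, c⟩
  · rw [← e a]
    exact Finset.sum_congr rfl fun j _ => congrArg _ (h.sum_wz hE (hw j) (hP j) a).symm

end W

section D
variable (hM : Mfd T) (tf : ∀ a : G, a ≠ 1 → ¬ IsOfFinOrder a)
  (hd : ∀ E : Subgroup G, ¬ E.FiniteIndex → E.FG → Dual T E) (hT : Γ.IsTree)
  (act : ∀ (g : G) p q, Γ.Adj p q → Γ.Adj (g • p) (g • q))
  (red : ∀ p q, Γ.Adj p q → ∃ g : G, g • p = p ∧ g • q ≠ q) {v : V}
  (iso : ∀ w, Γ.Adj v w → Nonempty
    ((stabilizer G v ⊓ stabilizer G w : Subgroup G) ≃* Multiplicative (ℤ × ℤ)))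
include hM tf hd hT act red iso

/-- `k` classes of edges that meet a subgroup of infinite index in rank two force more than `k`
characters. -/
theorem det_cyc' {E : Subgroup G}
    (hE : E ≤ stabilizer G v) (hEi : ¬ (E.subgroupOf (stabilizer G v)).FiniteIndex) (fg : E.FG)
    {k n : ℕ} (w : Fin k → V) (hw : ∀ i, Γ.Adj v (w i))
    (hne : ∀ i j, ∀ g ∈ E, g • w i = w j → i = j)
    (hn : ∀ i, ¬ IsCyclic (E ⊓ stabilizer G (w i) : Subgroup G)) (κ : Fin n → E) (d : Det κ)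
    (le : n ≤ k) : IsCyclic E := by
  obtain ⟨A, h⟩ := exists_walls' hM hT act red v
  have nf : ¬ E.FiniteIndex := fun f => hEi inferInstance
  exact topA0 hM tf nf fg (hd E nf fg) (P := fun i => (stabilizer G (w i)).subgroupOf E)
    (z := fun i => wz T (A (w i))) (fun i => ⟨wz_coc _, h.inv hE fun _ => Iff.rfl,
      h.sup' hE (hw i) (iso _ (hw i)).some (hn i) fun _ => Iff.rfl⟩)
    (fun c s _ => h.ind hM hE hEi w hw hne _ (fun _ _ => Iff.rfl) c s) κ d (by simpa using le)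

/-- the same with one class of edges left out, for any subgroup of the vertex group -/
theorem det_cyc2 {E : Subgroup G} (hE : E ≤ stabilizer G v) (fg : E.FG)
    {k n : ℕ} (w : Fin k → V) (hw : ∀ i, Γ.Adj v (w i))
    (hne : ∀ i j, ∀ g ∈ E, g • w i = w j → i = j) {u : V} (hu : Γ.Adj v u)
    (nu : ∀ i, ∀ g ∈ E, g • w i ≠ u)
    (hn : ∀ i, ¬ IsCyclic (E ⊓ stabilizer G (w i) : Subgroup G)) (κ : Fin n → E) (d : Det κ)
    (le : n ≤ k) : IsCyclic E := by
  obtain ⟨A, h⟩ := exists_walls' hM hT act red v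
  have nf : ¬ E.FiniteIndex := fun f =>
    stab_inf hT act red hu (Subgroup.finiteIndex_of_le hE)
  exact topA0 hM tf nf fg (hd E nf fg) (P := fun i => (stabilizer G (w i)).subgroupOf E)
    (z := fun i => wz T (A (w i))) (fun i => ⟨wz_coc _, h.inv hE fun _ => Iff.rfl,
      h.sup' hE (hw i) (iso _ (hw i)).some (hn i) fun _ => Iff.rfl⟩)
    (fun c s _ => ind' h hM hE w hw hne hu nu _ (fun _ _ => Iff.rfl) c s) κ d (by simpa using le)

omit hM tf hd hT act red in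
theorem edge_nc {w : V} (hw : Γ.Adj v w) :
    ¬ IsCyclic (stabilizer G v ⊓ stabilizer G w : Subgroup G) := fun _ => by
  obtain ⟨e⟩ := iso w hw
  obtain ⟨z, hz⟩ := (isCyclic_of_surjective e e.surjective).exists_zpow_surjective
  obtain ⟨m, hm⟩ := hz (.ofAdd (1, 0))
  obtain ⟨n, hn⟩ := hz (.ofAdd (0, 1))
  have a1 : m * z.toAdd.1 = 1 := by simpa using congrArg (fun x => x.toAdd.1) hm
  have a2 : m * z.toAdd.2 = 0 := by simpa using congrArg (fun x => x.toAdd.2) hm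
  have a3 : n * z.toAdd.2 = 1 := by simpa using congrArg (fun x => x.toAdd.2) hn
  rcases mul_eq_zero.1 a2 with q | q
  · simp [q] at a1
  · simp [q] at a3

/-- The first Betti number of the vertex group is at least the number of classes of edges. -/
theorem det_le (fg : (stabilizer G v).FG) {k n : ℕ} (w : Fin k → V) (hw : ∀ i, Γ.Adj v (w i))
    (hne : ∀ i j (g : G), g • v = v → g • w i = w j → i = j) (κ : Fin n → stabilizer G v)
    (d : Det κ) : k ≤ n := by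
  by_contra lt
  obtain _ | k := k
  · omega
  have := det_cyc2 hM tf hd hT act red iso le_rfl fg (fun i => w i.succ) (fun i => hw _)
    (fun i j g hg e => Fin.succ_injective _ (hne _ _ g hg e)) (hw 0)
    (fun i g hg e => Fin.succ_ne_zero i (hne _ _ g hg e)) (fun i => edge_nc iso (hw _)) κ d
    (by omega)
  exact edge_nc iso (hw 0) (Subgroup.isCyclic_of_le inf_le_left)

end D

section Tre
variable {V : Type} [MulAction G V] {Γ : SimpleGraph V} {v : V}

/-- walls without the infinite index assumption -/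
theorem walls (hM : Mfd T) (J : Tre G Γ) (v : V) : ∃ A, Bq.Walls T Γ v A :=
  exists_walls' hM J.top.tree J.top.act J.red v

theorem rank (hM : Mfd T) (tf : ∀ a : G, a ≠ 1 → ¬ IsOfFinOrder a)
    (hd : ∀ E : Subgroup G, ¬ E.FiniteIndex → E.FG → Bq.Dual T E) (J : Tre G Γ) {A : V → Set X0}
    (W : Bq.Walls T Γ v A) : Rank G Γ v := by
  have _ := W
  rintro E hE fg k w hw hne hn (c | ⟨u, hu, nu⟩) n κ d le
  · exact det_cyc' hM tf hd J.top.tree J.top.act J.red (J.iso v) hE c fg w hw hne hn κ d le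
  · exact det_cyc2 hM tf hd J.top.tree J.top.act J.red (J.iso v) hE fg w hw hne hu nu hn κ d le

end Tre

end Pool.Agent.Work.MP_3d425c_gt.Sv
end
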