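import Pool.Agent.Work.MP_3d425c_gt.Sv.Base
import Pool.Agent.Work.MP_3d425c_gt.Sv.BH

/-! An order of the vertex group that detects the slopes, from compatible characters. -/

namespace Pool.Agent.Work.MP_3d425c_gt.Sv
open Set MulAction Pool.Agent.Work.MP_3d425c_gt.Gl Pool.Agent.Work.MP_3d425c_gt.To
  Pool.Agent.Work.MP_3d425c_gt.To.Top

variable {G V : Type} [Group G] [MulAction G V] {Γ : SimpleGraph V} {v : V} {s : V → G → ℝ}

/-- Burns-Hale with paired signs -/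
theorem ord_of_cpt (J : Top.Jsj G Γ) (S : Slp Γ v s)
    (k : ∀ E : Subgroup G, E ≤ stabilizer G v → E.FG → E ≠ ⊥ → ∃ χ, Cpt Γ v s E ∅ χ) :
    ∃ r, Ord (stabilizer G v) (Fam Γ v s) r := by
  refine ord_of_chars _ _ ?_ fun E le fg ne => ?_
  · rintro _ ⟨w, a, rfl⟩
    have := S.add w a 1 (one_mem _) 1 (one_mem _)
    rw [mul_one] at this
    exact ⟨inf_le_left, by simpa using this⟩
  obtain ⟨χ, c1, c2, c3⟩ := k E le fg ne
  refine ⟨χ, c1, c2, ?_⟩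
  rintro _ ⟨w, a, rfl⟩ y hy p hp q hq mp mq
  have e : y⁻¹ • v = v := inv_mem hy
  have a' : Γ.Adj v (y⁻¹ • w) := e ▸ J.act y⁻¹ v w a
  have m : ∀ p ∈ Eg G v w, y⁻¹ * p * y ∈ Eg G v (y⁻¹ • w) := fun p hp => by
    have := (conj_Eg y⁻¹).2 hp
    rwa [e, inv_inv] at this
  have := c3 _ a' (notMem_empty _) _ mp (m p hp) _ mq (m q hq)
  have e1 := S.eqv y⁻¹ w e a p hp
  have e2 := S.eqv y⁻¹ w e a q hq
  rw [inv_inv] at e1 e2
  rwa [e1, e2] at this

end Pool.Agent.Work.MP_3d425c_gt.Sv
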